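import Mathlib

/-!
# MP_a03d92_mp : interface between the tile construction (Part C) and the lattice gas statement (Part B)

`SubstSystem` : a finite set of Wang-type tiles `T` with horizontal/vertical adjacency relations which
simulates itself with zoom factor `N` (every valid `N × N` block with the right position labels is the
macro-tile `S u` of a unique tile `u`, and macro-tiles are adjacent iff the simulated tiles are), is
deterministic on the faces, and has nilpotent fluctuations (`bal`): after `k` substitutions the
composition of a macro-tile does not depend on the tile.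

Part B: from any `S : SubstSystem` deduce the frozen statement S15767.
Part C: construct a `SubstSystem`.
-/

set_option autoImplicit false

namespace Pool.Agent.MPa03d92

structure SubstSystem where
  /-- tiles -/
  T : Type
  [fin : Fintype T]
  [ne : Nonempty T]
  /-- zoom factor -/
  N : ℕ
  hN : 2 ≤ N
  /-- position of the tile in its macro-tile -/
  px : T → ℕ
  py : T → ℕ
  px_lt : ∀ t, px t < N
  py_lt : ∀ t, py t < N
  /-- `H t t'`: `t'` may be the right neighbour of `t`;  `V t t'`: `t'` may be the upper neighbour of `t` -/
  H : T → T → Prop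
  V : T → T → Prop
  H_pos : ∀ t t', H t t' → px t' = (px t + 1) % N ∧ py t' = py t
  V_pos : ∀ t t', V t t' → py t' = (py t + 1) % N ∧ px t' = px t
  /-- `S u a b` (`a, b < N`) is the tile at column `a` and row `b` of the macro-tile of `u` -/
  S : T → ℕ → ℕ → T
  S_px : ∀ u a b, a < N → b < N → px (S u a b) = a
  S_py : ∀ u a b, a < N → b < N → py (S u a b) = b
  S_H : ∀ u a b, a + 1 < N → b < N → H (S u a b) (S u (a + 1) b)
  S_V : ∀ u a b, a < N → b + 1 < N → V (S u a b) (S u a (b + 1))
  /-- macro-tiles are adjacent iff the tiles are -/
  H_face : ∀ u u', H u u' ↔ ∀ b, b < N → H (S u (N - 1) b) (S u' 0 b)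
  V_face : ∀ u u', V u u' ↔ ∀ a, a < N → V (S u a (N - 1)) (S u' a 0)
  S_inj : ∀ u u', (∀ a b, a < N → b < N → S u a b = S u' a b) → u = u'
  /-- a valid block with the right positions is a macro-tile -/
  force : ∀ w : ℕ → ℕ → T,
    (∀ a b, a < N → b < N → px (w a b) = a ∧ py (w a b) = b) →
    (∀ a b, a + 1 < N → b < N → H (w a b) (w (a + 1) b)) →
    (∀ a b, a < N → b + 1 < N → V (w a b) (w a (b + 1))) →
    ∃ u, ∀ a b, a < N → b < N → w a b = S u a b
  /-- the left column of the macro-tile of the right neighbour `u'` of `u` depends only on `u` -/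
  det_H : ∀ u u' u'', H u u' → H u u'' → ∀ b, b < N → S u' 0 b = S u'' 0 b
  /-- the bottom row of the macro-tile of the upper neighbour `u'` of `u` depends only on `u` -/
  det_V : ∀ u u' u'', V u u' → V u u'' → ∀ a, a < N → S u' a 0 = S u'' a 0
  /-- the lower left corner tile of a macro-tile is always the same -/
  corner : ∀ u u', S u 0 0 = S u' 0 0
  /-- after `k` substitutions the composition is independent of the tile -/
  bal : ∃ k : ℕ, ∀ φ : T → ℝ, ∃ c : ℝ, ∀ u,
    ((fun (ψ : T → ℝ) (v : T) => ∑ a ∈ Finset.range N, ∑ b ∈ Finset.range N, ψ (S v a b))^[k] φ) u = c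

attribute [instance] SubstSystem.fin SubstSystem.ne

end Pool.Agent.MPa03d92
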