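import Mathlib
import Pool.Agent.Work.MP_a03d92_mp.Interface

/-!
# MP_a03d92_mp : Part C, definitions of the tile set
-/

set_option autoImplicit false
open scoped Classical

namespace Pool.Agent.MPa03d92.C

/-- classical decision -/
noncomputable def dec (p : Prop) : Bool := @decide p (Classical.propDecidable p)
theorem dec_iff {p : Prop} : dec p = true ↔ p := @decide_eq_true_iff p (Classical.propDecidable p)
theorem dec_false_iff {p : Prop} : dec p = false ↔ ¬ p :=
  @decide_eq_false_iff_not p (Classical.propDecidable p)
theorem dec_congr {p q : Prop} (h : p ↔ q) : dec p = dec q := by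
  rw [Bool.eq_iff_iff, dec_iff, dec_iff, h]

/-- number of bits in the binary code of a role -/
def bb : ℕ := 4096

/-- transitions of the value on a line when it crosses one cell -/
inductive Tr
  | free | zz | pass | spass | stSel | st1 | st2 | stop | stop0
  deriving DecidableEq

instance : Fintype Tr := ⟨{.free, .zz, .pass, .spass, .stSel, .st1, .st2, .stop, .stop0}, by
  intro x; cases x <;> decide⟩

/-- link types -/
inductive LT
  | none | ringAh | ringBh | ringAv | ringBv | endR | endC
  | condR (F : Fin 8 → Bool) (c : Bool)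
  | condC (F : Fin 8 → Bool) (c : Bool)
  | coll (k : Fin bb) (a : Bool)
  | bbl (l1 l2 la ln : Bool)

def LT.toSum : LT → Fin 7 ⊕ (Bool × (Fin 8 → Bool) × Bool) ⊕ (Fin bb × Bool) ⊕
    (Bool × Bool × Bool × Bool)
  | .none => Sum.inl 0
  | .ringAh => Sum.inl 1
  | .ringBh => Sum.inl 2
  | .ringAv => Sum.inl 3
  | .ringBv => Sum.inl 4
  | .endR => Sum.inl 5
  | .endC => Sum.inl 6
  | .condR F c => Sum.inr (Sum.inl (false, F, c))
  | .condC F c => Sum.inr (Sum.inl (true, F, c))
  | .coll k a => Sum.inr (Sum.inr (Sum.inl (k, a)))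
  | .bbl l1 l2 la ln => Sum.inr (Sum.inr (Sum.inr (l1, l2, la, ln)))

theorem LT.toSum_inj : Function.Injective LT.toSum := by
  intro x y h
  cases x <;> cases y <;> simp_all [LT.toSum]

noncomputable instance : Fintype LT := Fintype.ofInjective _ LT.toSum_inj

/-- the kind of a cell: row transition, column transition, link -/
abbrev Kind : Type := Tr × Tr × LT

/-- the role of a cell -/
abbrev Role : Type := Fin 8 × Fin 8 × (Kind ⊕ (Fin 8 → Fin 8 → Kind))

theorem card_role : Fintype.card Role ≤ 2 ^ bb := by
  have h1 : Fintype.card LT ≤ 9240 := by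
    refine (Fintype.card_le_of_injective _ LT.toSum_inj).trans ?_
    simp only [Fintype.card_sum, Fintype.card_prod, Fintype.card_fin, Fintype.card_bool,
      Fintype.card_fun]
    norm_num [bb]
  have h2 : Fintype.card Kind ≤ 2 ^ 20 := by
    have h3 : Fintype.card Tr = 9 := by decide
    simp only [Kind, Fintype.card_prod, h3]
    omega
  have h4 : Fintype.card (Fin 8 → Fin 8 → Kind) ≤ 2 ^ 1280 := by
    rw [Fintype.card_fun, Fintype.card_fun, ← pow_mul]
    refine (Nat.pow_le_pow_left h2 _).trans (le_of_eq ?_)
    rw [← pow_mul, Fintype.card_fin]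
  have h5 : Fintype.card (Kind ⊕ (Fin 8 → Fin 8 → Kind)) ≤ 2 ^ 1281 := by
    rw [Fintype.card_sum]
    refine (Nat.add_le_add (h2.trans (Nat.pow_le_pow_right (by decide) (by decide :
      20 ≤ 1280))) h4).trans (le_of_eq ?_)
    rw [← two_mul, ← pow_succ']
  simp only [Role, Fintype.card_prod, Fintype.card_fin]
  have h6 : (8 : ℕ) = 2 ^ 3 := by norm_num
  refine (Nat.mul_le_mul_left _ (Nat.mul_le_mul_left _ h5)).trans ?_
  rw [h6, ← pow_add, ← pow_add]
  exact Nat.pow_le_pow_right (by decide) (by unfold bb; decide)

theorem exists_code : ∃ f : Role → Fin bb → Bool, Function.Injective f := by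
  have h : Fintype.card Role ≤ Fintype.card (Fin bb → Bool) := by
    rw [Fintype.card_fun, Fintype.card_bool, Fintype.card_fin]
    exact card_role
  obtain ⟨f⟩ := Function.Embedding.nonempty_of_card_le h
  exact ⟨f, f.injective⟩

/-- binary code of roles -/
noncomputable def code : Role → Fin bb → Bool := Classical.choose exists_code
theorem code_inj : Function.Injective code := Classical.choose_spec exists_code

/-- face values -/
@[ext] structure V where
  m : Option (Fin 8 × Role)
  ch : Bool
  b1 : Bool
  b2 : Bool

def V.toProd (v : V) : Option (Fin 8 × Role) × Bool × Bool × Bool := (v.m, v.ch, v.b1, v.b2)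

theorem V.toProd_inj : Function.Injective V.toProd := by
  intro x y h
  simp only [V.toProd, Prod.mk.injEq] at h
  ext1 <;> tauto

noncomputable instance : Fintype V := Fintype.ofInjective _ V.toProd_inj

def blank : V := ⟨none, false, false, false⟩
def bit (x : Bool) : V := ⟨none, false, x, false⟩
def bit2 (x y : Bool) : V := ⟨none, false, x, y⟩

/-- the relation of a transition -/
def rel : Tr → V → V → Prop
  | .free, _, _ => True
  | .zz, A, B => A = blank ∧ B = blank
  | .pass, A, B => A = B
  | .spass, A, B => B = ⟨A.m, B.ch, A.b1, A.b2⟩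
  | .stSel, A, B => A = blank ∧ B = ⟨B.m, true, false, false⟩
  | .st1, A, B => A = blank ∧ B = bit B.b1
  | .st2, A, B => A = blank ∧ B = bit2 B.b1 B.b2
  | .stop, _, B => B = blank
  | .stop0, A, B => B = blank ∧ A.b1 = false

/-- the relation of a link; arguments: West, East, South, North -/
def lrel : LT → V → V → V → V → Prop
  | .none, _, _, _, _ => True
  | .ringAh, W, E, S, N => E = blank ∧ S = blank ∧ W = bit W.b1 ∧ N = W
  | .ringBh, W, E, S, N => W = blank ∧ N = blank ∧ E = S
  | .ringAv, W, E, S, N => W = blank ∧ N = blank ∧ S = bit S.b1 ∧ E = S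
  | .ringBv, W, E, S, N => S = blank ∧ E = blank ∧ N = W
  | .endR, W, E, _, _ => W.ch = W.m.isSome ∧ E.ch = false
  | .endC, _, _, S, N => S.ch = S.m.isSome ∧ N.ch = false
  | .condR F c, W, _, S, N => (∀ p, S.m = some p → W.b1 = F p.1) ∧
      (c = true → N.ch = (S.ch && (W.b1 == F 0)))
  | .condC F c, W, E, S, _ => (∀ p, W.m = some p → S.b1 = F p.1) ∧
      (c = true → E.ch = (W.ch && (S.b1 == F 0)))
  | .coll k a, W, _, S, _ => ∀ p, W.m = some p → S.b1 = (code p.2 k ^^ a)
  | .bbl l1 l2 la ln, W, _, S, _ => (l1 = true → W.b1 = S.b1) ∧ (l2 = true → W.b2 = S.b1) ∧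
      (la = true → S.b1 = (W.b1 && W.b2)) ∧ (ln = true → S.b1 = !W.b1)

/-- the role in a group with table `tbl` at residues `(a, b)` -/
def roleOf (tbl : Fin 8 → Fin 8 → Kind) (a b : Fin 8) : Role :=
  (a, b, if a = 2 ∧ b = 2 then Sum.inr tbl else Sum.inl (tbl a b))

/-- local rule of a cell with role `θ`; arguments: West, East, South, North -/
def valid (θ : Role) (W E S N : V) : Prop :=
  match θ.2.2 with
  | Sum.inl k => rel k.1 W E ∧ rel k.2.1 S N ∧ lrel k.2.2 W E S N
  | Sum.inr tbl => W = E ∧ S = N ∧
      ∀ p q, W.m = some p → S.m = some q → p.2 = roleOf tbl q.1 p.1 ∧ q.2 = p.2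

/-- the four sides -/
inductive Sd | W | E | S | N
  deriving DecidableEq

instance : Fintype Sd := ⟨{.W, .E, .S, .N}, by intro x; cases x <;> decide⟩

/-- the bits read by the circuit: indicator bits of the four colours, code bits of the role -/
abbrev Bt : Type := (Sd × V) ⊕ Fin bb

/-- number of bits -/
noncomputable def KK : ℕ := Fintype.card Bt
noncomputable def bs : Fin KK ≃ Bt := (Fintype.equivFin Bt).symm

/-- inner lines -/
inductive II
  | lit (β : Bt) (a : Bool)
  | gate (m : Bt → Bool) (k : Fin KK)

def II.toSum : II → (Bt × Bool) ⊕ ((Bt → Bool) × Fin KK)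
  | .lit β a => Sum.inl (β, a)
  | .gate m k => Sum.inr (m, k)

theorem II.toSum_inj : Function.Injective II.toSum := by
  intro x y h
  cases x <;> cases y <;> simp_all [II.toSum]

noncomputable instance : Fintype II := Fintype.ofInjective _ II.toSum_inj

noncomputable def CC : ℕ := 2 * Fintype.card V + Fintype.card II + 1
/-- number of bits of a coordinate -/
noncomputable def ell : ℕ := CC + 10
/-- number of groups -/
noncomputable def nG : ℕ := 2 ^ (ell - 3)
/-- zoom factor -/
noncomputable def NN : ℕ := 8 * nG

/-- the bits transmitted through a face: first coordinate, second coordinate, indicator of the colour -/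
inductive PB
  | prim (k : Fin ell)
  | sec (k : Fin ell)
  | val (v : V)

/-- lines -/
inductive Line
  | none
  | endl
  | sel (t : ℕ)
  | pout (q : PB) (a : Bool)
  | pin (q : PB) (a : Bool)
  | int (i : II)

/-- group of a pair line -/
noncomputable def plP : PB → Bool → ℕ
  | .prim k, a => 2 * k.val + a.toNat
  | .sec k, a => 2 * ell + 1 + 2 * k.val + a.toNat
  | .val v, a => 4 * ell + 1 + 2 * (Fintype.equivFin V v).val + a.toNat

/-- group of an inner line -/
noncomputable def plI (i : II) : ℕ := 2 * ell + 1 + (Fintype.equivFin II i).val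

/-- coordinate of a line -/
noncomputable def posL : Line → ℕ
  | .none => 0
  | .endl => 8 * (2 * ell) + 3
  | .sel t => 8 * t + 2
  | .pout q a => 8 * plP q a + 4
  | .pin q a => 8 * plP q a + 5
  | .int i => 8 * plI i + 6

/-- the line at a given coordinate -/
noncomputable def line (y : ℕ) : Line :=
  if h : ∃ l, l ≠ Line.none ∧ posL l = y then Classical.choose h else Line.none

/-- link at the crossing of a row line and a column line -/
noncomputable def linkOf : Line → Line → LT
  -- selector row
  | .sel _, .endl => .endR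
  | .sel t, .pin (.prim k) a => .condC (fun s => (8 * t + s.val).testBit k.val ^^ a)
      (dec (3 ≤ k.val ∧ a = false))
  | .sel t, .pout (.prim k) a => .condC (fun s => ((8 * t + s.val + 1) % NN).testBit k.val ^^ a) false
  | .sel _, .int (.lit (Sum.inr k) a) => .coll k a
  -- selector column
  | .endl, .sel _ => .endC
  | .pin (.prim k) a, .sel t => .condR (fun s => (8 * t + s.val).testBit k.val ^^ a)
      (dec (3 ≤ k.val ∧ a = false))
  | .pout (.prim k) a, .sel t => .condR (fun s => ((8 * t + s.val + 1) % NN).testBit k.val ^^ a) false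
  -- secondary bits
  | .pin (.sec k) a, .pin (.prim k') a' => .bbl (dec (k = k' ∧ a = a')) false false false
  | .pout (.sec k) a, .pin (.prim k') a' => .bbl (dec (k = k' ∧ a = a')) false false false
  | .pin (.prim k) a, .pin (.sec k') a' => .bbl (dec (k = k' ∧ a = a')) false false false
  | .pin (.prim k) a, .pout (.sec k') a' => .bbl (dec (k = k' ∧ a = a')) false false false
  -- colour bits
  | .pin (.val v) a, .int (.lit β a') => .bbl (dec (β = Sum.inl (Sd.W, v) ∧ a = a')) false false false
  | .pout (.val v) a, .int (.lit β a') => .bbl (dec (β = Sum.inl (Sd.E, v) ∧ a = a')) false false false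
  | .int (.lit β a'), .pin (.val v) a => .bbl (dec (β = Sum.inl (Sd.S, v) ∧ a = a')) false false false
  | .int (.lit β a'), .pout (.val v) a => .bbl (dec (β = Sum.inl (Sd.N, v) ∧ a = a')) false false false
  -- inner lines
  | .int (.lit β a), .int (.lit β' a') =>
      .bbl (dec (β = β' ∧ a = a')) false false (dec (β = β' ∧ a ≠ a'))
  | .int (.gate m k), .int (.lit β a) =>
      .bbl (dec (k.val = 0 ∧ β = bs k ∧ a = m β)) (dec (β = bs k ∧ a = m β)) false false
  | .int (.gate m k), .int (.gate m' k') =>
      .bbl (dec (m = m' ∧ k'.val + 1 = k.val)) false (dec (m = m' ∧ k = k')) false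
  | _, _ => .none

/-- transition on a line at along-coordinate `x ≥ 1` -/
noncomputable def trOf (two chk : II → Bool) (l : Line) (x : ℕ) : Tr :=
  match l with
  | .none => .zz
  | .endl => .zz
  | .sel _ => if x = 1 then .stSel else if x = NN - 1 then .stop else .pass
  | .pout _ _ => if x = 1 then .st1 else .pass
  | .pin _ _ => if x = NN - 1 then .stop else .pass
  | .int i => if x = 1 then (if two i then .st2 else .st1)
      else if x = NN - 1 then (if chk i then .stop0 else .stop) else .pass

/-- which inner lines carry two bits, as rows -/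
def twoR : II → Bool
  | .lit _ _ => false
  | .gate _ _ => true

/-- the bits of a role and four colours -/
noncomputable def wOf (θ : Role) (W E S N : V) : Bt → Bool
  | Sum.inl (Sd.W, v) => dec (W = v)
  | Sum.inl (Sd.E, v) => dec (E = v)
  | Sum.inl (Sd.S, v) => dec (S = v)
  | Sum.inl (Sd.N, v) => dec (N = v)
  | Sum.inr k => code θ k

/-- the bit vectors that come from a valid cell -/
def good (w : Bt → Bool) : Prop := ∃ θ W E S N, valid θ W E S N ∧ w = wOf θ W E S N

/-- the inner columns whose value must be `0` at the top: last gates of bad masks -/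
noncomputable def chkC : II → Bool
  | .lit _ _ => false
  | .gate m k => dec (k.val + 1 = KK ∧ ¬ good (fun β => !m β))

noncomputable def LT.isR : LT → Bool
  | .endR => true
  | .condC _ c => c
  | _ => false

noncomputable def LT.isC : LT → Bool
  | .endC => true
  | .condR _ c => c
  | _ => false

/-- row transition at cell `(x,y)`, `x, y ≥ 1` -/
noncomputable def rtOf (x y : ℕ) : Tr :=
  if (linkOf (line y) (line x)).isR then .spass else trOf twoR (fun _ => false) (line y) x

/-- column transition at cell `(x,y)`, `x, y ≥ 1` -/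
noncomputable def ctOf (x y : ℕ) : Tr :=
  if (linkOf (line y) (line x)).isC then .spass else trOf (fun _ => false) chkC (line x) y

noncomputable def ringR : Line → Kind
  | .pout _ _ => (.free, .free, .ringAh)
  | .pin _ _ => (.free, .free, .ringBh)
  | _ => (.zz, .zz, .none)

noncomputable def ringC : Line → Kind
  | .pout _ _ => (.free, .free, .ringAv)
  | .pin _ _ => (.free, .free, .ringBv)
  | _ => (.zz, .zz, .none)

/-- kind of the cell `(x, y)` -/
noncomputable def kind (x y : ℕ) : Kind :=
  if x = 0 then ringR (line y)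
  else if y = 0 then ringC (line x)
  else (rtOf x y, ctOf x y, linkOf (line y) (line x))

noncomputable def tblOf (s t : ℕ) : Fin 8 → Fin 8 → Kind := fun a b => kind (8 * s + a) (8 * t + b)

def r8 (x : ℕ) : Fin 8 := ⟨x % 8, Nat.mod_lt _ (by norm_num)⟩

/-- role of the cell `(x, y)` -/
noncomputable def role (x y : ℕ) : Role := roleOf (tblOf (x / 8) (y / 8)) (r8 x) (r8 y)

/-- the bits sent through a face -/
noncomputable def enc (a b : ℕ) (v : V) : PB → Bool
  | .prim k => a.testBit k
  | .sec k => b.testBit k
  | .val v' => dec (v = v')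

/-- shift signals in the ring -/
noncomputable def rg (f : PB → Bool) (x : ℕ) : V :=
  match line x with
  | .pin q a => bit (f q ^^ a)
  | _ => blank

/-- chain bit -/
noncomputable def chv (t b x : ℕ) : Bool :=
  dec (x ≤ 8 * (2 * ell) + 3 ∧
    ∀ k, 3 ≤ k → k < ell → 8 * (2 * k) + 5 < x → b.testBit k = (8 * t).testBit k)

/-- value on a line at along-coordinate `x` -/
noncomputable def lv (a b : ℕ) (cin cout : V) (th : Role) (ic : II → V) (x : ℕ) : Line → V
  | .none => blank
  | .endl => blank
  | .sel t => if 2 ≤ x ∧ x < NN then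
      ⟨if t = b / 8 then some (r8 b, th) else none, chv t b x, false, false⟩ else blank
  | .pout q s => if x = 0 then bit (enc a b cin q ^^ s) else if x = 1 then blank
      else bit (enc ((a + 1) % NN) b cout q ^^ s)
  | .pin q s => if 1 ≤ x ∧ x < NN then bit (enc a b cin q ^^ s) else blank
  | .int i => if 2 ≤ x ∧ x < NN then ic i else blank

/-- prefix conjunction -/
noncomputable def Apre (x : Bt → Bool) (k : ℕ) : Bool :=
  dec (∀ k' : Fin KK, k'.val < k → x (bs k') = true)

noncomputable def rowInt (w : Bt → Bool) : II → V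
  | .lit β a => bit (w β ^^ a)
  | .gate m k => bit2 (if k.val = 0 then (w (bs k) ^^ m (bs k)) else Apre (fun β => w β ^^ m β) k.val)
      (w (bs k) ^^ m (bs k))

noncomputable def colInt (w : Bt → Bool) : II → V
  | .lit β a => bit (w β ^^ a)
  | .gate m k => bit (Apre (fun β => w β ^^ m β) (k.val + 1))

/-- tiles -/
@[ext] structure Tile where
  i : ℕ
  j : ℕ
  W : V
  E : V
  S : V
  N : V
  hi : i < NN
  hj : j < NN
  ok : valid (role i j) W E S N

noncomputable def Tile.w (u : Tile) : Bt → Bool := wOf (role u.i u.j) u.W u.E u.S u.N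

noncomputable def hf (u : Tile) (x y : ℕ) : V :=
  if y = 0 then rg (enc u.j u.i u.S) x
  else lv u.i u.j u.W u.E (role u.i u.j) (rowInt u.w) x (line y)

noncomputable def vf (u : Tile) (x y : ℕ) : V :=
  if x = 0 then rg (enc u.i u.j u.W) y
  else lv u.j u.i u.S u.N (role u.i u.j) (colInt u.w) y (line x)

end Pool.Agent.MPa03d92.C
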