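import Mathlib
import Pool.Agent.Work.MP_a03d92_mp.Defs

/-!
# MP_a03d92_mp : Part C, basic facts on the layout
-/

set_option autoImplicit false
open scoped Classical

namespace Pool.Agent.MPa03d92.C

theorem ell_ge : 10 ≤ ell := by unfold ell; omega

theorem five_mul_le (c : ℕ) : 5 * c + 40 ≤ 2 ^ (c + 7) := by
  induction c with
  | zero => norm_num
  | succ c ih =>
    have h : 2 ^ (c + 1 + 7) = 2 * 2 ^ (c + 7) := by ring
    omega

theorem nG_ge : 4 * ell + CC ≤ nG := by
  have := five_mul_le CC
  unfold nG ell
  have h : CC + 10 - 3 = CC + 7 := by omega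
  rw [h]
  omega

theorem NN_eq : NN = 2 ^ ell := by
  unfold NN nG
  have := ell_ge
  rw [show (8 : ℕ) = 2 ^ 3 by norm_num, ← pow_add]
  congr 1
  omega

theorem NN_eq' : NN = 8 * nG := rfl

theorem nG_pos : 41 ≤ nG := by
  have := nG_ge
  have := ell_ge
  unfold CC at *
  omega

theorem CC_eq : CC = 2 * Fintype.card V + Fintype.card II + 1 := rfl

theorem plP_lt (q : PB) (a : Bool) : plP q a < nG := by
  have h := nG_ge
  have hc := CC_eq
  have ha : a.toNat ≤ 1 := Bool.toNat_le a
  cases q with
  | prim k => have := k.isLt; simp only [plP]; omega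
  | sec k => have := k.isLt; simp only [plP]; omega
  | val v => have := (Fintype.equivFin V v).isLt; simp only [plP]; omega

theorem plI_lt (i : II) : plI i < nG := by
  have h := nG_ge
  have hc := CC_eq
  have := (Fintype.equivFin II i).isLt
  simp only [plI]; omega

theorem toNat_inj {a b : Bool} (h : a.toNat = b.toNat) : a = b := by
  cases a <;> cases b <;> simp_all

theorem plP_inj {q q' : PB} {a a' : Bool} (h : plP q a = plP q' a') : q = q' ∧ a = a' := by
  have ha : a.toNat ≤ 1 := Bool.toNat_le a
  have ha' : a'.toNat ≤ 1 := Bool.toNat_le a'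
  cases q with
  | prim k =>
    have := k.isLt
    cases q' with
    | prim k' =>
      have := k'.isLt
      simp only [plP] at h
      have h1 : k.val = k'.val := by omega
      have h2 : a.toNat = a'.toNat := by omega
      exact ⟨by rw [Fin.ext h1], toNat_inj h2⟩
    | sec k' => have := k'.isLt; simp only [plP] at h; omega
    | val v' => simp only [plP] at h; omega
  | sec k =>
    have := k.isLt
    cases q' with
    | prim k' => have := k'.isLt; simp only [plP] at h; omega
    | sec k' =>
      have := k'.isLt
      simp only [plP] at h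
      have h1 : k.val = k'.val := by omega
      have h2 : a.toNat = a'.toNat := by omega
      exact ⟨by rw [Fin.ext h1], toNat_inj h2⟩
    | val v' => simp only [plP] at h; omega
  | val v =>
    cases q' with
    | prim k' => have := k'.isLt; simp only [plP] at h; omega
    | sec k' => have := k'.isLt; simp only [plP] at h; omega
    | val v' =>
      simp only [plP] at h
      have h1 : (Fintype.equivFin V v).val = (Fintype.equivFin V v').val := by omega
      have h2 : a.toNat = a'.toNat := by omega
      exact ⟨by rw [(Fintype.equivFin V).injective (Fin.ext h1)], toNat_inj h2⟩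

theorem plI_inj {i i' : II} (h : plI i = plI i') : i = i' := by
  simp only [plI] at h
  exact (Fintype.equivFin II).injective (Fin.ext (by omega))

theorem posL_inj {l l' : Line} (h : l ≠ .none) (h' : l' ≠ .none) (hp : posL l = posL l') :
    l = l' := by
  cases l <;> cases l' <;> simp only [posL] at hp <;> first
    | (exact absurd rfl h)
    | (exact absurd rfl h')
    | rfl
    | (exfalso; omega)
    | skip
  · congr 1; omega
  · rename_i q a q' a'
    have := plP_inj (by omega : plP q a = plP q' a'); rw [this.1, this.2]
  · rename_i q a q' a'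
    have := plP_inj (by omega : plP q a = plP q' a'); rw [this.1, this.2]
  · rename_i i i'
    have := plI_inj (by omega : plI i = plI i'); rw [this]

theorem line_posL {l : Line} (h : l ≠ .none) : line (posL l) = l := by
  have hex : ∃ l', l' ≠ Line.none ∧ posL l' = posL l := ⟨l, h, rfl⟩
  unfold line
  rw [dif_pos hex]
  have hs := Classical.choose_spec hex
  exact posL_inj hs.1 h hs.2

theorem posL_line {y : ℕ} (h : line y ≠ .none) : posL (line y) = y := by
  unfold line at *
  split_ifs at h ⊢ with hex
  · exact (Classical.choose_spec hex).2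
  · exact absurd rfl h

theorem line_eq_iff {y : ℕ} {l : Line} (h : l ≠ .none) : line y = l ↔ posL l = y := by
  constructor
  · intro h1; rw [← h1]; exact posL_line (h1 ▸ h)
  · intro h1; rw [← h1]; exact line_posL h

theorem line_sel_iff {y t : ℕ} : line y = .sel t ↔ 8 * t + 2 = y :=
  line_eq_iff (l := .sel t) (by simp)
theorem line_endl_iff {y : ℕ} : line y = .endl ↔ 8 * (2 * ell) + 3 = y :=
  line_eq_iff (l := .endl) (by simp)
theorem line_pout_iff {y : ℕ} {q a} : line y = .pout q a ↔ 8 * plP q a + 4 = y :=
  line_eq_iff (l := .pout q a) (by simp)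
theorem line_pin_iff {y : ℕ} {q a} : line y = .pin q a ↔ 8 * plP q a + 5 = y :=
  line_eq_iff (l := .pin q a) (by simp)
theorem line_int_iff {y : ℕ} {i} : line y = .int i ↔ 8 * plI i + 6 = y :=
  line_eq_iff (l := .int i) (by simp)

/-- a coordinate with residue 0, 1 or 7 mod 8 carries no line -/
theorem line_none_of_mod {y : ℕ} (h : y % 8 = 0 ∨ y % 8 = 1 ∨ y % 8 = 7) : line y = .none := by
  cases hl : line y with
  | none => rfl
  | endl => have := line_endl_iff.1 hl; omega
  | sel t => have := line_sel_iff.1 hl; omega
  | pout q a => have := line_pout_iff.1 hl; omega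
  | pin q a => have := line_pin_iff.1 hl; omega
  | int i => have := line_int_iff.1 hl; omega

theorem line_zero : line 0 = .none := line_none_of_mod (by norm_num)
theorem line_one : line 1 = .none := line_none_of_mod (by norm_num)
theorem line_last : line (NN - 1) = .none := line_none_of_mod (by have := nG_pos; unfold NN; omega)
theorem line_NN : line NN = .none := line_none_of_mod (by unfold NN; omega)

/-- lines are at coordinates between 2 and NN - 2 -/
theorem line_bounds {y : ℕ} (hy : y < NN) (h : line y ≠ .none) : 2 ≤ y ∧ y + 2 ≤ NN := by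
  have h0 : y % 8 ≠ 0 := fun h0 => h (line_none_of_mod (Or.inl h0))
  have h1 : y % 8 ≠ 1 := fun h0 => h (line_none_of_mod (Or.inr (Or.inl h0)))
  have h2 : y % 8 ≠ 7 := fun h0 => h (line_none_of_mod (Or.inr (Or.inr h0)))
  have := NN_eq'
  omega

theorem pin_succ {y : ℕ} {q a} : line (y + 1) = .pin q a ↔ line y = .pout q a := by
  rw [line_pin_iff, line_pout_iff]; omega

theorem posL_lt {l : Line} (h : l ≠ .none) (hs : ∀ t, l = .sel t → t < nG) : posL l + 2 ≤ NN := by
  have hN := NN_eq'
  cases l with
  | none => exact absurd rfl h
  | endl => simp only [posL]; have := nG_ge; have := CC_eq; omega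
  | sel t => have := hs t rfl; simp only [posL]; omega
  | pout q a => have := plP_lt q a; simp only [posL]; omega
  | pin q a => have := plP_lt q a; simp only [posL]; omega
  | int i => have := plI_lt i; simp only [posL]; omega

theorem NN_ge : 328 ≤ NN := by have := nG_pos; unfold NN; omega

theorem end_lt : 8 * (2 * ell) + 3 + 8 < NN := by
  have := nG_ge; have := CC_eq; have := NN_eq'; have := ell_ge; omega

/-- inner lines and colour lines lie beyond the chain zone -/
theorem plI_ge (i : II) : 2 * ell + 1 ≤ plI i := by unfold plI; omega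
theorem plP_val_ge (v : V) (a : Bool) : 2 * ell + 1 ≤ plP (.val v) a := by simp only [plP]; omega

end Pool.Agent.MPa03d92.C
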