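import Mathlib
import Pool.Agent.Work.MP_a03d92_mp.Basic

/-!
# MP_a03d92_mp : Part C, macro-tiles are valid
-/

set_option autoImplicit false
open scoped Classical

namespace Pool.Agent.MPa03d92.C

/-! ### roles -/

theorem r8_val (x : ℕ) : (r8 x).val = x % 8 := rfl

theorem tbl_kind (x y : ℕ) : tblOf (x / 8) (y / 8) (r8 x) (r8 y) = kind x y := by
  unfold tblOf
  rw [r8_val, r8_val, Nat.div_add_mod, Nat.div_add_mod]

theorem r8_eq_two {x : ℕ} : r8 x = 2 ↔ x % 8 = 2 := by
  rw [Fin.ext_iff, r8_val]; rfl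

/-- validity at a cell which is not the crossing of two selector lines -/
theorem valid_role_of_not {x y : ℕ} (h : ¬ (x % 8 = 2 ∧ y % 8 = 2)) (W E S N : V) :
    valid (role x y) W E S N ↔
      rel (kind x y).1 W E ∧ rel (kind x y).2.1 S N ∧ lrel (kind x y).2.2 W E S N := by
  have h' : ¬ (r8 x = 2 ∧ r8 y = 2) := by rwa [r8_eq_two, r8_eq_two]
  unfold role roleOf valid
  simp only [if_neg h', tbl_kind]

/-- the role of a member of a group, from the table of the group -/
theorem roleOf_tblOf (s t : ℕ) (a b : Fin 8) :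
    roleOf (tblOf s t) a b = role (8 * s + a.val) (8 * t + b.val) := by
  have ha : a.val < 8 := a.isLt
  have hb : b.val < 8 := b.isLt
  have h1 : (8 * s + a.val) / 8 = s := by omega
  have h2 : (8 * t + b.val) / 8 = t := by omega
  have h3 : r8 (8 * s + a.val) = a := by apply Fin.ext; rw [r8_val]; omega
  have h4 : r8 (8 * t + b.val) = b := by apply Fin.ext; rw [r8_val]; omega
  unfold role
  rw [h1, h2, h3, h4]

theorem roleOf_self (x y : ℕ) : roleOf (tblOf (x / 8) (y / 8)) (r8 x) (r8 y) = role x y := rfl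

/-- validity at the crossing of two selector lines -/
theorem valid_role_sel (s t : ℕ) (W E S N : V) :
    valid (role (8 * s + 2) (8 * t + 2)) W E S N ↔
      W = E ∧ S = N ∧ ∀ p q, W.m = some p → S.m = some q →
        p.2 = role (8 * s + q.1.val) (8 * t + p.1.val) ∧ q.2 = p.2 := by
  have h : r8 (8 * s + 2) = 2 ∧ r8 (8 * t + 2) = 2 := by
    rw [r8_eq_two, r8_eq_two]; omega
  have h1 : (8 * s + 2) / 8 = s := by omega
  have h2 : (8 * t + 2) / 8 = t := by omega
  have : role (8 * s + 2) (8 * t + 2) = (2, 2, Sum.inr (tblOf s t)) := by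
    unfold role roleOf
    rw [if_pos h, h1, h2, h.1, h.2]
  rw [this]
  unfold valid
  simp only [roleOf_tblOf]

/-! ### the chain bit -/

theorem chv_iff {t b x : ℕ} : chv t b x = true ↔ (x ≤ 8 * (2 * ell) + 3 ∧
    ∀ k, 3 ≤ k → k < ell → 8 * (2 * k) + 5 < x → b.testBit k = (8 * t).testBit k) := by
  unfold chv; exact dec_iff

theorem chv_two (t b : ℕ) : chv t b 2 = true := by
  rw [chv_iff]
  refine ⟨by omega, ?_⟩
  intro k h3 _ h; omega

theorem chv_of_gt {t b x : ℕ} (h : 8 * (2 * ell) + 3 < x) : chv t b x = false := by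
  unfold chv
  rw [dec_false_iff]
  intro h'; omega

theorem chv_succ_of_ne {t b x : ℕ} (h1 : x ≠ 8 * (2 * ell) + 3)
    (h2 : ∀ k, 3 ≤ k → k < ell → x ≠ 8 * (2 * k) + 5) : chv t b (x + 1) = chv t b x := by
  unfold chv
  apply dec_congr
  constructor
  · rintro ⟨h3, h4⟩
    exact ⟨by omega, fun k hk hk' hx => h4 k hk hk' (by omega)⟩
  · rintro ⟨h3, h4⟩
    refine ⟨by omega, fun k hk hk' hx => h4 k hk hk' ?_⟩
    have := h2 k hk hk'
    omega

theorem chv_succ_chain {t b k : ℕ} (hk : 3 ≤ k) (hk' : k < ell) :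
    chv t b (8 * (2 * k) + 5 + 1) =
      (chv t b (8 * (2 * k) + 5) && (b.testBit k == (8 * t).testBit k)) := by
  unfold chv
  rw [Bool.eq_iff_iff]
  simp only [dec_iff, Bool.and_eq_true, beq_iff_eq]
  constructor
  · rintro ⟨h3, h4⟩
    exact ⟨⟨by omega, fun k1 hk1 hk1' hx => h4 k1 hk1 hk1' (by omega)⟩, h4 k hk hk' (by omega)⟩
  · rintro ⟨⟨h3, h4⟩, h5⟩
    refine ⟨by omega, fun k1 hk1 hk1' hx => ?_⟩
    rcases lt_or_eq_of_le (show 8 * (2 * k1) + 5 ≤ 8 * (2 * k) + 5 by omega) with h6 | h6
    · exact h4 k1 hk1 hk1' h6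
    · have : k1 = k := by omega
      rw [this]; exact h5

theorem testBit_eight_mul (t k : ℕ) (hk : 3 ≤ k) : (8 * t).testBit k = t.testBit (k - 3) := by
  have : 8 * t = 2 ^ 3 * t := by norm_num
  rw [this, Nat.testBit_two_pow_mul]
  simp [hk]

theorem testBit_div_eight (b k : ℕ) (hk : 3 ≤ k) : b.testBit k = (b / 8).testBit (k - 3) := by
  have : b / 8 = b / 2 ^ 3 := by norm_num
  rw [this, Nat.testBit_div_two_pow]
  congr 1; omega

theorem lt_two_pow_of_group {t : ℕ} (h : t < nG) : t < 2 ^ (ell - 3) := h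

theorem div_eight_lt {b : ℕ} (hb : b < NN) : b / 8 < nG := by
  have := NN_eq'; omega

/-- two groups are equal iff their bits are -/
theorem group_eq_iff {t b : ℕ} (ht : t < nG) (hb : b < NN) :
    t = b / 8 ↔ ∀ k, 3 ≤ k → k < ell → b.testBit k = (8 * t).testBit k := by
  constructor
  · intro h k hk _
    rw [testBit_eight_mul _ _ hk, testBit_div_eight _ _ hk, h]
  · intro h
    apply Nat.eq_of_testBit_eq
    intro k
    by_cases hk : k < ell - 3
    · have := h (k + 3) (by omega) (by omega)
      rw [testBit_eight_mul _ _ (by omega), testBit_div_eight _ _ (by omega)] at this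
      rw [show k + 3 - 3 = k by omega] at this
      exact this.symm
    · have h1 : t < 2 ^ k := lt_of_lt_of_le ht (Nat.pow_le_pow_right (by norm_num) (by omega))
      have h2 : b / 8 < 2 ^ k :=
        lt_of_lt_of_le (div_eight_lt hb) (Nat.pow_le_pow_right (by norm_num) (by omega))
      rw [Nat.testBit_eq_false_of_lt h1, Nat.testBit_eq_false_of_lt h2]

theorem chv_end {t b : ℕ} (ht : t < nG) (hb : b < NN) :
    chv t b (8 * (2 * ell) + 3) = dec (t = b / 8) := by
  unfold chv
  apply dec_congr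
  rw [group_eq_iff ht hb]
  constructor
  · rintro ⟨_, h⟩ k hk hk'
    exact h k hk hk' (by omega)
  · intro h
    exact ⟨le_rfl, fun k hk hk' _ => h k hk hk'⟩

/-! ### transitions -/

/-- inner contents are of the right shape -/
def GoodInt (two chk : II → Bool) (ic : II → V) : Prop :=
  (∀ i, two i = true → ic i = bit2 (ic i).b1 (ic i).b2) ∧
  (∀ i, two i = false → ic i = bit (ic i).b1) ∧
  (∀ i, chk i = true → (ic i).b1 = false)

theorem rel_lv {a b : ℕ} {cin cout : V} {th : Role} {ic : II → V} {two chk : II → Bool}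
    (hg : GoodInt two chk ic) {x : ℕ} (hx1 : 1 ≤ x) (hxN : x < NN) (l : Line)
    (hch : ∀ t, l = .sel t → 2 ≤ x → x + 2 ≤ NN → chv t b (x + 1) = chv t b x) :
    rel (trOf two chk l x) (lv a b cin cout th ic x l) (lv a b cin cout th ic (x + 1) l) := by
  have hN := NN_ge
  cases l with
  | none => exact ⟨rfl, rfl⟩
  | endl => exact ⟨rfl, rfl⟩
  | sel t =>
    simp only [trOf]
    split_ifs with h1 h2
    · subst h1
      simp only [lv, rel]
      rw [if_neg (by omega), if_pos (by omega), chv_two]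
      exact ⟨rfl, rfl⟩
    · simp only [lv, rel]
      rw [if_neg (by omega)]
    · have := hch t rfl (by omega) (by omega)
      simp only [lv, rel]
      rw [if_pos (show 2 ≤ x ∧ x < NN by omega), if_pos (show 2 ≤ x + 1 ∧ x + 1 < NN by omega), this]
  | pout q s =>
    simp only [trOf]
    split_ifs with h1
    · subst h1
      simp [lv, rel, bit]
    · simp only [lv, rel]
      rw [if_neg (by omega), if_neg h1, if_neg (by omega), if_neg (by omega)]
  | pin q s =>
    simp only [trOf]
    split_ifs with h1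
    · simp only [lv, rel]
      rw [if_neg (by omega)]
    · simp only [lv, rel]
      rw [if_pos (by omega), if_pos (by omega)]
  | int i =>
    simp only [trOf]
    by_cases h1 : x = 1
    · rw [if_pos h1]
      subst h1
      cases htw : two i
      · simp only [lv, rel, Bool.false_eq_true, if_false]
        rw [if_neg (by omega), if_pos (by omega)]
        exact ⟨rfl, hg.2.1 i htw⟩
      · simp only [lv, rel, if_true]
        rw [if_neg (by omega), if_pos (by omega)]
        exact ⟨rfl, hg.1 i htw⟩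
    · rw [if_neg h1]
      by_cases h2 : x = NN - 1
      · rw [if_pos h2]
        cases hck : chk i
        · simp only [lv, rel, Bool.false_eq_true, if_false]
          rw [if_neg (by omega)]
        · simp only [lv, rel, if_true]
          rw [if_neg (by omega), if_pos (by omega)]
          exact ⟨rfl, hg.2.2 i hck⟩
      · rw [if_neg h2]
        simp only [lv, rel]
        rw [if_pos (by omega), if_pos (by omega)]

theorem goodInt_row (w : Bt → Bool) : GoodInt twoR (fun _ => false) (rowInt w) := by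
  refine ⟨?_, ?_, ?_⟩
  · intro i h; cases i with
    | lit β a => simp [twoR] at h
    | gate m k => rfl
  · intro i h; cases i with
    | lit β a => rfl
    | gate m k => simp [twoR] at h
  · intro i h; simp at h

theorem KK_pos : 0 < KK := by
  unfold KK
  exact Fintype.card_pos_iff.2 ⟨Sum.inr ⟨0, by unfold bb; norm_num⟩⟩

/-- the last gate of mask `m` is true iff the bits are the complement of `m` -/
theorem Apre_last (w m : Bt → Bool) :
    Apre (fun β => w β ^^ m β) KK = true ↔ w = fun β => !m β := by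
  unfold Apre
  rw [dec_iff]
  constructor
  · intro h
    funext β
    have := h (bs.symm β) (bs.symm β).isLt
    rw [Equiv.apply_symm_apply] at this
    cases hw : w β <;> cases hm : m β <;> simp_all
  · intro h k _
    rw [h]
    simp

theorem goodInt_col {w : Bt → Bool} (hw : good w) :
    GoodInt (fun _ => false) chkC (colInt w) := by
  refine ⟨?_, ?_, ?_⟩
  · intro i h; simp at h
  · intro i h; cases i <;> rfl
  · intro i h
    cases i with
    | lit β a => simp [chkC] at h
    | gate m k =>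
      simp only [chkC, dec_iff] at h
      simp only [colInt, bit]
      rw [h.1]
      by_contra hne
      rw [Bool.not_eq_false] at hne
      rw [Apre_last] at hne
      exact h.2 (hne ▸ hw)

theorem Tile.good_w (u : Tile) : good u.w := ⟨_, _, _, _, _, u.ok, rfl⟩

/-! ### ring cells -/

theorem rg_pin {f : PB → Bool} {x : ℕ} {q a} (h : line x = .pin q a) : rg f x = bit (f q ^^ a) := by
  unfold rg; rw [h]

theorem rg_blank {f : PB → Bool} {x : ℕ} (h : ∀ q a, line x ≠ .pin q a) : rg f x = blank := by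
  unfold rg
  cases hl : line x with
  | pin q a => exact absurd hl (h q a)
  | _ => rfl

theorem ring_aux (a b : ℕ) (cin cout : V) (th : Role) (ic : II → V) (y : ℕ) :
    (∀ q s, line y = .pout q s →
      lv a b cin cout th ic 1 (line y) = blank ∧ rg (enc a b cin) y = blank ∧
      lv a b cin cout th ic 0 (line y) = bit (enc a b cin q ^^ s) ∧
      rg (enc a b cin) (y + 1) = bit (enc a b cin q ^^ s)) ∧
    (∀ q s, line y = .pin q s →
      lv a b cin cout th ic 0 (line y) = blank ∧ rg (enc a b cin) (y + 1) = blank ∧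
      lv a b cin cout th ic 1 (line y) = bit (enc a b cin q ^^ s) ∧
      rg (enc a b cin) y = bit (enc a b cin q ^^ s)) ∧
    ((∀ q s, line y ≠ .pout q s) → (∀ q s, line y ≠ .pin q s) →
      lv a b cin cout th ic 0 (line y) = blank ∧ lv a b cin cout th ic 1 (line y) = blank ∧
      rg (enc a b cin) y = blank ∧ rg (enc a b cin) (y + 1) = blank) := by
  have hN := NN_ge
  refine ⟨?_, ?_, ?_⟩
  · intro q s h
    refine ⟨?_, ?_, ?_, ?_⟩
    · rw [h]; simp [lv]
    · exact rg_blank (fun q' a' h' => by rw [h] at h'; cases h')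
    · rw [h]; simp [lv]
    · exact rg_pin (pin_succ.2 h)
  · intro q s h
    refine ⟨?_, ?_, ?_, ?_⟩
    · rw [h]; simp [lv]
    · exact rg_blank (fun q' a' h' => by rw [pin_succ, h] at h'; cases h')
    · rw [h]; simp only [lv]; rw [if_pos (by omega)]
    · exact rg_pin h
  · intro h1 h2
    refine ⟨?_, ?_, ?_, ?_⟩
    · cases hl : line y with
      | pout q s => exact absurd hl (h1 q s)
      | pin q s => exact absurd hl (h2 q s)
      | _ => simp [lv]
    · cases hl : line y with
      | pout q s => exact absurd hl (h1 q s)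
      | pin q s => exact absurd hl (h2 q s)
      | _ => simp [lv]
    · exact rg_blank h2
    · exact rg_blank (fun q' a' h' => by rw [pin_succ] at h'; exact h1 _ _ h')

/-! ### hf and vf away from the other ring -/

theorem hf_pos (u : Tile) (x : ℕ) {y : ℕ} (hy : 1 ≤ y) :
    hf u x y = lv u.i u.j u.W u.E (role u.i u.j) (rowInt u.w) x (line y) := by
  unfold hf; rw [if_neg (by omega)]

theorem vf_pos (u : Tile) {x : ℕ} (y : ℕ) (hx : 1 ≤ x) :
    vf u x y = lv u.j u.i u.S u.N (role u.i u.j) (colInt u.w) y (line x) := by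
  unfold vf; rw [if_neg (by omega)]

theorem hf_zero (u : Tile) (x : ℕ) : hf u x 0 = rg (enc u.j u.i u.S) x := by
  unfold hf; rw [if_pos rfl]

theorem vf_zero (u : Tile) (y : ℕ) : vf u 0 y = rg (enc u.i u.j u.W) y := by
  unfold vf; rw [if_pos rfl]

theorem rg_zero (f : PB → Bool) : rg f 0 = blank := by unfold rg; rw [line_zero]
theorem rg_one (f : PB → Bool) : rg f 1 = blank := by unfold rg; rw [line_one]

theorem valid_ringR (u : Tile) {y : ℕ} :
    valid (role 0 y) (hf u 0 y) (hf u 1 y) (vf u 0 y) (vf u 0 (y + 1)) := by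
  rw [valid_role_of_not (by omega)]
  unfold kind
  rw [if_pos rfl, vf_zero, vf_zero]
  rcases Nat.eq_zero_or_pos y with h0 | h0
  · subst h0
    rw [line_zero, hf_zero, hf_zero, rg_zero, rg_one, rg_zero, rg_one]
    exact ⟨⟨rfl, rfl⟩, ⟨rfl, rfl⟩, trivial⟩
  · rw [hf_pos u 0 h0, hf_pos u 1 h0]
    obtain ⟨h1, h2, h3⟩ := ring_aux u.i u.j u.W u.E (role u.i u.j) (rowInt u.w) y
    cases hl : line y with
    | pout q s =>
      obtain ⟨e1, e2, e3, e4⟩ := h1 q s hl
      rw [← hl, e1, e2, e3, e4, hl]
      exact ⟨trivial, trivial, rfl, rfl, rfl, rfl⟩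
    | pin q s =>
      obtain ⟨e1, e2, e3, e4⟩ := h2 q s hl
      rw [← hl, e1, e2, e3, e4, hl]
      exact ⟨trivial, trivial, rfl, rfl, rfl⟩
    | _ =>
      obtain ⟨e1, e2, e3, e4⟩ := h3 (fun q s h => by rw [hl] at h; cases h)
        (fun q s h => by rw [hl] at h; cases h)
      rw [← hl, e1, e2, e3, e4, hl]
      exact ⟨⟨rfl, rfl⟩, ⟨rfl, rfl⟩, trivial⟩

theorem valid_ringC (u : Tile) {x : ℕ} (hx : 1 ≤ x) :
    valid (role x 0) (hf u x 0) (hf u (x + 1) 0) (vf u x 0) (vf u x 1) := by
  rw [valid_role_of_not (by omega)]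
  unfold kind
  rw [if_neg (by omega), if_pos rfl, hf_zero, hf_zero, vf_pos u 0 hx, vf_pos u 1 hx]
  obtain ⟨h1, h2, h3⟩ := ring_aux u.j u.i u.S u.N (role u.i u.j) (colInt u.w) x
  cases hl : line x with
  | pout q s =>
    obtain ⟨e1, e2, e3, e4⟩ := h1 q s hl
    rw [← hl, e1, e2, e3, e4, hl]
    exact ⟨trivial, trivial, rfl, rfl, rfl, rfl⟩
  | pin q s =>
    obtain ⟨e1, e2, e3, e4⟩ := h2 q s hl
    rw [← hl, e1, e2, e3, e4, hl]
    exact ⟨trivial, trivial, rfl, rfl, rfl⟩
  | _ =>
    obtain ⟨e1, e2, e3, e4⟩ := h3 (fun q s h => by rw [hl] at h; cases h)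
      (fun q s h => by rw [hl] at h; cases h)
    rw [← hl, e1, e2, e3, e4, hl]
    exact ⟨⟨rfl, rfl⟩, ⟨rfl, rfl⟩, trivial⟩

end Pool.Agent.MPa03d92.C
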