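import Mathlib
import Pool.Agent.Work.MP_a03d92_mp.Valid

/-!
# MP_a03d92_mp : Part C, macro-tiles are valid (inner cells)
-/

set_option autoImplicit false
open scoped Classical

namespace Pool.Agent.MPa03d92.C

/-! ### values on inner lines -/

section mid
variable {a b : ℕ} {cin cout : V} {th : Role} {ic : II → V} {x : ℕ}

theorem lv_sel_mid {t : ℕ} (h : 2 ≤ x) (h' : x < NN) : lv a b cin cout th ic x (.sel t) =
    ⟨if t = b / 8 then some (r8 b, th) else none, chv t b x, false, false⟩ := by
  simp only [lv]; rw [if_pos ⟨h, h'⟩]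

theorem lv_pout_mid {q s} (h : 2 ≤ x) : lv a b cin cout th ic x (.pout q s) =
    bit (enc ((a + 1) % NN) b cout q ^^ s) := by
  simp only [lv]; rw [if_neg (by omega), if_neg (by omega)]

theorem lv_pin_mid {q s} (h : 1 ≤ x) (h' : x < NN) : lv a b cin cout th ic x (.pin q s) =
    bit (enc a b cin q ^^ s) := by
  simp only [lv]; rw [if_pos ⟨h, h'⟩]

theorem lv_int_mid {i} (h : 2 ≤ x) (h' : x < NN) : lv a b cin cout th ic x (.int i) = ic i := by
  simp only [lv]; rw [if_pos ⟨h, h'⟩]

end mid

theorem chain_ne {x y t : ℕ} (hl : line y = .sel t)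
    (h : ¬ (linkOf (line y) (line x)).isR = true) (b : ℕ) : chv t b (x + 1) = chv t b x := by
  apply chv_succ_of_ne
  · intro hx
    have : line x = .endl := line_endl_iff.2 hx.symm
    rw [hl, this] at h
    exact h rfl
  · intro k hk hk' hx
    have : line x = .pin (.prim ⟨k, hk'⟩) false := line_pin_iff.2 (by simp [plP, hx])
    rw [hl, this] at h
    apply h
    simp only [linkOf, LT.isR]
    simp [dec_iff, hk]

theorem chain_ne' {x y t : ℕ} (hl : line x = .sel t)
    (h : ¬ (linkOf (line y) (line x)).isC = true) (b : ℕ) : chv t b (y + 1) = chv t b y := by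
  apply chv_succ_of_ne
  · intro hx
    have : line y = .endl := line_endl_iff.2 hx.symm
    rw [hl, this] at h
    exact h rfl
  · intro k hk hk' hx
    have : line y = .pin (.prim ⟨k, hk'⟩) false := line_pin_iff.2 (by simp [plP, hx])
    rw [hl, this] at h
    apply h
    simp only [linkOf, LT.isC]
    simp [dec_iff, hk]

theorem linkOf_none_left (c : Line) : linkOf .none c = .none := by
  unfold linkOf; split <;> first | rfl | simp_all
theorem linkOf_none_right (r : Line) : linkOf r .none = .none := by
  unfold linkOf; split <;> first | rfl | simp_all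

theorem isR_cases {r c : Line} (h : (linkOf r c).isR = true) : ∃ t, r = .sel t ∧ c ≠ .none := by
  unfold linkOf at h
  split at h <;> simp_all [LT.isR]

theorem isC_cases {r c : Line} (h : (linkOf r c).isC = true) : ∃ t, c = .sel t ∧ r ≠ .none := by
  unfold linkOf at h
  split at h <;> simp_all [LT.isC]

theorem rt_ok {a b : ℕ} {cin cout : V} {th : Role} {ic : II → V}
    (hg : GoodInt twoR (fun _ => false) ic) {x y : ℕ} (hx : 1 ≤ x) (hxN : x < NN) :
    rel (rtOf x y) (lv a b cin cout th ic x (line y)) (lv a b cin cout th ic (x + 1) (line y)) := by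
  unfold rtOf
  split_ifs with h
  · obtain ⟨t, ht, hc⟩ := isR_cases h
    have hb := line_bounds hxN hc
    rw [ht, lv_sel_mid (by omega) (by omega), lv_sel_mid (by omega) (by omega)]
    rfl
  · apply rel_lv hg hx hxN
    intro t ht _ _
    exact chain_ne ht h b

theorem ct_ok {a b : ℕ} {cin cout : V} {th : Role} {ic : II → V}
    (hg : GoodInt (fun _ => false) chkC ic) {x y : ℕ} (hy : 1 ≤ y) (hyN : y < NN) :
    rel (ctOf x y) (lv a b cin cout th ic y (line x)) (lv a b cin cout th ic (y + 1) (line x)) := by
  unfold ctOf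
  split_ifs with h
  · obtain ⟨t, ht, hc⟩ := isC_cases h
    have hb := line_bounds hyN hc
    rw [ht, lv_sel_mid (by omega) (by omega), lv_sel_mid (by omega) (by omega)]
    rfl
  · apply rel_lv hg hy hyN
    intro t ht _ _
    exact chain_ne' ht h b

theorem enc_prim (a b : ℕ) (v : V) (k : Fin ell) : enc a b v (.prim k) = a.testBit k := rfl
theorem enc_sec (a b : ℕ) (v : V) (k : Fin ell) : enc a b v (.sec k) = b.testBit k := rfl
theorem enc_val (a b : ℕ) (v v' : V) : enc a b v (.val v') = dec (v = v') := rfl

theorem mark_eq {t b : ℕ} {th : Role} {p : Fin 8 × Role}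
    (h : (if t = b / 8 then some (r8 b, th) else none) = some p) :
    8 * t + p.1.val = b ∧ p.2 = th := by
  split_ifs at h with h1
  · simp only [Option.some.injEq] at h
    rw [← h]
    simp only [r8_val]
    exact ⟨by omega, trivial⟩

theorem link_ok (u : Tile) {x y : ℕ} (hx : 1 ≤ x) (hxN : x < NN) (hy : 1 ≤ y) (hyN : y < NN) :
    lrel (linkOf (line y) (line x)) (hf u x y) (hf u (x + 1) y) (vf u x y) (vf u x (y + 1)) := by
  by_cases h1 : line y = .none
  · rw [h1, linkOf_none_left]; trivial
  by_cases h2 : line x = .none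
  · rw [h2, linkOf_none_right]; trivial
  have hbx := line_bounds hxN h2
  have hby := line_bounds hyN h1
  have hui := u.hi
  have huj := u.hj
  rw [hf_pos u x hy, hf_pos u (x + 1) hy, vf_pos u y hx, vf_pos u (y + 1) hx]
  generalize hr : line y = r at *
  generalize hc : line x = c at *
  unfold linkOf
  split
  · -- sel, endl
    rename_i t
    have ht : t < nG := by have := line_sel_iff.1 hr; have := NN_eq'; omega
    have hxe := line_endl_iff.1 hc
    rw [lv_sel_mid (by omega) (by omega), lv_sel_mid (by omega) (by omega)]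
    simp only [lrel]
    rw [← hxe, chv_end ht huj, chv_of_gt (by omega)]
    refine ⟨?_, by simp⟩
    rw [Bool.eq_iff_iff, dec_iff]
    split_ifs with h <;> simp [h]
  · -- sel, pin prim
    rename_i t k a
    have hxe := line_pin_iff.1 hc
    rw [lv_sel_mid (by omega) (by omega), lv_sel_mid (by omega) (by omega),
      lv_pin_mid (by omega) (by omega)]
    simp only [lrel, bit, enc_prim]
    refine ⟨?_, ?_⟩
    · intro p hp
      rw [(mark_eq hp).1]
    · intro hd
      rw [dec_iff] at hd
      obtain ⟨hk, ha⟩ := hd
      subst ha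
      rw [← hxe]
      simp only [plP, Bool.toNat_false, add_zero, Bool.xor_false, Fin.val_zero]
      exact chv_succ_chain hk k.isLt
  · -- sel, pout prim
    rename_i t k a
    rw [lv_sel_mid (by omega) (by omega), lv_sel_mid (by omega) (by omega),
      lv_pout_mid (by omega)]
    simp only [lrel, bit, enc_prim]
    refine ⟨?_, ?_⟩
    · intro p hp
      rw [(mark_eq hp).1]
    · intro hd; cases hd
  · -- sel, lit theta
    rename_i t k a
    rw [lv_sel_mid (by omega) (by omega), lv_int_mid (by omega) (by omega)]
    simp only [lrel, colInt, bit]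
    intro p hp
    rw [(mark_eq hp).2]
    rfl
  · -- endl, sel
    rename_i t
    have ht : t < nG := by have := line_sel_iff.1 hc; have := NN_eq'; omega
    have hye := line_endl_iff.1 hr
    rw [lv_sel_mid (by omega) (by omega), lv_sel_mid (by omega) (by omega)]
    simp only [lrel]
    rw [← hye, chv_end ht hui, chv_of_gt (by omega)]
    refine ⟨?_, by simp⟩
    rw [Bool.eq_iff_iff, dec_iff]
    split_ifs with h <;> simp [h]
  · -- pin prim, sel
    rename_i k a t
    have hye := line_pin_iff.1 hr
    rw [lv_pin_mid (by omega) (by omega), lv_sel_mid (by omega) (by omega),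
      lv_sel_mid (by omega) (by omega)]
    simp only [lrel, bit, enc_prim]
    refine ⟨?_, ?_⟩
    · intro p hp
      rw [(mark_eq hp).1]
    · intro hd
      rw [dec_iff] at hd
      obtain ⟨hk, ha⟩ := hd
      subst ha
      rw [← hye]
      simp only [plP, Bool.toNat_false, add_zero, Bool.xor_false, Fin.val_zero]
      exact chv_succ_chain hk k.isLt
  · -- pout prim, sel
    rename_i k a t
    rw [lv_pout_mid (by omega), lv_sel_mid (by omega) (by omega),
      lv_sel_mid (by omega) (by omega)]
    simp only [lrel, bit, enc_prim]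
    refine ⟨?_, ?_⟩
    · intro p hp
      rw [(mark_eq hp).1]
    · intro hd; cases hd
  · -- pin sec, pin prim
    rename_i k a k' a'
    rw [lv_pin_mid (by omega) (by omega), lv_pin_mid (by omega) (by omega),
      lv_pin_mid (by omega) (by omega)]
    simp only [lrel, bit, enc_prim, enc_sec]
    refine ⟨?_, by simp, by simp, by simp⟩
    intro hd
    rw [dec_iff] at hd
    rw [hd.1, hd.2]
  · rename_i k a k' a'
    rw [lv_pout_mid (by omega), lv_pin_mid (by omega) (by omega)]
    simp only [lrel, bit, enc_prim, enc_sec]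
    refine ⟨?_, by simp, by simp, by simp⟩
    intro hd
    rw [dec_iff] at hd
    rw [hd.1, hd.2]
  · rename_i k a k' a'
    rw [lv_pin_mid (by omega) (by omega), lv_pin_mid (by omega) (by omega),
      lv_pin_mid (by omega) (by omega)]
    simp only [lrel, bit, enc_prim, enc_sec]
    refine ⟨?_, by simp, by simp, by simp⟩
    intro hd
    rw [dec_iff] at hd
    rw [hd.1, hd.2]
  · rename_i k a k' a'
    rw [lv_pin_mid (by omega) (by omega), lv_pout_mid (by omega)]
    simp only [lrel, bit, enc_prim, enc_sec]
    refine ⟨?_, by simp, by simp, by simp⟩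
    intro hd
    rw [dec_iff] at hd
    rw [hd.1, hd.2]
  · -- pin val, lit
    rename_i v a β a'
    rw [lv_pin_mid (by omega) (by omega), lv_int_mid (by omega) (by omega)]
    simp only [lrel, bit, enc_val, colInt]
    refine ⟨?_, by simp, by simp, by simp⟩
    intro hd
    rw [dec_iff] at hd
    rw [hd.1, hd.2]
    rfl
  · rename_i v a β a'
    rw [lv_pout_mid (by omega), lv_int_mid (by omega) (by omega)]
    simp only [lrel, bit, enc_val, colInt]
    refine ⟨?_, by simp, by simp, by simp⟩
    intro hd
    rw [dec_iff] at hd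
    rw [hd.1, hd.2]
    rfl
  · rename_i β a' v a
    rw [lv_int_mid (by omega) (by omega), lv_pin_mid (by omega) (by omega)]
    simp only [lrel, bit, enc_val, rowInt]
    refine ⟨?_, by simp, by simp, by simp⟩
    intro hd
    rw [dec_iff] at hd
    rw [hd.1, hd.2]
    rfl
  · rename_i β a' v a
    rw [lv_int_mid (by omega) (by omega), lv_pout_mid (by omega)]
    simp only [lrel, bit, enc_val, rowInt]
    refine ⟨?_, by simp, by simp, by simp⟩
    intro hd
    rw [dec_iff] at hd
    rw [hd.1, hd.2]
    rfl
  · -- lit, lit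
    rename_i β a β' a'
    rw [lv_int_mid (by omega) (by omega), lv_int_mid (by omega) (by omega),
      lv_int_mid (by omega) (by omega)]
    simp only [lrel, bit, rowInt, colInt]
    refine ⟨?_, by simp, by simp, ?_⟩
    · intro hd
      rw [dec_iff] at hd
      rw [hd.1, hd.2]
    · intro hd
      rw [dec_iff] at hd
      rw [hd.1]
      have := hd.2
      cases a <;> cases a' <;> simp_all
  · -- gate, lit
    rename_i m k β a
    rw [lv_int_mid (by omega) (by omega), lv_int_mid (by omega) (by omega),
      lv_int_mid (by omega) (by omega)]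
    simp only [lrel, bit, bit2, rowInt, colInt]
    refine ⟨?_, ?_, by simp, by simp⟩
    · intro hd
      rw [dec_iff] at hd
      rw [if_pos hd.1, hd.2.2, hd.2.1]
    · intro hd
      rw [dec_iff] at hd
      rw [hd.2, hd.1]
  · -- gate, gate
    rename_i m k m' k'
    rw [lv_int_mid (by omega) (by omega), lv_int_mid (by omega) (by omega),
      lv_int_mid (by omega) (by omega)]
    simp only [lrel, bit, bit2, rowInt, colInt]
    refine ⟨?_, by simp, ?_, by simp⟩
    · intro hd
      rw [dec_iff] at hd
      rw [if_neg (by omega), hd.1, hd.2]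
    · intro hd
      rw [dec_iff] at hd
      rw [← hd.1, ← hd.2]
      rw [Bool.eq_iff_iff, Bool.and_eq_true]
      unfold Apre
      split_ifs with h0
      · rw [dec_iff, and_self]
        constructor
        · intro h; exact h k (by omega)
        · intro h k1 hk1
          have : k1 = k := Fin.ext (by omega)
          rw [this]; exact h
      · rw [dec_iff, dec_iff]
        constructor
        · intro h; exact ⟨fun k1 hk1 => h k1 (by omega), h k (by omega)⟩
        · rintro ⟨h, h'⟩ k1 hk1
          rcases lt_or_eq_of_le (Nat.lt_succ_iff.1 hk1) with h3 | h3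
          · exact h k1 h3
          · rw [Fin.ext h3]; exact h'
  · trivial

/-- every cell of a macro-tile is valid -/
theorem cell_valid (u : Tile) {x y : ℕ} (hxN : x < NN) (hyN : y < NN) :
    valid (role x y) (hf u x y) (hf u (x + 1) y) (vf u x y) (vf u x (y + 1)) := by
  rcases Nat.eq_zero_or_pos x with h0 | hx
  · subst h0; exact valid_ringR u
  rcases Nat.eq_zero_or_pos y with h0 | hy
  · subst h0; exact valid_ringC u hx
  by_cases h22 : x % 8 = 2 ∧ y % 8 = 2
  · obtain ⟨s, rfl⟩ : ∃ s, x = 8 * s + 2 := ⟨x / 8, by omega⟩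
    obtain ⟨t, rfl⟩ : ∃ t, y = 8 * t + 2 := ⟨y / 8, by omega⟩
    have hlx : line (8 * s + 2) = .sel s := line_sel_iff.2 rfl
    have hly : line (8 * t + 2) = .sel t := line_sel_iff.2 rfl
    have hN := NN_eq'
    rw [valid_role_sel, hf_pos u _ hy, hf_pos u _ hy, vf_pos u _ hx, vf_pos u _ hx, hlx, hly,
      lv_sel_mid (by omega) (by omega), lv_sel_mid (by omega) (by omega),
      lv_sel_mid (by omega) (by omega), lv_sel_mid (by omega) (by omega)]
    have h1 : ∀ b s' t' : ℕ, chv t' b (8 * s' + 2 + 1) = chv t' b (8 * s' + 2) :=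
      fun b s' t' => chv_succ_of_ne (by omega) (fun k _ _ => by omega)
    refine ⟨by rw [h1], by rw [h1], ?_⟩
    intro p q hp hq
    obtain ⟨hp1, hp2⟩ := mark_eq hp
    obtain ⟨hq1, hq2⟩ := mark_eq hq
    rw [hp1, hq1, hp2, hq2]
    exact ⟨rfl, rfl⟩
  · rw [valid_role_of_not h22]
    unfold kind
    rw [if_neg (by omega), if_neg (by omega)]
    refine ⟨?_, ?_, link_ok u hx hxN hy hyN⟩
    · rw [hf_pos u x hy, hf_pos u (x + 1) hy]
      exact rt_ok (goodInt_row _) hx hxN
    · rw [vf_pos u y hx, vf_pos u (y + 1) hx]
      exact ct_ok (goodInt_col u.good_w) hy hyN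

end Pool.Agent.MPa03d92.C
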