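import Mathlib
import Pool.Agent.Work.MP_a03d92_mp.Valid2

/-!
# MP_a03d92_mp : Part C, every valid block is a macro-tile
-/

set_option autoImplicit false
open scoped Classical

namespace Pool.Agent.MPa03d92.C

/-! ### values along one line -/

section oneline
variable {two chk : II → Bool} {g : ℕ → V}

theorem along_none {l : Line} (hl : l = .none ∨ l = .endl)
    (hg : ∀ x, 1 ≤ x → x < NN → rel (trOf two chk l x) (g x) (g (x + 1))) {x : ℕ} (h1 : 1 ≤ x)
    (hx : x ≤ NN) : g x = blank := by
  have hN := NN_ge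
  rcases lt_or_eq_of_le hx with h | h
  · have := hg x h1 h
    rcases hl with rfl | rfl <;> exact this.1
  · have := hg (NN - 1) (by omega) (by omega)
    rw [show NN - 1 + 1 = NN by omega, ← h] at this
    rcases hl with rfl | rfl <;> exact this.2

theorem along_pout {q : PB} {a : Bool}
    (hg : ∀ x, 1 ≤ x → x < NN → rel (trOf two chk (.pout q a) x) (g x) (g (x + 1))) :
    g 1 = blank ∧ ∀ x, 2 ≤ x → x ≤ NN → g x = bit (g 2).b1 := by
  have hN := NN_ge
  have h1 := hg 1 le_rfl (by omega)
  simp only [trOf, if_true] at h1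
  refine ⟨h1.1, ?_⟩
  intro x hx hx'
  induction x, hx using Nat.le_induction with
  | base => exact h1.2
  | succ x hx ih =>
    have h2 := hg x (by omega) (by omega)
    simp only [trOf, if_neg (show ¬ x = 1 by omega)] at h2
    rw [← h2]
    exact ih (by omega)

theorem along_pin {q : PB} {a : Bool}
    (hg : ∀ x, 1 ≤ x → x < NN → rel (trOf two chk (.pin q a) x) (g x) (g (x + 1))) :
    (∀ x, 1 ≤ x → x < NN → g x = g 1) ∧ g NN = blank := by
  have hN := NN_ge
  constructor
  · intro x hx hx'
    induction x, hx using Nat.le_induction with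
    | base => rfl
    | succ x hx ih =>
      have h2 := hg x (by omega) (by omega)
      simp only [trOf, if_neg (show ¬ x = NN - 1 by omega)] at h2
      rw [← h2]
      exact ih (by omega)
  · have := hg (NN - 1) (by omega) (by omega)
    rw [show NN - 1 + 1 = NN by omega] at this
    simp only [trOf, if_true] at this
    exact this

theorem along_int {i : II}
    (hg : ∀ x, 1 ≤ x → x < NN → rel (trOf two chk (.int i) x) (g x) (g (x + 1))) :
    g 1 = blank ∧ (∀ x, 2 ≤ x → x < NN → g x = g 2) ∧ g NN = blank ∧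
    (two i = true → g 2 = bit2 (g 2).b1 (g 2).b2) ∧ (two i = false → g 2 = bit (g 2).b1) ∧
    (chk i = true → (g 2).b1 = false) := by
  have hN := NN_ge
  have h1 := hg 1 le_rfl (by omega)
  simp only [trOf, if_true] at h1
  have hmid : ∀ x, 2 ≤ x → x < NN → g x = g 2 := by
    intro x hx hx'
    induction x, hx using Nat.le_induction with
    | base => rfl
    | succ x hx ih =>
      have h2 := hg x (by omega) (by omega)
      simp only [trOf, if_neg (show ¬ x = 1 by omega), if_neg (show ¬ x = NN - 1 by omega)] at h2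
      rw [← h2]
      exact ih (by omega)
  have hl := hg (NN - 1) (by omega) (by omega)
  rw [show NN - 1 + 1 = NN by omega] at hl
  simp only [trOf, if_neg (show ¬ NN - 1 = 1 by omega), if_true] at hl
  refine ⟨?_, hmid, ?_, ?_, ?_, ?_⟩
  · split_ifs at h1 <;> exact h1.1
  · split_ifs at hl
    · exact hl.1
    · exact hl
  · intro ht; rw [if_pos ht] at h1; exact h1.2
  · intro ht; rw [if_neg (by simp [ht])] at h1; exact h1.2
  · intro ht; rw [if_pos ht] at hl
    rw [← hmid (NN - 1) (by omega) (by omega)]; exact hl.2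

/-- what we know along a selector line -/
structure SelLine (t : ℕ) (g : ℕ → V) : Prop where
  one : g 1 = blank
  two : g 2 = ⟨(g 2).m, true, false, false⟩
  last : g NN = blank
  mid : ∀ x, 2 ≤ x → x + 2 ≤ NN → g (x + 1) = ⟨(g x).m, (g (x + 1)).ch, (g x).b1, (g x).b2⟩
  chn : ∀ x, 2 ≤ x → x + 2 ≤ NN → line x ≠ .endl →
    (∀ k : Fin ell, 3 ≤ k.val → line x ≠ .pin (.prim k) false) → (g (x + 1)).ch = (g x).ch

theorem SelLine.const {t : ℕ} (h : SelLine t g) {x : ℕ} (h2 : 2 ≤ x) (hx : x < NN) :
    g x = ⟨(g 2).m, (g x).ch, false, false⟩ := by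
  induction x, h2 using Nat.le_induction with
  | base => rw [h.two]
  | succ x hx2 ih =>
    have h3 := h.mid x hx2 (by omega)
    have h4 := ih (by omega)
    rw [h3]
    rw [h4]

/-- the chain bit along a selector line -/
theorem SelLine.chain {t b : ℕ} (h : SelLine t g)
    (hc : ∀ k : Fin ell, 3 ≤ k.val → (g (8 * (2 * k.val) + 5 + 1)).ch =
      ((g (8 * (2 * k.val) + 5)).ch && (b.testBit k.val == (8 * t).testBit k.val)))
    (he : (g (8 * (2 * ell) + 3 + 1)).ch = false) {x : ℕ} (h2 : 2 ≤ x) (hx : x < NN) :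
    (g x).ch = chv t b x := by
  induction x, h2 using Nat.le_induction with
  | base => rw [h.two, chv_two]
  | succ x hx2 ih =>
    have h4 := ih (by omega)
    by_cases h5 : line x = .endl
    · have h6 := line_endl_iff.1 h5
      rw [← h6, he, chv_of_gt (by omega)]
    · by_cases h7 : ∃ k : Fin ell, 3 ≤ k.val ∧ line x = .pin (.prim k) false
      · obtain ⟨k, hk, hl⟩ := h7
        have h6 := line_pin_iff.1 hl
        simp only [plP, Bool.toNat_false, add_zero] at h6
        rw [← h6, hc k hk, chv_succ_chain hk k.isLt, h6, h4]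
      · push Not at h7
        rw [h.chn x hx2 (by omega) h5 h7, h4]
        refine (chv_succ_of_ne ?_ ?_).symm
        · intro h8; exact h5 (line_endl_iff.2 h8.symm)
        · intro k hk hk' h8
          exact h7 ⟨k, hk'⟩ hk (line_pin_iff.2 (by simp [plP, h8]))

end oneline

theorem isR_cases' {r c : Line} (h : (linkOf r c).isR = true) :
    c = .endl ∨ ∃ k : Fin ell, 3 ≤ k.val ∧ c = .pin (.prim k) false := by
  unfold linkOf at h
  split at h <;> simp only [LT.isR, dec_iff, Bool.false_eq_true] at h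
  · exact Or.inl rfl
  · rename_i t k a
    right
    refine ⟨k, h.1, ?_⟩
    rw [h.2]

theorem isC_cases' {r c : Line} (h : (linkOf r c).isC = true) :
    r = .endl ∨ ∃ k : Fin ell, 3 ≤ k.val ∧ r = .pin (.prim k) false := by
  unfold linkOf at h
  split at h <;> simp only [LT.isC, dec_iff, Bool.false_eq_true] at h
  · exact Or.inl rfl
  · rename_i k a t
    right
    refine ⟨k, h.1, ?_⟩
    rw [h.2]

/-! ### the arrays -/

/-- the hypothesis of the force lemma: all cells of the block are valid -/
def AllValid (h v : ℕ → ℕ → V) : Prop :=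
  ∀ x y, x < NN → y < NN → valid (role x y) (h x y) (h (x + 1) y) (v x y) (v x (y + 1))

section arrays
variable {h v : ℕ → ℕ → V} (A : AllValid h v)
include A

theorem A_row {x y : ℕ} (hx : 1 ≤ x) (hxN : x < NN) (hy : 1 ≤ y) (hyN : y < NN)
    (hr : ¬ (x % 8 = 2 ∧ y % 8 = 2)) : rel (rtOf x y) (h x y) (h (x + 1) y) := by
  have := A x y hxN hyN
  rw [valid_role_of_not hr] at this
  unfold kind at this
  rw [if_neg (by omega), if_neg (by omega)] at this
  exact this.1

theorem A_col {x y : ℕ} (hx : 1 ≤ x) (hxN : x < NN) (hy : 1 ≤ y) (hyN : y < NN)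
    (hr : ¬ (x % 8 = 2 ∧ y % 8 = 2)) : rel (ctOf x y) (v x y) (v x (y + 1)) := by
  have := A x y hxN hyN
  rw [valid_role_of_not hr] at this
  unfold kind at this
  rw [if_neg (by omega), if_neg (by omega)] at this
  exact this.2.1

theorem A_link {x y : ℕ} (hx : 1 ≤ x) (hxN : x < NN) (hy : 1 ≤ y) (hyN : y < NN)
    (hr : ¬ (x % 8 = 2 ∧ y % 8 = 2)) :
    lrel (linkOf (line y) (line x)) (h x y) (h (x + 1) y) (v x y) (v x (y + 1)) := by
  have := A x y hxN hyN
  rw [valid_role_of_not hr] at this
  unfold kind at this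
  rw [if_neg (by omega), if_neg (by omega)] at this
  exact this.2.2

theorem A_rowtr {y : ℕ} (hy : 1 ≤ y) (hyN : y < NN) (hs : ∀ t, line y ≠ .sel t) :
    ∀ x, 1 ≤ x → x < NN → rel (trOf twoR (fun _ => false) (line y) x) (h x y) (h (x + 1) y) := by
  intro x hx hxN
  have h1 := A_row A hx hxN hy hyN (fun h2 => hs (y / 8) (line_sel_iff.2 (by omega)))
  unfold rtOf at h1
  rw [if_neg] at h1
  · exact h1
  · intro hR
    obtain ⟨t, ht, _⟩ := isR_cases hR
    exact hs t ht

theorem A_coltr {x : ℕ} (hx : 1 ≤ x) (hxN : x < NN) (hs : ∀ t, line x ≠ .sel t) :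
    ∀ y, 1 ≤ y → y < NN → rel (trOf (fun _ => false) chkC (line x) y) (v x y) (v x (y + 1)) := by
  intro y hy hyN
  have h1 := A_col A hx hxN hy hyN (fun h2 => hs (x / 8) (line_sel_iff.2 (by omega)))
  unfold ctOf at h1
  rw [if_neg] at h1
  · exact h1
  · intro hR
    obtain ⟨t, ht, _⟩ := isC_cases hR
    exact hs t ht

theorem A_selrow {t : ℕ} (ht : t < nG) : SelLine t (fun x => h x (8 * t + 2)) := by
  have hN := NN_ge
  have hN' := NN_eq'
  have hl : line (8 * t + 2) = .sel t := line_sel_iff.2 rfl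
  have hy : 1 ≤ 8 * t + 2 := by omega
  have hyN : 8 * t + 2 < NN := by omega
  have hedge : ∀ x, 1 ≤ x → x < NN → x % 8 ≠ 2 → line x = .none →
      rel (trOf twoR (fun _ => false) (.sel t) x) (h x (8 * t + 2)) (h (x + 1) (8 * t + 2)) := by
    intro x hx hxN hx8 hlx
    have h1 := A_row A hx hxN hy hyN (fun h2 => hx8 h2.1)
    unfold rtOf at h1
    rw [hl, hlx, if_neg (by rw [linkOf_none_right]; simp [LT.isR])] at h1
    exact h1
  have h1 := hedge 1 le_rfl (by omega) (by omega) line_one
  have h2 := hedge (NN - 1) (by omega) (by omega) (by omega) line_last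
  rw [show NN - 1 + 1 = NN by omega] at h2
  simp only [trOf, if_true, if_neg (show ¬ NN - 1 = 1 by omega)] at h1 h2
  refine ⟨h1.1, h1.2, h2, ?_, ?_⟩
  · intro x hx hx'
    by_cases hx8 : x % 8 = 2
    · obtain ⟨s, rfl⟩ : ∃ s, x = 8 * s + 2 := ⟨x / 8, by omega⟩
      have h3 := A (8 * s + 2) (8 * t + 2) (by omega) hyN
      rw [valid_role_sel] at h3
      show h (8 * s + 2 + 1) (8 * t + 2) = _
      rw [← h3.1]
    · have h3 := A_row A (by omega) (by omega) hy hyN (fun h2 => hx8 h2.1)
      unfold rtOf at h3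
      split_ifs at h3 with hR
      · exact h3
      · rw [hl] at h3
        simp only [trOf, if_neg (show ¬ x = 1 by omega), if_neg (show ¬ x = NN - 1 by omega)] at h3
        show h (x + 1) (8 * t + 2) = _
        rw [← h3]
  · intro x hx hx' hne hnp
    by_cases hx8 : x % 8 = 2
    · obtain ⟨s, rfl⟩ : ∃ s, x = 8 * s + 2 := ⟨x / 8, by omega⟩
      have h3 := A (8 * s + 2) (8 * t + 2) (by omega) hyN
      rw [valid_role_sel] at h3
      show (h (8 * s + 2 + 1) (8 * t + 2)).ch = _
      rw [← h3.1]
    · have h3 := A_row A (by omega) (by omega) hy hyN (fun h2 => hx8 h2.1)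
      unfold rtOf at h3
      rw [if_neg] at h3
      · rw [hl] at h3
        simp only [trOf, if_neg (show ¬ x = 1 by omega), if_neg (show ¬ x = NN - 1 by omega)] at h3
        show (h (x + 1) (8 * t + 2)).ch = _
        rw [← h3]
      · intro hR
        rcases isR_cases' hR with h4 | ⟨k, hk, h4⟩
        · exact hne h4
        · exact hnp k hk h4

theorem A_selcol {t : ℕ} (ht : t < nG) : SelLine t (fun y => v (8 * t + 2) y) := by
  have hN := NN_ge
  have hN' := NN_eq'
  have hl : line (8 * t + 2) = .sel t := line_sel_iff.2 rfl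
  have hy : 1 ≤ 8 * t + 2 := by omega
  have hyN : 8 * t + 2 < NN := by omega
  have hedge : ∀ x, 1 ≤ x → x < NN → x % 8 ≠ 2 → line x = .none →
      rel (trOf (fun _ => false) chkC (.sel t) x) (v (8 * t + 2) x) (v (8 * t + 2) (x + 1)) := by
    intro x hx hxN hx8 hlx
    have h1 := A_col A hy hyN hx hxN (fun h2 => hx8 h2.2)
    unfold ctOf at h1
    rw [hl, hlx, if_neg (by rw [linkOf_none_left]; simp [LT.isC])] at h1
    exact h1
  have h1 := hedge 1 le_rfl (by omega) (by omega) line_one
  have h2 := hedge (NN - 1) (by omega) (by omega) (by omega) line_last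
  rw [show NN - 1 + 1 = NN by omega] at h2
  simp only [trOf, if_true, if_neg (show ¬ NN - 1 = 1 by omega)] at h1 h2
  refine ⟨h1.1, h1.2, h2, ?_, ?_⟩
  · intro x hx hx'
    by_cases hx8 : x % 8 = 2
    · obtain ⟨s, rfl⟩ : ∃ s, x = 8 * s + 2 := ⟨x / 8, by omega⟩
      have h3 := A (8 * t + 2) (8 * s + 2) hyN (by omega)
      rw [valid_role_sel] at h3
      show v (8 * t + 2) (8 * s + 2 + 1) = _
      rw [← h3.2.1]
    · have h3 := A_col A hy hyN (by omega) (by omega) (fun h2 => hx8 h2.2)
      unfold ctOf at h3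
      split_ifs at h3 with hR
      · exact h3
      · rw [hl] at h3
        simp only [trOf, if_neg (show ¬ x = 1 by omega), if_neg (show ¬ x = NN - 1 by omega)] at h3
        show v (8 * t + 2) (x + 1) = _
        rw [← h3]
  · intro x hx hx' hne hnp
    by_cases hx8 : x % 8 = 2
    · obtain ⟨s, rfl⟩ : ∃ s, x = 8 * s + 2 := ⟨x / 8, by omega⟩
      have h3 := A (8 * t + 2) (8 * s + 2) hyN (by omega)
      rw [valid_role_sel] at h3
      show (v (8 * t + 2) (8 * s + 2 + 1)).ch = _
      rw [← h3.2.1]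
    · have h3 := A_col A hy hyN (by omega) (by omega) (fun h2 => hx8 h2.2)
      unfold ctOf at h3
      rw [if_neg] at h3
      · rw [hl] at h3
        simp only [trOf, if_neg (show ¬ x = 1 by omega), if_neg (show ¬ x = NN - 1 by omega)] at h3
        show (v (8 * t + 2) (x + 1)).ch = _
        rw [← h3]
      · intro hR
        rcases isC_cases' hR with h4 | ⟨k, hk, h4⟩
        · exact hne h4
        · exact hnp k hk h4

end arrays

end Pool.Agent.MPa03d92.C
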