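import Mathlib
import Pool.Agent.Work.MP_a03d92_mp.Force

/-!
# MP_a03d92_mp : Part C, every valid block is a macro-tile (selectors)
-/

set_option autoImplicit false
open scoped Classical

namespace Pool.Agent.MPa03d92.C

/-- testBit on a number below `NN` -/
theorem eq_of_bits {a b : ℕ} (ha : a < NN) (hb : b < NN)
    (h : ∀ k : Fin ell, a.testBit k.val = b.testBit k.val) : a = b := by
  rw [NN_eq] at ha hb
  apply Nat.eq_of_testBit_eq
  intro k
  by_cases hk : k < ell
  · exact h ⟨k, hk⟩
  · rw [Nat.testBit_eq_false_of_lt (lt_of_lt_of_le ha (Nat.pow_le_pow_right (by norm_num) (by omega))),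
      Nat.testBit_eq_false_of_lt (lt_of_lt_of_le hb (Nat.pow_le_pow_right (by norm_num) (by omega)))]

/-- the selector lines and the position bits determine a coordinate -/
theorem sel_abstract (G : ℕ → ℕ → V) (Cin Cout : Fin ell → Bool → V)
    (hsel : ∀ t, t < nG → SelLine t (G t))
    (hin : ∀ t, t < nG → ∀ (k : Fin ell) (a : Bool),
      (∀ p, (G t (8 * plP (.prim k) a + 5)).m = some p →
        (Cin k a).b1 = ((8 * t + p.1.val).testBit k.val ^^ a)) ∧
      (dec (3 ≤ k.val ∧ a = false) = true → (G t (8 * plP (.prim k) a + 5 + 1)).ch =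
        ((G t (8 * plP (.prim k) a + 5)).ch &&
          ((Cin k a).b1 == ((8 * t + (0 : Fin 8).val).testBit k.val ^^ a)))))
    (hout : ∀ t, t < nG → ∀ (k : Fin ell) (a : Bool),
      (∀ p, (G t (8 * plP (.prim k) a + 4)).m = some p →
        (Cout k a).b1 = (((8 * t + p.1.val + 1) % NN).testBit k.val ^^ a)))
    (hend : ∀ t, t < nG → (G t (8 * (2 * ell) + 3)).ch = (G t (8 * (2 * ell) + 3)).m.isSome ∧
      (G t (8 * (2 * ell) + 3 + 1)).ch = false) :
    ∃ b, b < NN ∧ ∃ e : Role,
      (∀ t, t < nG → ∀ x, 2 ≤ x → x < NN →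
        G t x = ⟨if t = b / 8 then some (r8 b, e) else none, chv t b x, false, false⟩) ∧
      (∀ k a, (Cin k a).b1 = (b.testBit k.val ^^ a)) ∧
      (∀ k a, (Cout k a).b1 = (((b + 1) % NN).testBit k.val ^^ a)) := by
  have hE := end_lt
  -- the number coded by the columns
  set b : ℕ := Nat.ofBits (fun k : Fin ell => (Cin k false).b1) with hb
  have hbN : b < NN := by rw [NN_eq]; exact Nat.ofBits_lt_two_pow _
  have hbit : ∀ k : Fin ell, b.testBit k.val = (Cin k false).b1 := by
    intro k; rw [hb, Nat.testBit_ofBits_lt _ _ k.isLt]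
  -- chain
  have hch : ∀ t, t < nG → ∀ x, 2 ≤ x → x < NN → (G t x).ch = chv t b x := by
    intro t ht x hx hx'
    refine (hsel t ht).chain ?_ (hend t ht).2 hx hx'
    intro k hk
    have h1 := (hin t ht k false).2 (dec_iff.2 ⟨hk, rfl⟩)
    simp only [plP, Bool.toNat_false, add_zero, Bool.xor_false, Fin.val_zero] at h1
    rw [h1, hbit]
  have hG : ∀ t, t < nG → ∀ x, 2 ≤ x → x < NN → G t x = ⟨(G t 2).m, (G t x).ch, false, false⟩ :=
    fun t ht x hx hx' => (hsel t ht).const hx hx'
  have hGm : ∀ t, t < nG → ∀ x, 2 ≤ x → x < NN → (G t x).m = (G t 2).m := by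
    intro t ht x hx hx'
    rw [hG t ht x hx hx']
  -- marks
  have hmark : ∀ t, t < nG → ((G t 2).m.isSome = true ↔ t = b / 8) := by
    intro t ht
    have h1 := (hend t ht).1
    rw [hch t ht _ (by omega) (by omega), chv_end ht hbN, hGm t ht _ (by omega) (by omega)] at h1
    rw [← h1, dec_iff]
  have ht0 : b / 8 < nG := div_eight_lt hbN
  obtain ⟨p, hp⟩ := Option.isSome_iff_exists.1 ((hmark _ ht0).2 rfl)
  have hposin : ∀ (k : Fin ell) (a : Bool), 8 * plP (.prim k) a + 5 < NN := by
    intro k a; have := plP_lt (.prim k) a; have := NN_eq'; omega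
  have h1 : ∀ (k : Fin ell) (a : Bool), (Cin k a).b1 = ((8 * (b / 8) + p.1.val).testBit k.val ^^ a) := by
    intro k a
    refine (hin _ ht0 k a).1 p ?_
    rw [hGm _ ht0 _ (by omega) (hposin k a), hp]
  have h2 : ∀ (k : Fin ell) (a : Bool),
      (Cout k a).b1 = (((8 * (b / 8) + p.1.val + 1) % NN).testBit k.val ^^ a) := by
    intro k a
    refine hout _ ht0 k a p ?_
    have := hposin k a
    rw [hGm _ ht0 _ (by omega) (by omega), hp]
  have hlt : 8 * (b / 8) + p.1.val < NN := by
    have := p.1.isLt; have := NN_eq'; omega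
  have hbe : b = 8 * (b / 8) + p.1.val := by
    apply eq_of_bits hbN hlt
    intro k
    rw [hbit, h1]
    simp
  refine ⟨b, hbN, p.2, ?_, ?_, ?_⟩
  · intro t ht x hx hx'
    rw [hG t ht x hx hx', hch t ht x hx hx']
    congr 1
    split_ifs with h
    · subst h
      rw [hp]
      congr 1
      refine Prod.ext ?_ rfl
      apply Fin.ext
      rw [r8_val]
      omega
    · have := (hmark t ht).not.2 h
      rw [Bool.not_eq_true, Option.isSome_eq_false_iff, Option.isNone_iff_eq_none] at this
      exact this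
  · intro k a; rw [h1, ← hbe]
  · intro k a; rw [h2, ← hbe]

section arrays
variable {h v : ℕ → ℕ → V} (A : AllValid h v)
include A

theorem A_linkL {r c : Line} (hr : r ≠ .none) (hc : c ≠ .none)
    (hr' : ∀ t, r = .sel t → t < nG) (hc' : ∀ t, c = .sel t → t < nG)
    (hns : ¬ ((∃ t, r = .sel t) ∧ ∃ t, c = .sel t)) :
    lrel (linkOf r c) (h (posL c) (posL r)) (h (posL c + 1) (posL r))
      (v (posL c) (posL r)) (v (posL c) (posL r + 1)) := by
  have hpr := posL_lt hr hr'
  have hpc := posL_lt hc hc'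
  have e1 := line_posL hr
  have e2 := line_posL hc
  have b1 := line_bounds (by omega) (e1.symm ▸ hr)
  have b2 := line_bounds (by omega) (e2.symm ▸ hc)
  have := A_link A (x := posL c) (y := posL r) (by omega) (by omega) (by omega) (by omega) ?_
  · rwa [e1, e2] at this
  · rintro ⟨h1, h2⟩
    apply hns
    constructor
    · exact ⟨posL r / 8, e1.symm.trans (line_sel_iff.2 (by omega))⟩
    · exact ⟨posL c / 8, e2.symm.trans (line_sel_iff.2 (by omega))⟩

/-- inner content of a row -/
theorem row_pout (q : PB) (a : Bool) :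
    h 1 (8 * plP q a + 4) = blank ∧
    ∀ x, 2 ≤ x → x ≤ NN → h x (8 * plP q a + 4) = bit (h 2 (8 * plP q a + 4)).b1 := by
  have hl : line (8 * plP q a + 4) = .pout q a := line_pout_iff.2 rfl
  have hp := plP_lt q a
  have hN := NN_eq'
  have := A_rowtr A (y := 8 * plP q a + 4) (by omega) (by omega) (by rw [hl]; intro t ht; cases ht)
  rw [hl] at this
  exact along_pout (g := fun x => h x (8 * plP q a + 4)) this

theorem row_pin (q : PB) (a : Bool) :
    (∀ x, 1 ≤ x → x < NN → h x (8 * plP q a + 5) = h 1 (8 * plP q a + 5)) ∧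
      h NN (8 * plP q a + 5) = blank := by
  have hl : line (8 * plP q a + 5) = .pin q a := line_pin_iff.2 rfl
  have hp := plP_lt q a
  have hN := NN_eq'
  have := A_rowtr A (y := 8 * plP q a + 5) (by omega) (by omega) (by rw [hl]; intro t ht; cases ht)
  rw [hl] at this
  exact along_pin (g := fun x => h x (8 * plP q a + 5)) this

theorem row_int (i : II) :
    h 1 (8 * plI i + 6) = blank ∧ (∀ x, 2 ≤ x → x < NN → h x (8 * plI i + 6) = h 2 (8 * plI i + 6)) ∧
    h NN (8 * plI i + 6) = blank ∧
    (twoR i = true → h 2 (8 * plI i + 6) = bit2 (h 2 (8 * plI i + 6)).b1 (h 2 (8 * plI i + 6)).b2) ∧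
    (twoR i = false → h 2 (8 * plI i + 6) = bit (h 2 (8 * plI i + 6)).b1) := by
  have hl : line (8 * plI i + 6) = .int i := line_int_iff.2 rfl
  have hp := plI_lt i
  have hN := NN_eq'
  have := A_rowtr A (y := 8 * plI i + 6) (by omega) (by omega) (by rw [hl]; intro t ht; cases ht)
  rw [hl] at this
  have h2 := along_int (g := fun x => h x (8 * plI i + 6)) this
  exact ⟨h2.1, h2.2.1, h2.2.2.1, h2.2.2.2.1, h2.2.2.2.2.1⟩

theorem row_none {y : ℕ} (hy : 1 ≤ y) (hyN : y < NN) (hl : line y = .none ∨ line y = .endl) {x : ℕ}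
    (h1 : 1 ≤ x) (hx : x ≤ NN) : h x y = blank := by
  have := A_rowtr A hy hyN (by rcases hl with hl | hl <;> rw [hl] <;> intro t ht <;> cases ht)
  exact along_none (g := fun x => h x y) hl this h1 hx

theorem col_pout (q : PB) (a : Bool) :
    v (8 * plP q a + 4) 1 = blank ∧
    ∀ y, 2 ≤ y → y ≤ NN → v (8 * plP q a + 4) y = bit (v (8 * plP q a + 4) 2).b1 := by
  have hl : line (8 * plP q a + 4) = .pout q a := line_pout_iff.2 rfl
  have hp := plP_lt q a
  have hN := NN_eq'
  have := A_coltr A (x := 8 * plP q a + 4) (by omega) (by omega) (by rw [hl]; intro t ht; cases ht)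
  rw [hl] at this
  exact along_pout (g := fun y => v (8 * plP q a + 4) y) this

theorem col_pin (q : PB) (a : Bool) :
    (∀ y, 1 ≤ y → y < NN → v (8 * plP q a + 5) y = v (8 * plP q a + 5) 1) ∧
      v (8 * plP q a + 5) NN = blank := by
  have hl : line (8 * plP q a + 5) = .pin q a := line_pin_iff.2 rfl
  have hp := plP_lt q a
  have hN := NN_eq'
  have := A_coltr A (x := 8 * plP q a + 5) (by omega) (by omega) (by rw [hl]; intro t ht; cases ht)
  rw [hl] at this
  exact along_pin (g := fun y => v (8 * plP q a + 5) y) this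

theorem col_int (i : II) :
    v (8 * plI i + 6) 1 = blank ∧ (∀ y, 2 ≤ y → y < NN → v (8 * plI i + 6) y = v (8 * plI i + 6) 2) ∧
    v (8 * plI i + 6) NN = blank ∧ v (8 * plI i + 6) 2 = bit (v (8 * plI i + 6) 2).b1 ∧
    (chkC i = true → (v (8 * plI i + 6) 2).b1 = false) := by
  have hl : line (8 * plI i + 6) = .int i := line_int_iff.2 rfl
  have hp := plI_lt i
  have hN := NN_eq'
  have := A_coltr A (x := 8 * plI i + 6) (by omega) (by omega) (by rw [hl]; intro t ht; cases ht)
  rw [hl] at this
  have h2 := along_int (g := fun y => v (8 * plI i + 6) y) this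
  exact ⟨h2.1, h2.2.1, h2.2.2.1, h2.2.2.2.2.1 rfl, h2.2.2.2.2.2⟩

theorem col_none {x : ℕ} (hx : 1 ≤ x) (hxN : x < NN) (hl : line x = .none ∨ line x = .endl) {y : ℕ}
    (h1 : 1 ≤ y) (hy : y ≤ NN) : v x y = blank := by
  have := A_coltr A hx hxN (by rcases hl with hl | hl <;> rw [hl] <;> intro t ht <;> cases ht)
  exact along_none (g := fun y => v x y) hl this h1 hy

/-- the second coordinate, from the selector rows and the position columns -/
theorem exists_j : ∃ b, b < NN ∧ ∃ e : Role,
      (∀ t, t < nG → ∀ x, 2 ≤ x → x < NN →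
        h x (8 * t + 2) = ⟨if t = b / 8 then some (r8 b, e) else none, chv t b x, false, false⟩) ∧
      (∀ (k : Fin ell) (a : Bool), (v (8 * plP (.prim k) a + 5) 2).b1 = (b.testBit k.val ^^ a)) ∧
      (∀ (k : Fin ell) (a : Bool),
        (v (8 * plP (.prim k) a + 4) 2).b1 = (((b + 1) % NN).testBit k.val ^^ a)) := by
  have hN := NN_eq'
  refine sel_abstract (fun t x => h x (8 * t + 2)) (fun k a => v (8 * plP (.prim k) a + 5) 2)
    (fun k a => v (8 * plP (.prim k) a + 4) 2) (fun t ht => A_selrow A ht) ?_ ?_ ?_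
  · intro t ht k a
    have h1 := A_linkL A (r := .sel t) (c := .pin (.prim k) a) (by simp) (by simp)
      (by rintro t' h'; cases h'; exact ht) (by rintro t' h'; cases h')
      (by rintro ⟨_, ⟨t', h'⟩⟩; cases h')
    simp only [linkOf, lrel, posL] at h1
    have h2 := (col_pin A (.prim k) a).1
    have hp := plP_lt (.prim k) a
    rw [h2 (8 * t + 2) (by omega) (by omega), ← h2 2 (by omega) (by omega)] at h1
    exact h1
  · intro t ht k a
    have h1 := A_linkL A (r := .sel t) (c := .pout (.prim k) a) (by simp) (by simp)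
      (by rintro t' h'; cases h'; exact ht) (by rintro t' h'; cases h')
      (by rintro ⟨_, ⟨t', h'⟩⟩; cases h')
    simp only [linkOf, lrel, posL] at h1
    have h2 := (col_pout A (.prim k) a).2
    have hp := plP_lt (.prim k) a
    rw [h2 (8 * t + 2) (by omega) (by omega)] at h1
    exact h1.1
  · intro t ht
    have h1 := A_linkL A (r := .sel t) (c := .endl) (by simp) (by simp)
      (by rintro t' h'; cases h'; exact ht) (by rintro t' h'; cases h')
      (by rintro ⟨_, ⟨t', h'⟩⟩; cases h')
    simp only [linkOf, lrel, posL] at h1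
    exact h1

theorem exists_i : ∃ b, b < NN ∧ ∃ e : Role,
      (∀ t, t < nG → ∀ y, 2 ≤ y → y < NN →
        v (8 * t + 2) y = ⟨if t = b / 8 then some (r8 b, e) else none, chv t b y, false, false⟩) ∧
      (∀ (k : Fin ell) (a : Bool), (h 2 (8 * plP (.prim k) a + 5)).b1 = (b.testBit k.val ^^ a)) ∧
      (∀ (k : Fin ell) (a : Bool),
        (h 2 (8 * plP (.prim k) a + 4)).b1 = (((b + 1) % NN).testBit k.val ^^ a)) := by
  have hN := NN_eq'
  refine sel_abstract (fun t y => v (8 * t + 2) y) (fun k a => h 2 (8 * plP (.prim k) a + 5))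
    (fun k a => h 2 (8 * plP (.prim k) a + 4)) (fun t ht => A_selcol A ht) ?_ ?_ ?_
  · intro t ht k a
    have h1 := A_linkL A (c := .sel t) (r := .pin (.prim k) a) (by simp) (by simp)
      (by rintro t' h'; cases h') (by rintro t' h'; cases h'; exact ht)
      (by rintro ⟨⟨t', h'⟩, _⟩; cases h')
    simp only [linkOf, lrel, posL] at h1
    have h2 := (row_pin A (.prim k) a).1
    have hp := plP_lt (.prim k) a
    rw [h2 (8 * t + 2) (by omega) (by omega), ← h2 2 (by omega) (by omega)] at h1
    exact h1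
  · intro t ht k a
    have h1 := A_linkL A (c := .sel t) (r := .pout (.prim k) a) (by simp) (by simp)
      (by rintro t' h'; cases h') (by rintro t' h'; cases h'; exact ht)
      (by rintro ⟨⟨t', h'⟩, _⟩; cases h')
    simp only [linkOf, lrel, posL] at h1
    have h2 := (row_pout A (.prim k) a).2
    have hp := plP_lt (.prim k) a
    rw [h2 (8 * t + 2) (by omega) (by omega)] at h1
    exact h1.1
  · intro t ht
    have h1 := A_linkL A (c := .sel t) (r := .endl) (by simp) (by simp)
      (by rintro t' h'; cases h') (by rintro t' h'; cases h'; exact ht)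
      (by rintro ⟨⟨t', h'⟩, _⟩; cases h')
    simp only [linkOf, lrel, posL] at h1
    exact h1

end arrays

end Pool.Agent.MPa03d92.C
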