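import Mathlib
import Pool.Agent.Work.MP_a03d92_mp.Force2

/-!
# MP_a03d92_mp : Part C, every valid block is a macro-tile (end)
-/

set_option autoImplicit false
open scoped Classical

namespace Pool.Agent.MPa03d92.C

theorem Apre_succ (x : Bt → Bool) (k : Fin KK) :
    Apre x (k.val + 1) = (Apre x k.val && x (bs k)) := by
  rw [Bool.eq_iff_iff, Bool.and_eq_true]
  unfold Apre
  rw [dec_iff, dec_iff]
  constructor
  · intro h; exact ⟨fun k1 hk1 => h k1 (by omega), h k (by omega)⟩
  · rintro ⟨h, h'⟩ k1 hk1
    rcases lt_or_eq_of_le (Nat.lt_succ_iff.1 hk1) with h3 | h3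
    · exact h k1 h3
    · rw [Fin.ext h3]; exact h'

theorem Apre_zero (x : Bt → Bool) : Apre x 0 = true := by
  unfold Apre; rw [dec_iff]; intro k hk; omega

section arrays
variable {h v : ℕ → ℕ → V} (A : AllValid h v)
include A

theorem ringR_pout (q : PB) (a : Bool) :
    h 1 (8 * plP q a + 4) = blank ∧ v 0 (8 * plP q a + 4) = blank ∧
    h 0 (8 * plP q a + 4) = bit (h 0 (8 * plP q a + 4)).b1 ∧
    v 0 (8 * plP q a + 4 + 1) = h 0 (8 * plP q a + 4) := by
  have hp := plP_lt q a
  have hN := NN_eq'
  have hl : line (8 * plP q a + 4) = .pout q a := line_pout_iff.2 rfl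
  have h1 := A 0 (8 * plP q a + 4) (by omega) (by omega)
  rw [valid_role_of_not (by omega)] at h1
  unfold kind at h1
  rw [if_pos rfl, hl] at h1
  exact h1.2.2

theorem ringR_pin (q : PB) (a : Bool) :
    h 0 (8 * plP q a + 5) = blank ∧ v 0 (8 * plP q a + 5 + 1) = blank ∧
    h 1 (8 * plP q a + 5) = v 0 (8 * plP q a + 5) := by
  have hp := plP_lt q a
  have hN := NN_eq'
  have hl : line (8 * plP q a + 5) = .pin q a := line_pin_iff.2 rfl
  have h1 := A 0 (8 * plP q a + 5) (by omega) (by omega)
  rw [valid_role_of_not (by omega)] at h1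
  unfold kind at h1
  rw [if_pos rfl, hl] at h1
  exact h1.2.2

theorem ringR_other {y : ℕ} (hy : y < NN) (h1 : ∀ q a, line y ≠ .pout q a)
    (h2 : ∀ q a, line y ≠ .pin q a) :
    h 0 y = blank ∧ h 1 y = blank ∧ v 0 y = blank ∧ v 0 (y + 1) = blank := by
  have hN := NN_ge
  have h3 := A 0 y (by omega) hy
  rw [valid_role_of_not (by omega)] at h3
  unfold kind at h3
  rw [if_pos rfl] at h3
  cases hl : line y with
  | pout q a => exact absurd hl (h1 q a)
  | pin q a => exact absurd hl (h2 q a)
  | _ => rw [hl] at h3; exact ⟨h3.1.1, h3.1.2, h3.2.1.1, h3.2.1.2⟩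

theorem ringC_pout (q : PB) (a : Bool) :
    v (8 * plP q a + 4) 1 = blank ∧ h (8 * plP q a + 4) 0 = blank ∧
    v (8 * plP q a + 4) 0 = bit (v (8 * plP q a + 4) 0).b1 ∧
    h (8 * plP q a + 4 + 1) 0 = v (8 * plP q a + 4) 0 := by
  have hp := plP_lt q a
  have hN := NN_eq'
  have hl : line (8 * plP q a + 4) = .pout q a := line_pout_iff.2 rfl
  have h1 := A (8 * plP q a + 4) 0 (by omega) (by omega)
  rw [valid_role_of_not (by omega)] at h1
  unfold kind at h1
  rw [if_neg (by omega), if_pos rfl, hl] at h1
  have h2 := h1.2.2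
  exact ⟨h2.2.1, h2.1, h2.2.2.1, h2.2.2.2⟩

theorem ringC_pin (q : PB) (a : Bool) :
    v (8 * plP q a + 5) 0 = blank ∧ h (8 * plP q a + 5 + 1) 0 = blank ∧
    v (8 * plP q a + 5) 1 = h (8 * plP q a + 5) 0 := by
  have hp := plP_lt q a
  have hN := NN_eq'
  have hl : line (8 * plP q a + 5) = .pin q a := line_pin_iff.2 rfl
  have h1 := A (8 * plP q a + 5) 0 (by omega) (by omega)
  rw [valid_role_of_not (by omega)] at h1
  unfold kind at h1
  rw [if_neg (by omega), if_pos rfl, hl] at h1
  exact h1.2.2

theorem ringC_other {x : ℕ} (hx : 1 ≤ x) (hxN : x < NN) (h1 : ∀ q a, line x ≠ .pout q a)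
    (h2 : ∀ q a, line x ≠ .pin q a) :
    v x 0 = blank ∧ v x 1 = blank ∧ h x 0 = blank ∧ h (x + 1) 0 = blank := by
  have hN := NN_ge
  have h3 := A x 0 hxN (by omega)
  rw [valid_role_of_not (by omega)] at h3
  unfold kind at h3
  rw [if_neg (by omega), if_pos rfl] at h3
  cases hl : line x with
  | pout q a => exact absurd hl (h1 q a)
  | pin q a => exact absurd hl (h2 q a)
  | _ => rw [hl] at h3; exact ⟨h3.2.1.1, h3.2.1.2, h3.1.1, h3.1.2⟩

/-- content lines -/
def Line.cont : Line → Prop
  | .pout _ _ => True
  | .pin _ _ => True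
  | .int _ => True
  | _ => False

theorem rowI {l : Line} (hl : l.cont) {x : ℕ} (h2 : 2 ≤ x) (hx : x < NN) :
    h x (posL l) = h 2 (posL l) := by
  cases l with
  | pout q a => simp only [posL]; rw [(row_pout A q a).2 x h2 (by omega),
      (row_pout A q a).2 2 (by omega) (by omega)]; rfl
  | pin q a => simp only [posL]; rw [(row_pin A q a).1 x (by omega) (by omega),
      (row_pin A q a).1 2 (by omega) (by omega)]
  | int i => simp only [posL]; exact (row_int A i).2.1 x h2 hx
  | none => exact absurd hl (by simp [Line.cont])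
  | endl => exact absurd hl (by simp [Line.cont])
  | sel t => exact absurd hl (by simp [Line.cont])

theorem colI {l : Line} (hl : l.cont) {y : ℕ} (h2 : 2 ≤ y) (hy : y < NN) :
    v (posL l) y = v (posL l) 2 := by
  cases l with
  | pout q a => simp only [posL]; rw [(col_pout A q a).2 y h2 (by omega),
      (col_pout A q a).2 2 (by omega) (by omega)]; rfl
  | pin q a => simp only [posL]; rw [(col_pin A q a).1 y (by omega) (by omega),
      (col_pin A q a).1 2 (by omega) (by omega)]
  | int i => simp only [posL]; exact (col_int A i).2.1 y h2 hy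
  | none => exact absurd hl (by simp [Line.cont])
  | endl => exact absurd hl (by simp [Line.cont])
  | sel t => exact absurd hl (by simp [Line.cont])

theorem linkI {r c : Line} (hr : r.cont) (hc : c.cont) :
    lrel (linkOf r c) (h 2 (posL r)) (h 2 (posL r)) (v (posL c) 2) (v (posL c) 2) := by
  have hr1 : r ≠ .none := by rintro rfl; exact hr
  have hc1 : c ≠ .none := by rintro rfl; exact hc
  have hr2 : ∀ t, r = .sel t → t < nG := by rintro t rfl; exact absurd hr (by simp [Line.cont])
  have hc2 : ∀ t, c = .sel t → t < nG := by rintro t rfl; exact absurd hc (by simp [Line.cont])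
  have h1 := A_linkL A hr1 hc1 hr2 hc2 (by
    rintro ⟨⟨t, rfl⟩, _⟩; exact absurd hr (by simp [Line.cont]))
  have hpr := posL_lt hr1 hr2
  have hpc := posL_lt hc1 hc2
  have e1 := line_posL hr1
  have e2 := line_posL hc1
  have b1 := line_bounds (by omega) (e1.symm ▸ hr1)
  have b2 := line_bounds (by omega) (e2.symm ▸ hc1)
  rw [rowI A hr (x := posL c) (by omega) (by omega), rowI A hr (x := posL c + 1) (by omega) (by omega),
    colI A hc (y := posL r) (by omega) (by omega),
    colI A hc (y := posL r + 1) (by omega) (by omega)] at h1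
  exact h1

theorem row_pin_bit (q : PB) (a : Bool) :
    h 2 (8 * plP q a + 5) = bit (h 2 (8 * plP q a + 5)).b1 ∧
      h 0 (8 * plP q a + 4) = h 2 (8 * plP q a + 5) := by
  have hN := NN_ge
  have h1 := ringR_pout A q a
  have h2 := ringR_pin A q a
  have h3 := (row_pin A q a).1 2 (by omega) (by omega)
  have h4 : h 2 (8 * plP q a + 5) = h 0 (8 * plP q a + 4) := by
    rw [h3, h2.2.2, ← h1.2.2.2]
  rw [h4]
  exact ⟨h1.2.2.1, rfl⟩

theorem col_pin_bit (q : PB) (a : Bool) :
    v (8 * plP q a + 5) 2 = bit (v (8 * plP q a + 5) 2).b1 ∧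
      v (8 * plP q a + 4) 0 = v (8 * plP q a + 5) 2 := by
  have hN := NN_ge
  have h1 := ringC_pout A q a
  have h2 := ringC_pin A q a
  have h3 := (col_pin A q a).1 2 (by omega) (by omega)
  have h4 : v (8 * plP q a + 5) 2 = v (8 * plP q a + 4) 0 := by
    rw [h3, h2.2.2, ← h1.2.2.2]
  rw [h4]
  exact ⟨h1.2.2.1, rfl⟩

/-- literals in rows and columns -/
theorem lits : ∃ w : Bt → Bool, ∀ β a,
    (h 2 (8 * plI (.lit β a) + 6)).b1 = (w β ^^ a) ∧ (v (8 * plI (.lit β a) + 6) 2).b1 = (w β ^^ a) := by
  have heq : ∀ β a, (h 2 (8 * plI (.lit β a) + 6)).b1 = (v (8 * plI (.lit β a) + 6) 2).b1 := by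
    intro β a
    have h1 := linkI A (r := .int (.lit β a)) (c := .int (.lit β a)) trivial trivial
    simp only [linkOf, lrel, posL] at h1
    exact h1.1 (dec_iff.2 ⟨trivial, trivial⟩)
  have hneq : ∀ β a a', a ≠ a' →
      (v (8 * plI (.lit β a') + 6) 2).b1 = !(h 2 (8 * plI (.lit β a) + 6)).b1 := by
    intro β a a' haa
    have h1 := linkI A (r := .int (.lit β a)) (c := .int (.lit β a')) trivial trivial
    simp only [linkOf, lrel, posL] at h1
    exact h1.2.2.2 (dec_iff.2 ⟨trivial, haa⟩)
  refine ⟨fun β => (v (8 * plI (.lit β false) + 6) 2).b1, ?_⟩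
  intro β a
  cases a
  · rw [heq]; simp
  · have h1 := hneq β false true (by simp)
    rw [heq β false] at h1
    rw [heq, h1]; simp

/-- gates -/
theorem gates {w : Bt → Bool}
    (hw : ∀ β a, (v (8 * plI (.lit β a) + 6) 2).b1 = (w β ^^ a)) (k : ℕ) (hk : k < KK)
    (m : Bt → Bool) :
    h 2 (8 * plI (.gate m ⟨k, hk⟩) + 6) = rowInt w (.gate m ⟨k, hk⟩) ∧
    v (8 * plI (.gate m ⟨k, hk⟩) + 6) 2 = colInt w (.gate m ⟨k, hk⟩) := by
  have hshR : ∀ k : Fin KK, h 2 (8 * plI (.gate m k) + 6) =
      bit2 (h 2 (8 * plI (.gate m k) + 6)).b1 (h 2 (8 * plI (.gate m k) + 6)).b2 :=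
    fun k => (row_int A (.gate m k)).2.2.2.1 rfl
  have hshC : ∀ k : Fin KK, v (8 * plI (.gate m k) + 6) 2 =
      bit (v (8 * plI (.gate m k) + 6) 2).b1 := fun k => (col_int A (.gate m k)).2.2.2.1
  have hb2 : ∀ k : Fin KK, (h 2 (8 * plI (.gate m k) + 6)).b2 = (w (bs k) ^^ m (bs k)) := by
    intro k
    have h1 := linkI A (r := .int (.gate m k)) (c := .int (.lit (bs k) (m (bs k)))) trivial trivial
    simp only [linkOf, lrel, posL] at h1
    rw [h1.2.1 (dec_iff.2 ⟨trivial, trivial⟩), hw]
  have hand : ∀ k : Fin KK, (v (8 * plI (.gate m k) + 6) 2).b1 =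
      ((h 2 (8 * plI (.gate m k) + 6)).b1 && (h 2 (8 * plI (.gate m k) + 6)).b2) := by
    intro k
    have h1 := linkI A (r := .int (.gate m k)) (c := .int (.gate m k)) trivial trivial
    simp only [linkOf, lrel, posL] at h1
    exact h1.2.2.1 (dec_iff.2 ⟨trivial, trivial⟩)
  induction k with
  | zero =>
    have h1 := linkI A (r := .int (.gate m ⟨0, hk⟩))
      (c := .int (.lit (bs ⟨0, hk⟩) (m (bs ⟨0, hk⟩)))) trivial trivial
    simp only [linkOf, lrel, posL] at h1
    have h2 := h1.1 (dec_iff.2 ⟨trivial, trivial, trivial⟩)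
    rw [hw] at h2
    constructor
    · rw [hshR, h2, hb2]; simp [rowInt]
    · rw [hshC, hand, h2, hb2]
      simp only [colInt]
      rw [show Apre (fun β => w β ^^ m β) (0 + 1) = _ from Apre_succ (fun β => w β ^^ m β) ⟨0, hk⟩]
      simp [Apre_zero]
  | succ k ih =>
    have hk' : k < KK := by omega
    have ih' := ih hk'
    have h1 := linkI A (r := .int (.gate m ⟨k + 1, hk⟩)) (c := .int (.gate m ⟨k, hk'⟩)) trivial trivial
    simp only [linkOf, lrel, posL] at h1
    have h2 := h1.1 (dec_iff.2 ⟨trivial, trivial⟩)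
    rw [ih'.2] at h2
    simp only [colInt, bit] at h2
    constructor
    · rw [hshR, h2, hb2]; simp [rowInt]
    · rw [hshC, hand, h2, hb2]
      simp only [colInt]
      rw [show Apre (fun β => w β ^^ m β) (k + 1 + 1) = _ from
        Apre_succ (fun β => w β ^^ m β) ⟨k + 1, hk⟩]

end arrays

/-- **Force lemma**: every valid block is a macro-tile. -/
theorem force {h v : ℕ → ℕ → V} (A : AllValid h v) : ∃ u : Tile,
    (∀ x y, x ≤ NN → y < NN → h x y = hf u x y) ∧ (∀ x y, x < NN → y ≤ NN → v x y = vf u x y) := by
  have hN := NN_ge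
  have hN' := NN_eq'
  obtain ⟨j, hj, ej, hselR, hpinC, hpoutC⟩ := exists_j A
  obtain ⟨i, hi, ei, hselC, hpinR, hpoutR⟩ := exists_i A
  have hi8 := div_eight_lt hi
  have hj8 := div_eight_lt hj
  -- emission
  have hem : ej = role i j ∧ ei = role i j := by
    have h1 := A (8 * (i / 8) + 2) (8 * (j / 8) + 2) (by omega) (by omega)
    rw [valid_role_sel, hselR _ hj8 _ (by omega) (by omega), hselC _ hi8 _ (by omega) (by omega)] at h1
    have h2 := h1.2.2 (r8 j, ej) (r8 i, ei) (by simp) (by simp)
    simp only [r8_val] at h2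
    rw [Nat.div_add_mod, Nat.div_add_mod] at h2
    exact ⟨h2.1, h2.2.trans h2.1⟩
  obtain ⟨hej, hei⟩ := hem
  subst hej
  subst hei
  -- secondary bits
  have s1 : ∀ (k : Fin ell) (a : Bool), (h 2 (8 * plP (.sec k) a + 5)).b1 = (j.testBit k.val ^^ a) := by
    intro k a
    have h1 := linkI A (r := .pin (.sec k) a) (c := .pin (.prim k) a) trivial trivial
    simp only [linkOf, lrel, posL] at h1
    rw [h1.1 (dec_iff.2 ⟨trivial, trivial⟩), hpinC]
  have s2 : ∀ (k : Fin ell) (a : Bool), (h 2 (8 * plP (.sec k) a + 4)).b1 = (j.testBit k.val ^^ a) := by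
    intro k a
    have h1 := linkI A (r := .pout (.sec k) a) (c := .pin (.prim k) a) trivial trivial
    simp only [linkOf, lrel, posL] at h1
    rw [h1.1 (dec_iff.2 ⟨trivial, trivial⟩), hpinC]
  have s3 : ∀ (k : Fin ell) (a : Bool), (v (8 * plP (.sec k) a + 5) 2).b1 = (i.testBit k.val ^^ a) := by
    intro k a
    have h1 := linkI A (r := .pin (.prim k) a) (c := .pin (.sec k) a) trivial trivial
    simp only [linkOf, lrel, posL] at h1
    rw [← h1.1 (dec_iff.2 ⟨trivial, trivial⟩), hpinR]
  have s4 : ∀ (k : Fin ell) (a : Bool), (v (8 * plP (.sec k) a + 4) 2).b1 = (i.testBit k.val ^^ a) := by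
    intro k a
    have h1 := linkI A (r := .pin (.prim k) a) (c := .pout (.sec k) a) trivial trivial
    simp only [linkOf, lrel, posL] at h1
    rw [← h1.1 (dec_iff.2 ⟨trivial, trivial⟩), hpinR]
  -- literals
  obtain ⟨w, hw⟩ := lits A
  have hwr : ∀ β a, (h 2 (8 * plI (.lit β a) + 6)).b1 = (w β ^^ a) := fun β a => (hw β a).1
  have hwc : ∀ β a, (v (8 * plI (.lit β a) + 6) 2).b1 = (w β ^^ a) := fun β a => (hw β a).2
  have hgate := gates A hwc
  -- role bits
  have hth : ∀ k : Fin bb, w (Sum.inr k) = code (role i j) k := by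
    intro k
    have h1 := A_linkL A (r := .sel (j / 8)) (c := .int (.lit (Sum.inr k) false)) (by simp) (by simp)
      (by rintro t' h'; cases h'; exact hj8) (by rintro t' h'; cases h')
      (by rintro ⟨_, ⟨t', h'⟩⟩; cases h')
    simp only [linkOf, lrel, posL] at h1
    have hp := plI_lt (.lit (Sum.inr k) false)
    rw [hselR _ hj8 _ (by omega) (by omega), (col_int A _).2.1 (8 * (j / 8) + 2) (by omega) (by omega),
      hwc] at h1
    have h2 := h1 (r8 j, role i j) (by simp)
    simpa using h2
  -- colour bits
  have c1 : ∀ (x : V) (a : Bool),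
      (h 2 (8 * plP (.val x) a + 5)).b1 = (w (Sum.inl (Sd.W, x)) ^^ a) := by
    intro x a
    have h1 := linkI A (r := .pin (.val x) a) (c := .int (.lit (Sum.inl (Sd.W, x)) a)) trivial trivial
    simp only [linkOf, lrel, posL] at h1
    rw [h1.1 (dec_iff.2 ⟨trivial, trivial⟩), hwc]
  have c2 : ∀ (x : V) (a : Bool),
      (h 2 (8 * plP (.val x) a + 4)).b1 = (w (Sum.inl (Sd.E, x)) ^^ a) := by
    intro x a
    have h1 := linkI A (r := .pout (.val x) a) (c := .int (.lit (Sum.inl (Sd.E, x)) a)) trivial trivial
    simp only [linkOf, lrel, posL] at h1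
    rw [h1.1 (dec_iff.2 ⟨trivial, trivial⟩), hwc]
  have c3 : ∀ (x : V) (a : Bool),
      (v (8 * plP (.val x) a + 5) 2).b1 = (w (Sum.inl (Sd.S, x)) ^^ a) := by
    intro x a
    have h1 := linkI A (r := .int (.lit (Sum.inl (Sd.S, x)) a)) (c := .pin (.val x) a) trivial trivial
    simp only [linkOf, lrel, posL] at h1
    rw [← h1.1 (dec_iff.2 ⟨trivial, trivial⟩), hwr]
  have c4 : ∀ (x : V) (a : Bool),
      (v (8 * plP (.val x) a + 4) 2).b1 = (w (Sum.inl (Sd.N, x)) ^^ a) := by
    intro x a
    have h1 := linkI A (r := .int (.lit (Sum.inl (Sd.N, x)) a)) (c := .pout (.val x) a) trivial trivial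
    simp only [linkOf, lrel, posL] at h1
    rw [← h1.1 (dec_iff.2 ⟨trivial, trivial⟩), hwr]
  -- the check
  have hgood : good w := by
    by_contra hbad
    have hk : KK - 1 < KK := by have := KK_pos; omega
    have h1 := (col_int A (.gate (fun β => !w β) ⟨KK - 1, hk⟩)).2.2.2.2
    rw [(hgate (KK - 1) hk _).2] at h1
    have h2 : chkC (.gate (fun β => !w β) ⟨KK - 1, hk⟩) = true := by
      simp only [chkC]
      rw [dec_iff]
      refine ⟨by omega, ?_⟩
      simpa using hbad
    have h3 := h1 h2
    simp only [colInt, bit] at h3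
    rw [show KK - 1 + 1 = KK by omega] at h3
    have h4 : Apre (fun β => w β ^^ (fun β => !w β) β) KK = true := by
      rw [Apre_last]; simp
    rw [h4] at h3
    exact absurd h3 (by simp)
  obtain ⟨θ, W, E, S, N, hok, hwe⟩ := hgood
  have hθ : θ = role i j := by
    apply code_inj
    funext k
    rw [← hth, hwe]
    rfl
  subst hθ
  -- the tile
  refine ⟨⟨i, j, W, E, S, N, hi, hj, hok⟩, ?_⟩
  have hRin : ∀ q a, h 2 (8 * plP q a + 5) = bit (enc i j W q ^^ a) := by
    intro q a
    rw [(row_pin_bit A q a).1]
    congr 1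
    cases q with
    | prim k => exact hpinR k a
    | sec k => exact s1 k a
    | val x => rw [c1, hwe]; rfl
  have hRout : ∀ q a, h 2 (8 * plP q a + 4) = bit (enc ((i + 1) % NN) j E q ^^ a) := by
    intro q a
    rw [(row_pout A q a).2 2 le_rfl (by omega)]
    congr 1
    cases q with
    | prim k => exact hpoutR k a
    | sec k => exact s2 k a
    | val x => rw [c2, hwe]; rfl
  have hRint : ∀ idx, h 2 (8 * plI idx + 6) = rowInt w idx := by
    intro idx
    cases idx with
    | lit β a =>
      rw [(row_int A (.lit β a)).2.2.2.2 rfl, hwr]; rfl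
    | gate m k => exact (hgate k.val k.isLt m).1
  have hCin : ∀ q a, v (8 * plP q a + 5) 2 = bit (enc j i S q ^^ a) := by
    intro q a
    rw [(col_pin_bit A q a).1]
    congr 1
    cases q with
    | prim k => exact hpinC k a
    | sec k => exact s3 k a
    | val x => rw [c3, hwe]; rfl
  have hCout : ∀ q a, v (8 * plP q a + 4) 2 = bit (enc ((j + 1) % NN) i N q ^^ a) := by
    intro q a
    rw [(col_pout A q a).2 2 le_rfl (by omega)]
    congr 1
    cases q with
    | prim k => exact hpoutC k a
    | sec k => exact s4 k a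
    | val x => rw [c4, hwe]; rfl
  have hCint : ∀ idx, v (8 * plI idx + 6) 2 = colInt w idx := by
    intro idx
    cases idx with
    | lit β a =>
      rw [(col_int A (.lit β a)).2.2.2.1, hwc]; rfl
    | gate m k => exact (hgate k.val k.isLt m).2
  have hw' : wOf (role i j) W E S N = w := hwe.symm
  constructor
  · intro x y hx hy
    rcases Nat.eq_zero_or_pos y with h0 | h0
    · subst h0
      rw [hf_zero]
      show h x 0 = rg (enc j i S) x
      rcases Nat.eq_zero_or_pos x with hx0 | hx0
      · subst hx0
        rw [rg_zero]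
        exact (ringR_other A (y := 0) (by omega) (by rw [line_zero]; simp)
          (by rw [line_zero]; simp)).1
      rcases lt_or_eq_of_le hx with hxN | hxN
      · cases hl : line x with
        | pin q a =>
          have hp := line_pin_iff.1 hl
          rw [rg_pin hl, ← hCin q a, ← hp, (col_pin A q a).1 2 (by omega) (by omega),
            (ringC_pin A q a).2.2]
        | pout q a =>
          have hp := line_pout_iff.1 hl
          rw [rg_blank (by intro q a h'; rw [hl] at h'; cases h'), ← hp]
          exact (ringC_pout A q a).2.1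
        | _ =>
          rw [rg_blank (by intro q a h'; rw [hl] at h'; cases h')]
          exact (ringC_other A hx0 hxN (by intro q a h'; rw [hl] at h'; cases h')
            (by intro q a h'; rw [hl] at h'; cases h')).2.2.1
      · rw [rg_blank (by rw [hxN, line_NN]; simp)]
        have := (ringC_other A (x := NN - 1) (by omega) (by omega) (by rw [line_last]; simp)
          (by rw [line_last]; simp)).2.2.2
        rw [show NN - 1 + 1 = x by omega] at this
        exact this
    · rw [hf_pos _ _ h0]
      show h x y = lv i j W E (role i j) (rowInt (wOf (role i j) W E S N)) x (line y)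
      rw [hw']
      cases hl : line y with
      | none =>
        simp only [lv]
        rcases Nat.eq_zero_or_pos x with hx0 | hx0
        · subst hx0
          exact (ringR_other A hy (by rw [hl]; simp) (by rw [hl]; simp)).1
        · exact row_none A h0 hy (Or.inl hl) hx0 hx
      | endl =>
        simp only [lv]
        rcases Nat.eq_zero_or_pos x with hx0 | hx0
        · subst hx0
          exact (ringR_other A hy (by rw [hl]; simp) (by rw [hl]; simp)).1
        · exact row_none A h0 hy (Or.inr hl) hx0 hx
      | sel t =>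
        have hp := line_sel_iff.1 hl
        have ht : t < nG := by omega
        simp only [lv]
        by_cases hxx : 2 ≤ x ∧ x < NN
        · rw [if_pos hxx, ← hp]; exact hselR t ht x hxx.1 hxx.2
        · rw [if_neg hxx]
          rcases Nat.eq_zero_or_pos x with hx0 | hx0
          · subst hx0
            exact (ringR_other A hy (by rw [hl]; simp) (by rw [hl]; simp)).1
          · have hs := A_selrow A ht
            rcases (by omega : x = 1 ∨ x = NN) with rfl | rfl
            · rw [← hp]; exact hs.one
            · rw [← hp]; exact hs.last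
      | pout q a =>
        have hp := line_pout_iff.1 hl
        simp only [lv]
        split_ifs with h1 h2
        · subst h1
          rw [← hp, (row_pin_bit A q a).2, hRin]
        · subst h2
          rw [← hp]; exact (row_pout A q a).1
        · rw [← hp, (row_pout A q a).2 x (by omega) hx, ← (row_pout A q a).2 2 le_rfl (by omega), hRout]
      | pin q a =>
        have hp := line_pin_iff.1 hl
        simp only [lv]
        split_ifs with h1
        · rw [← hp, (row_pin A q a).1 x h1.1 h1.2, ← (row_pin A q a).1 2 (by omega) (by omega), hRin]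
        · rcases (by omega : x = 0 ∨ x = NN) with rfl | rfl
          · rw [← hp]; exact (ringR_pin A q a).1
          · rw [← hp]; exact (row_pin A q a).2
      | int idx =>
        have hp := line_int_iff.1 hl
        simp only [lv]
        split_ifs with h1
        · rw [← hp, (row_int A idx).2.1 x h1.1 h1.2, hRint]
        · rcases (by omega : x = 0 ∨ x = 1 ∨ x = NN) with rfl | rfl | rfl
          · exact (ringR_other A hy (by rw [hl]; simp) (by rw [hl]; simp)).1
          · rw [← hp]; exact (row_int A idx).1
          · rw [← hp]; exact (row_int A idx).2.2.1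
  · intro x y hx hy
    rcases Nat.eq_zero_or_pos x with h0 | h0
    · subst h0
      rw [vf_zero]
      show v 0 y = rg (enc i j W) y
      rcases lt_or_eq_of_le hy with hyN | hyN
      · cases hl : line y with
        | pin q a =>
          have hp := line_pin_iff.1 hl
          rw [rg_pin hl, ← hRin q a, ← hp, (row_pin A q a).1 2 (by omega) (by omega),
            (ringR_pin A q a).2.2]
        | pout q a =>
          have hp := line_pout_iff.1 hl
          rw [rg_blank (by intro q a h'; rw [hl] at h'; cases h'), ← hp]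
          exact (ringR_pout A q a).2.1
        | _ =>
          rw [rg_blank (by intro q a h'; rw [hl] at h'; cases h')]
          exact (ringR_other A hyN (by intro q a h'; rw [hl] at h'; cases h')
            (by intro q a h'; rw [hl] at h'; cases h')).2.2.1
      · rw [rg_blank (by rw [hyN, line_NN]; simp)]
        have := (ringR_other A (y := NN - 1) (by omega) (by rw [line_last]; simp)
          (by rw [line_last]; simp)).2.2.2
        rw [show NN - 1 + 1 = y by omega] at this
        exact this
    · rw [vf_pos _ _ h0]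
      show v x y = lv j i S N (role i j) (colInt (wOf (role i j) W E S N)) y (line x)
      rw [hw']
      cases hl : line x with
      | none =>
        simp only [lv]
        rcases Nat.eq_zero_or_pos y with hy0 | hy0
        · subst hy0
          exact (ringC_other A h0 hx (by rw [hl]; simp) (by rw [hl]; simp)).1
        · exact col_none A h0 hx (Or.inl hl) hy0 hy
      | endl =>
        simp only [lv]
        rcases Nat.eq_zero_or_pos y with hy0 | hy0
        · subst hy0
          exact (ringC_other A h0 hx (by rw [hl]; simp) (by rw [hl]; simp)).1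
        · exact col_none A h0 hx (Or.inr hl) hy0 hy
      | sel t =>
        have hp := line_sel_iff.1 hl
        have ht : t < nG := by omega
        simp only [lv]
        by_cases hxx : 2 ≤ y ∧ y < NN
        · rw [if_pos hxx, ← hp]; exact hselC t ht y hxx.1 hxx.2
        · rw [if_neg hxx]
          rcases Nat.eq_zero_or_pos y with hy0 | hy0
          · subst hy0
            exact (ringC_other A h0 hx (by rw [hl]; simp) (by rw [hl]; simp)).1
          · have hs := A_selcol A ht
            rcases (by omega : y = 1 ∨ y = NN) with rfl | rfl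
            · rw [← hp]; exact hs.one
            · rw [← hp]; exact hs.last
      | pout q a =>
        have hp := line_pout_iff.1 hl
        simp only [lv]
        split_ifs with h1 h2
        · subst h1
          rw [← hp, (col_pin_bit A q a).2, hCin]
        · subst h2
          rw [← hp]; exact (col_pout A q a).1
        · rw [← hp, (col_pout A q a).2 y (by omega) hy, ← (col_pout A q a).2 2 le_rfl (by omega), hCout]
      | pin q a =>
        have hp := line_pin_iff.1 hl
        simp only [lv]
        split_ifs with h1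
        · rw [← hp, (col_pin A q a).1 y h1.1 h1.2, ← (col_pin A q a).1 2 (by omega) (by omega), hCin]
        · rcases (by omega : y = 0 ∨ y = NN) with rfl | rfl
          · rw [← hp]; exact (ringC_pin A q a).1
          · rw [← hp]; exact (col_pin A q a).2
      | int idx =>
        have hp := line_int_iff.1 hl
        simp only [lv]
        split_ifs with h1
        · rw [← hp, (col_int A idx).2.1 y h1.1 h1.2, hCint]
        · rcases (by omega : y = 0 ∨ y = 1 ∨ y = NN) with rfl | rfl | rfl
          · exact (ringC_other A h0 hx (by rw [hl]; simp) (by rw [hl]; simp)).1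
          · rw [← hp]; exact (col_int A idx).1
          · rw [← hp]; exact (col_int A idx).2.2.1

end Pool.Agent.MPa03d92.C
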