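import Mathlib
import Pool.Agent.Work.MP_a03d92_mp.Force3

/-!
# MP_a03d92_mp : Part C, balance: involutions of lines
-/

set_option autoImplicit false
open scoped Classical

namespace Pool.Agent.MPa03d92.C

/-- an involution of the lines preserving residues and ranges -/
structure GoodInv (τ : Line → Line) : Prop where
  inv : ∀ l, τ (τ l) = l
  nn : τ .none = .none
  rng : ∀ l, l ≠ .none → (∀ t, l = .sel t → t < nG) → ∀ t, τ l = .sel t → t < nG
  res : ∀ l, posL (τ l) % 8 = posL l % 8

/-- the permutation of coordinates induced by an involution of lines -/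
noncomputable def perm (τ : Line → Line) (x : ℕ) : ℕ :=
  if line x = .none then x else posL (τ (line x))

section perm
variable {τ : Line → Line} (hτ : GoodInv τ)
include hτ

theorem GoodInv.ne {l : Line} (h : l ≠ .none) : τ l ≠ .none := by
  intro h'
  apply h
  rw [← hτ.inv l, h', hτ.nn]

theorem line_perm (x : ℕ) : line (perm τ x) = τ (line x) := by
  unfold perm
  split_ifs with h
  · rw [h, hτ.nn]
  · exact line_posL (hτ.ne h)

theorem perm_perm (x : ℕ) : perm τ (perm τ x) = x := by
  by_cases h : line x = .none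
  · have : perm τ x = x := by unfold perm; rw [if_pos h]
    rw [this, this]
  · have h1 := line_perm hτ x
    have h2 : perm τ (perm τ x) = posL (τ (line (perm τ x))) := by
      show (if line (perm τ x) = .none then perm τ x else posL (τ (line (perm τ x)))) = _
      rw [if_neg (by rw [h1]; exact hτ.ne h)]
    rw [h2, h1, hτ.inv, posL_line h]

theorem perm_mod (x : ℕ) : perm τ x % 8 = x % 8 := by
  unfold perm
  split_ifs with h
  · rfl
  · rw [hτ.res, posL_line h]

theorem perm_bound {x : ℕ} (hx : x < NN) (h : line x ≠ .none) :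
    2 ≤ perm τ x ∧ perm τ x + 2 ≤ NN := by
  have h1 : perm τ x = posL (τ (line x)) := by unfold perm; rw [if_neg h]
  have h2 : ∀ t, line x = .sel t → t < nG := by
    intro t ht
    have := line_sel_iff.1 ht
    have := NN_eq'
    omega
  have h3 := posL_lt (hτ.ne h) (hτ.rng _ h h2)
  rw [h1]
  refine ⟨?_, h3⟩
  have h4 : line (posL (τ (line x))) ≠ .none := by rw [line_posL (hτ.ne h)]; exact hτ.ne h
  exact (line_bounds (by omega) h4).1

theorem perm_lt {x : ℕ} (hx : x < NN) : perm τ x < NN := by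
  by_cases h : line x = .none
  · unfold perm; rw [if_pos h]; exact hx
  · have := perm_bound hτ hx h; omega

theorem sum_perm (F : ℕ → ℝ) :
    ∑ x ∈ Finset.range NN, F (perm τ x) = ∑ x ∈ Finset.range NN, F x := by
  refine Finset.sum_nbij' (perm τ) (perm τ) ?_ ?_ ?_ ?_ ?_
  · intro x hx; rw [Finset.mem_range] at *; exact perm_lt hτ hx
  · intro x hx; rw [Finset.mem_range] at *; exact perm_lt hτ hx
  · intro x _; exact perm_perm hτ x
  · intro x _; exact perm_perm hτ x
  · intro x _; rfl

end perm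

theorem perm_of_none {τ : Line → Line} {x : ℕ} (h : line x = .none) : perm τ x = x := by
  unfold perm; rw [if_pos h]

theorem perm_of_fix {τ : Line → Line} {x : ℕ} (h : τ (line x) = line x) : perm τ x = x := by
  unfold perm
  split_ifs with h'
  · rfl
  · rw [h, posL_line h']

/-! ### change of colours -/

def tauII (γ : Bt → Bool) : II → II
  | .lit β a => .lit β (a ^^ γ β)
  | .gate m k => .gate (fun β => m β ^^ γ β) k

/-- involution for a change of colours; `so`, `si` are the sides of the outgoing and incoming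
colour lines -/
def tau (so si : Sd) (γ : Bt → Bool) : Line → Line
  | .pout (.val x) a => .pout (.val x) (a ^^ γ (Sum.inl (so, x)))
  | .pin (.val x) a => .pin (.val x) (a ^^ γ (Sum.inl (si, x)))
  | .int i => .int (tauII γ i)
  | l => l

theorem tauII_inv (γ : Bt → Bool) (i : II) : tauII γ (tauII γ i) = i := by
  cases i with
  | lit β a => simp [tauII]
  | gate m k => simp [tauII]

theorem tau_good (so si : Sd) (γ : Bt → Bool) : GoodInv (tau so si γ) := by
  refine ⟨?_, rfl, ?_, ?_⟩
  · rintro (_ | _ | t | ⟨(k | k | x), a⟩ | ⟨(k | k | x), a⟩ | i) <;>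
      simp [tau, tauII_inv]
  · rintro (_ | _ | t | ⟨(k | k | x), a⟩ | ⟨(k | k | x), a⟩ | i) h1 h2 t' h3 <;>
      simp only [tau] at h3 <;> first | (exact h2 t' h3) | (cases h3)
  · rintro (_ | _ | t | ⟨(k | k | x), a⟩ | ⟨(k | k | x), a⟩ | i) <;>
      simp only [tau, posL] <;> omega

/-! ### change of position -/

/-- involution for a change of position: `a, a'` primary coordinates, `b, b'` secondary ones -/
noncomputable def tau' (a a' b b' : ℕ) : Line → Line
  | .sel t => .sel (Equiv.swap (b / 8) (b' / 8) t)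
  | .pout (.prim k) s => .pout (.prim k)
      (s ^^ (((a + 1) % NN).testBit k.val ^^ ((a' + 1) % NN).testBit k.val))
  | .pin (.prim k) s => .pin (.prim k) (s ^^ (a.testBit k.val ^^ a'.testBit k.val))
  | .pout (.sec k) s => .pout (.sec k) (s ^^ (b.testBit k.val ^^ b'.testBit k.val))
  | .pin (.sec k) s => .pin (.sec k) (s ^^ (b.testBit k.val ^^ b'.testBit k.val))
  | l => l

theorem swap_lt {p q t n : ℕ} (hp : p < n) (hq : q < n) (ht : t < n) : Equiv.swap p q t < n := by
  rw [Equiv.swap_apply_def]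
  split_ifs <;> assumption

theorem tau'_good {a a' b b' : ℕ} (hb : b < NN) (hb' : b' < NN) : GoodInv (tau' a a' b b') := by
  refine ⟨?_, rfl, ?_, ?_⟩
  · rintro (_ | _ | t | ⟨(k | k | x), s⟩ | ⟨(k | k | x), s⟩ | i) <;>
      simp only [tau', Equiv.swap_apply_self, Bool.xor_assoc, Bool.xor_self, Bool.xor_false]
  · rintro (_ | _ | t | ⟨(k | k | x), s⟩ | ⟨(k | k | x), s⟩ | i) h1 h2 t' h3 <;>
      simp only [tau'] at h3
    all_goals first
      | (exact h2 t' h3)
      | (cases h3; exact swap_lt (div_eight_lt hb) (div_eight_lt hb') (h2 _ rfl))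
      | (cases h3)
  · rintro (_ | _ | t | ⟨(k | k | x), s⟩ | ⟨(k | k | x), s⟩ | i) <;>
      simp only [tau', posL] <;> omega

/-! ### contents under a change of colours -/

theorem xor_aux (w w' a : Bool) : (w ^^ (a ^^ (w ^^ w'))) = (w' ^^ a) := by
  cases w <;> cases w' <;> cases a <;> rfl

theorem rowInt_tau (w w' : Bt → Bool) (i : II) :
    rowInt w (tauII (fun β => w β ^^ w' β) i) = rowInt w' i := by
  cases i with
  | lit β a => simp only [tauII, rowInt, xor_aux]
  | gate m k => simp only [tauII, rowInt, xor_aux]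

theorem colInt_tau (w w' : Bt → Bool) (i : II) :
    colInt w (tauII (fun β => w β ^^ w' β) i) = colInt w' i := by
  cases i with
  | lit β a => simp only [tauII, colInt, xor_aux]
  | gate m k => simp only [tauII, colInt, xor_aux]

/-- two along-coordinates that are not distinguished: equal, or both beyond the chain zone -/
def Sim (x x' : ℕ) : Prop :=
  x = x' ∨ (8 * (2 * ell) + 3 < x ∧ 8 * (2 * ell) + 3 < x' ∧ x < NN ∧ x' < NN)

theorem lv_tau {so si : Sd} {w w' : Bt → Bool} {a b : ℕ} {cin cout cin' cout' : V} {th : Role}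
    {ic ic' : II → V}
    (hin : ∀ x, w (Sum.inl (si, x)) = dec (cin = x)) (hin' : ∀ x, w' (Sum.inl (si, x)) = dec (cin' = x))
    (hout : ∀ x, w (Sum.inl (so, x)) = dec (cout = x))
    (hout' : ∀ x, w' (Sum.inl (so, x)) = dec (cout' = x))
    (hic : ∀ i, ic (tauII (fun β => w β ^^ w' β) i) = ic' i)
    {x x' : ℕ} (hx : 1 ≤ x) (hx' : 1 ≤ x') (hs : Sim x x') (l : Line) :
    lv a b cin cout th ic x' (tau so si (fun β => w β ^^ w' β) l) =
      lv a b cin' cout' th ic' x l := by
  have key : ∀ (P : ℕ → Prop) (hP : ∀ z, 8 * (2 * ell) + 3 < z → z < NN → P z), P x ↔ P x' := by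
    intro P hP
    rcases hs with rfl | ⟨h1, h2, h3, h4⟩
    · exact Iff.rfl
    · exact iff_of_true (hP x h1 h3) (hP x' h2 h4)
  have k1 : (2 ≤ x ∧ x < NN) ↔ (2 ≤ x' ∧ x' < NN) := key (fun z => 2 ≤ z ∧ z < NN) (by intros; omega)
  have k2 : (1 ≤ x ∧ x < NN) ↔ (1 ≤ x' ∧ x' < NN) := key (fun z => 1 ≤ z ∧ z < NN) (by intros; omega)
  have k3 : (x = 1) ↔ (x' = 1) := by
    rcases hs with rfl | ⟨h1, h2, h3, h4⟩
    · exact Iff.rfl
    · omega
  have k0 : ¬ x = 0 := by omega
  have k0' : ¬ x' = 0 := by omega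
  rcases l with _ | _ | t | ⟨(k | k | c), s⟩ | ⟨(k | k | c), s⟩ | i
  · rfl
  · rfl
  · simp only [tau, lv]
    have hc : chv t b x = chv t b x' := by
      rcases hs with rfl | ⟨h1, h2, h3, h4⟩
      · rfl
      · rw [chv_of_gt h1, chv_of_gt h2]
    simp only [k1, hc]
  · simp only [tau, lv, k3, if_neg k0, if_neg k0', enc]
  · simp only [tau, lv, k3, if_neg k0, if_neg k0', enc]
  · simp only [tau, lv, k3, if_neg k0, if_neg k0', enc, ← hout, ← hout', xor_aux]
  · simp only [tau, lv, k2, enc]
  · simp only [tau, lv, k2, enc]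
  · simp only [tau, lv, k2, enc, ← hin, ← hin', xor_aux]
  · simp only [tau, lv, k1, hic]

/-- in the ring (both kinds of pair lines carry the incoming colour) -/
theorem lv_tau_ring {si : Sd} {w w' : Bt → Bool} {a b : ℕ} {cin cout cin' cout' : V} {th : Role}
    {ic ic' : II → V}
    (hin : ∀ x, w (Sum.inl (si, x)) = dec (cin = x)) (hin' : ∀ x, w' (Sum.inl (si, x)) = dec (cin' = x))
    {x : ℕ} (hx : x ≤ 1) (l : Line) :
    lv a b cin cout th ic x (tau si si (fun β => w β ^^ w' β) l) =
      lv a b cin' cout' th ic' x l := by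
  have hx2 : ¬ (2 ≤ x ∧ x < NN) := by omega
  rcases l with _ | _ | t | ⟨(k | k | c), s⟩ | ⟨(k | k | c), s⟩ | i
  · rfl
  · rfl
  · simp only [tau, lv, if_neg hx2]
  · rcases (by omega : x = 0 ∨ x = 1) with rfl | rfl <;> simp [tau, lv, enc]
  · rcases (by omega : x = 0 ∨ x = 1) with rfl | rfl <;> simp [tau, lv, enc]
  · rcases (by omega : x = 0 ∨ x = 1) with rfl | rfl
    · simp only [tau, lv, if_true, enc, ← hin, ← hin', xor_aux]
    · simp [tau, lv]
  · simp only [tau, lv, enc]
  · simp only [tau, lv, enc]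
  · simp only [tau, lv, enc, ← hin, ← hin', xor_aux]
  · simp only [tau, lv, if_neg hx2]

end Pool.Agent.MPa03d92.C
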