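import Mathlib
import Pool.Agent.Work.MP_a03d92_mp.Valid2

/-!
# MP_a03d92_mp : Part C, the substitution on tiles; interface of the balance lemma
-/

set_option autoImplicit false
open scoped Classical

namespace Pool.Agent.MPa03d92.C

/-- the four colours of the cell `(x, y)` of the macro-tile of `u` -/
noncomputable def cell (u : Tile) (x y : ℕ) : V × V × V × V :=
  (hf u x y, hf u (x + 1) y, vf u x y, vf u x (y + 1))

/-- the four colours of a tile -/
def Tile.col (u : Tile) : V × V × V × V := (u.W, u.E, u.S, u.N)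

/-- the tile at `(a, b)` of the macro-tile of `u` -/
noncomputable def Tile.Sub (u : Tile) (a b : ℕ) : Tile :=
  if h : a < NN ∧ b < NN then
    ⟨a, b, hf u a b, hf u (a + 1) b, vf u a b, vf u a (b + 1), h.1, h.2, cell_valid u h.1 h.2⟩
  else u

/-- `u`, `u'` have the same position -/
def SameP (u u' : Tile) : Prop := u.i = u'.i ∧ u.j = u'.j
/-- `u`, `u'` have the same role and colours -/
def SameC (u u' : Tile) : Prop := role u.i u.j = role u'.i u'.j ∧ u.col = u'.col

/-- the content of the cell `(x, y)` factors through the position -/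
def Dep1 (x y : ℕ) : Prop := ∀ u u' : Tile, SameP u u' → cell u x y = cell u' x y
/-- ... through `j`, role, colours -/
def Dep2 (x y : ℕ) : Prop := ∀ u u' : Tile, u.j = u'.j → SameC u u' → cell u x y = cell u' x y
/-- ... through `i`, role, colours -/
def Dep3 (x y : ℕ) : Prop := ∀ u u' : Tile, u.i = u'.i → SameC u u' → cell u x y = cell u' x y
/-- ... through role, colours -/
def Dep4 (x y : ℕ) : Prop := ∀ u u' : Tile, SameC u u' → cell u x y = cell u' x y

/-- `κ` is an involution of `{0, ..., NN-1}` that transports row `y` of `u'` to row `y` of `u` -/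
def RowMatch (y : ℕ) (u u' : Tile) : Prop :=
  ∃ κ : ℕ → ℕ, (∀ x, x < NN → κ x < NN) ∧ (∀ x, κ (κ x) = x) ∧
    ∀ x, x < NN → role (κ x) y = role x y ∧ cell u' x y = cell u (κ x) y

def ColMatch (x : ℕ) (u u' : Tile) : Prop :=
  ∃ ρ : ℕ → ℕ, (∀ y, y < NN → ρ y < NN) ∧ (∀ y, ρ (ρ y) = y) ∧
    ∀ y, y < NN → role x (ρ y) = role x y ∧ cell u' x y = cell u x (ρ y)

/-- global matching -/
def AllMatch (u u' : Tile) : Prop :=
  ∃ Φ : ℕ × ℕ → ℕ × ℕ, (∀ z, z.1 < NN → z.2 < NN → (Φ z).1 < NN ∧ (Φ z).2 < NN) ∧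
    (∀ z, Φ (Φ z) = z) ∧
    ∀ z, z.1 < NN → z.2 < NN → role (Φ z).1 (Φ z).2 = role z.1 z.2 ∧
      cell u' z.1 z.2 = cell u (Φ z).1 (Φ z).2

/-- the pointwise facts from which balance follows -/
structure BalFacts : Prop where
  f4 : ∀ x y, x < NN → y < NN → Dep1 x y ∨ Dep2 x y ∨ Dep3 x y
  fr : ∀ y, y < NN → (∀ x, x < NN → Dep1 x y ∨ Dep4 x y) ∨
    (∀ u u' : Tile, SameP u u' → RowMatch y u u') ∨ (∀ u u' : Tile, SameC u u' → RowMatch y u u')
  fc : ∀ x, x < NN → (∀ y, y < NN → Dep1 x y ∨ Dep4 x y) ∨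
    (∀ u u' : Tile, SameP u u' → ColMatch x u u') ∨ (∀ u u' : Tile, SameC u u' → ColMatch x u u')
  f1 : ∀ u u' : Tile, SameP u u' → AllMatch u u'

end Pool.Agent.MPa03d92.C
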