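import Mathlib
import Pool.Agent.Work.MP_a03d92_mp.Bal1
import Pool.Agent.Work.MP_a03d92_mp.SubDef

/-!
# MP_a03d92_mp : Part C, balance: roles are preserved by the involutions
-/

set_option autoImplicit false
open scoped Classical

namespace Pool.Agent.MPa03d92.C

/-! ### links -/

theorem xor_cancel_right {a b c : Bool} : (a ^^ c) = (b ^^ c) ↔ a = b := by
  cases a <;> cases b <;> cases c <;> simp

theorem dec_xor1 (γ : Bt → Bool) (β c : Bt) (a a' : Bool) :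
    dec (β = c ∧ (a ^^ γ c) = (a' ^^ γ β)) = dec (β = c ∧ a = a') := by
  apply dec_congr
  constructor
  · rintro ⟨rfl, h⟩; exact ⟨rfl, xor_cancel_right.1 h⟩
  · rintro ⟨rfl, h⟩; exact ⟨rfl, by rw [h]⟩

theorem dec_xor2 (γ : Bt → Bool) (β β' : Bt) (a a' : Bool) :
    dec (β = β' ∧ (a ^^ γ β) = (a' ^^ γ β')) = dec (β = β' ∧ a = a') := by
  apply dec_congr
  constructor
  · rintro ⟨rfl, h⟩; exact ⟨rfl, xor_cancel_right.1 h⟩
  · rintro ⟨rfl, h⟩; exact ⟨rfl, by rw [h]⟩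

theorem dec_xor3 (γ : Bt → Bool) (β β' : Bt) (a a' : Bool) :
    dec (β = β' ∧ (a ^^ γ β) ≠ (a' ^^ γ β')) = dec (β = β' ∧ a ≠ a') := by
  apply dec_congr
  constructor
  · rintro ⟨rfl, h⟩; exact ⟨rfl, fun h' => h (by rw [h'])⟩
  · rintro ⟨rfl, h⟩; exact ⟨rfl, fun h' => h (xor_cancel_right.1 h')⟩

theorem dec_xor4 (γ m : Bt → Bool) (p : Prop) (β c : Bt) (a : Bool) :
    dec (p ∧ β = c ∧ (a ^^ γ β) = (m β ^^ γ β)) = dec (p ∧ β = c ∧ a = m β) := by
  apply dec_congr; rw [xor_cancel_right]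

theorem dec_xor5 (γ m : Bt → Bool) (β c : Bt) (a : Bool) :
    dec (β = c ∧ (a ^^ γ β) = (m β ^^ γ β)) = dec (β = c ∧ a = m β) := by
  apply dec_congr; rw [xor_cancel_right]

theorem dec_xor6 (γ m m' : Bt → Bool) (p : Prop) :
    dec ((fun β => m β ^^ γ β) = (fun β => m' β ^^ γ β) ∧ p) = dec (m = m' ∧ p) := by
  apply dec_congr
  have : ((fun β => m β ^^ γ β) = (fun β => m' β ^^ γ β)) ↔ m = m' := by
    constructor
    · intro h; funext β; exact xor_cancel_right.1 (congrFun h β)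
    · intro h; rw [h]
  rw [this]

theorem linkOf_tau {γ : Bt → Bool} (hγ : ∀ k, γ (Sum.inr k) = false) (r c : Line) :
    linkOf (tau Sd.E Sd.W γ r) (tau Sd.N Sd.S γ c) = linkOf r c := by
  rcases r with _ | _ | t | ⟨(k | k | x), s⟩ | ⟨(k | k | x), s⟩ | ⟨β, s⟩ | ⟨m, k⟩ <;>
  rcases c with _ | _ | t' | ⟨(k' | k' | x'), s'⟩ | ⟨(k' | k' | x'), s'⟩ | ⟨β', s'⟩ | ⟨m', k'⟩ <;>
  (try simp only [tau, tauII, linkOf, dec_xor1, dec_xor2, dec_xor3, dec_xor4,
    dec_xor5, dec_xor6])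
  cases β' with
  | inl p => rfl
  | inr k => simp only [hγ, Bool.xor_false]

/-- change of position does not change the links with colour rows -/
def Line.isC : Line → Prop
  | .pout (.val _) _ => True
  | .pin (.val _) _ => True
  | .int _ => True
  | _ => False

theorem linkOf_tau'_right {r : Line} (hr : r.isC) (a a' b b' : ℕ) (c : Line) :
    linkOf r (tau' a a' b b' c) = linkOf r c := by
  rcases r with _ | _ | t | ⟨(k | k | x), s⟩ | ⟨(k | k | x), s⟩ | ⟨β, s⟩ | ⟨m, k⟩ <;>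
  first
  | (exact False.elim hr)
  | (rcases c with _ | _ | t' | ⟨(k' | k' | x'), s'⟩ | ⟨(k' | k' | x'), s'⟩ | ⟨β', s'⟩ | ⟨m', k'⟩ <;>
     simp only [tau', linkOf])

theorem linkOf_tau'_left {c : Line} (hc : c.isC) (a a' b b' : ℕ) (r : Line) :
    linkOf (tau' a a' b b' r) c = linkOf r c := by
  rcases c with _ | _ | t | ⟨(k | k | x), s⟩ | ⟨(k | k | x), s⟩ | ⟨β | β, s⟩ | ⟨m, k⟩ <;>
  first
  | (exact False.elim hc)
  | (rcases r with _ | _ | t' | ⟨(k' | k' | x'), s'⟩ | ⟨(k' | k' | x'), s'⟩ | ⟨β', s'⟩ | ⟨m', k'⟩ <;>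
     simp only [tau', linkOf])

/-! ### transitions and roles -/

theorem trOf_tau (two chk : II → Bool) (so si : Sd) (γ : Bt → Bool)
    (htwo : ∀ i, two (tauII γ i) = two i) {x x' : ℕ}
    (h1 : x = 1 ↔ x' = 1) (h2 : x = NN - 1 ↔ x' = NN - 1)
    (hchk : (∀ i, chk i = false) ∨ x ≠ NN - 1) (l : Line) :
    trOf two chk (tau so si γ l) x' = trOf two chk l x := by
  rcases l with _ | _ | t | ⟨(k | k | c), s⟩ | ⟨(k | k | c), s⟩ | i <;>
    simp only [tau, trOf, h1, h2]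
  rw [htwo]
  rcases hchk with h | h
  · rw [h, h]
  · have h' : ¬ x' = NN - 1 := fun h3 => h (h2.2 h3)
    simp only [if_neg h']

theorem trOf_tau' (two chk : II → Bool) (a a' b b' : ℕ) {x x' : ℕ}
    (h1 : x = 1 ↔ x' = 1) (h2 : x = NN - 1 ↔ x' = NN - 1) (l : Line) :
    trOf two chk (tau' a a' b b' l) x' = trOf two chk l x := by
  rcases l with _ | _ | t | ⟨(k | k | c), s⟩ | ⟨(k | k | c), s⟩ | i <;>
    simp only [tau', trOf, h1, h2]

theorem role_eq_of_kind {x y x' y' : ℕ} (hx : x' % 8 = x % 8) (hy : y' % 8 = y % 8)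
    (hn : ¬ (x % 8 = 2 ∧ y % 8 = 2)) (hk : kind x' y' = kind x y) : role x' y' = role x y := by
  have h1 : r8 x' = r8 x := Fin.ext hx
  have h2 : r8 y' = r8 y := Fin.ext hy
  have h3 : ¬ (r8 x = 2 ∧ r8 y = 2) := by rwa [r8_eq_two, r8_eq_two]
  unfold role roleOf
  rw [if_neg (by rwa [h1, h2]), if_neg h3, tbl_kind, tbl_kind, hk, h1, h2]

theorem r8_of_role {x y x' y' : ℕ} (h : role x y = role x' y') : r8 x = r8 x' ∧ r8 y = r8 y' := by
  have h1 := congrArg Prod.fst h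
  have h2 := congrArg (fun r : Role => r.2.1) h
  exact ⟨h1, h2⟩

end Pool.Agent.MPa03d92.C
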