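import Mathlib
import Pool.Agent.Work.MP_a03d92_mp.Bal2

/-!
# MP_a03d92_mp : Part C, balance: cells under the involutions
-/

set_option autoImplicit false
open scoped Classical

namespace Pool.Agent.MPa03d92.C

/-! ### edges -/

theorem perm_eq_none {τ : Line → Line} (hτ : GoodInv τ) {x z : ℕ} (hz : line z = .none) :
    perm τ x = z ↔ x = z := by
  constructor
  · intro h
    by_cases hx : line x = .none
    · rw [perm_of_none hx] at h; exact h
    · exfalso
      have h1 := line_perm hτ x
      rw [h, hz] at h1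
      exact hτ.ne hx h1.symm
  · intro h; rw [h]; exact perm_of_none hz

theorem perm_zero {τ : Line → Line} (hτ : GoodInv τ) {x : ℕ} : perm τ x = 0 ↔ x = 0 :=
  perm_eq_none hτ line_zero
theorem perm_one {τ : Line → Line} (hτ : GoodInv τ) {x : ℕ} : perm τ x = 1 ↔ x = 1 :=
  perm_eq_none hτ line_one
theorem perm_last {τ : Line → Line} (hτ : GoodInv τ) {x : ℕ} : perm τ x = NN - 1 ↔ x = NN - 1 :=
  perm_eq_none hτ line_last

theorem perm_pos {τ : Line → Line} (hτ : GoodInv τ) {x : ℕ} (h : 1 ≤ x) : 1 ≤ perm τ x := by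
  have := (perm_zero hτ (x := x)).not.2 (by omega)
  omega

/-! ### classes of lines -/

def Line.isA : Line → Prop
  | .pout (.prim _) _ => True
  | .pin (.prim _) _ => True
  | _ => False

def Line.isB : Line → Prop
  | .sel _ => True
  | .pout (.sec _) _ => True
  | .pin (.sec _) _ => True
  | _ => False

theorem isC_pos {l : Line} (h : l.isC) : 8 * (2 * ell) + 3 < posL l ∧ posL l + 2 ≤ NN := by
  refine ⟨?_, posL_lt (by rintro rfl; exact h) (by rintro t rfl; exact h.elim)⟩
  rcases l with _ | _ | t | ⟨(k | k | x), s⟩ | ⟨(k | k | x), s⟩ | i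
  · exact h.elim
  · exact h.elim
  · exact h.elim
  · exact h.elim
  · exact h.elim
  · have := plP_val_ge x s; simp only [posL]; omega
  · exact h.elim
  · exact h.elim
  · have := plP_val_ge x s; simp only [posL]; omega
  · have := plI_ge i; simp only [posL]; omega

theorem isC_pos' {x : ℕ} (h : (line x).isC) :
    8 * (2 * ell) + 3 < x ∧ x + 2 ≤ NN ∧ 1 ≤ x ∧ x % 8 ≠ 2 := by
  have hn : line x ≠ .none := by intro h'; rw [h'] at h; exact h
  have h1 := isC_pos h
  rw [posL_line hn] at h1
  refine ⟨h1.1, h1.2, by omega, ?_⟩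
  intro h8
  have : line x = .sel (x / 8) := line_sel_iff.2 (by omega)
  rw [this] at h
  exact h

theorem tau_fix {so si : Sd} {γ : Bt → Bool} {l : Line} (h : ¬ l.isC) : tau so si γ l = l := by
  rcases l with _ | _ | t | ⟨(k | k | x), s⟩ | ⟨(k | k | x), s⟩ | i <;> first
    | rfl
    | exact absurd trivial h

theorem tau_isC {so si : Sd} {γ : Bt → Bool} {l : Line} : (tau so si γ l).isC ↔ l.isC := by
  rcases l with _ | _ | t | ⟨(k | k | x), s⟩ | ⟨(k | k | x), s⟩ | i <;> rfl

theorem tau'_fix {a a' b b' : ℕ} {l : Line} (h : l.isC) : tau' a a' b b' l = l := by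
  rcases l with _ | _ | t | ⟨(k | k | x), s⟩ | ⟨(k | k | x), s⟩ | i <;> first
    | rfl
    | exact h.elim

/-- moving colour lines only -/
theorem sim_perm {so si : Sd} {γ : Bt → Bool} (x : ℕ) :
    Sim x (perm (tau so si γ) x) ∧ Sim (x + 1) (perm (tau so si γ) x + 1) := by
  by_cases h : (line x).isC
  · have h1 := isC_pos' h
    have h2 : (line (perm (tau so si γ) x)).isC := by
      rw [line_perm (tau_good so si γ), tau_isC]; exact h
    have h3 := isC_pos' h2
    exact ⟨Or.inr ⟨by omega, by omega, by omega, by omega⟩,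
      Or.inr ⟨by omega, by omega, by omega, by omega⟩⟩
  · have : perm (tau so si γ) x = x := perm_of_fix (tau_fix h)
    rw [this]
    exact ⟨Or.inl rfl, Or.inl rfl⟩

/-! ### dependence of the values -/

section dep
variable {a b a' b' : ℕ} {cin cout cin' cout' : V} {th th' : Role} {ic ic' : II → V} {x x' : ℕ}

theorem lv_P {l : Line} (h : ¬ l.isC) :
    lv a b cin cout th ic x l = lv a b cin' cout' th ic' x l := by
  rcases l with _ | _ | t | ⟨(k | k | c), s⟩ | ⟨(k | k | c), s⟩ | i <;> first
    | rfl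
    | exact absurd trivial h

theorem lv_C {l : Line} (h : l.isC) (hx : x = x' ∨ (2 ≤ x ∧ 2 ≤ x' ∧ x < NN ∧ x' < NN)) :
    lv a b cin cout th ic x l = lv a' b' cin cout th' ic x' l := by
  rcases l with _ | _ | t | ⟨(k | k | c), s⟩ | ⟨(k | k | c), s⟩ | i
  · exact h.elim
  · exact h.elim
  · exact h.elim
  · exact h.elim
  · exact h.elim
  · rcases hx with rfl | ⟨h1, h2, h3, h4⟩
    · rfl
    · rw [lv_pout_mid h1, lv_pout_mid h2]; rfl
  · exact h.elim
  · exact h.elim
  · rcases hx with rfl | ⟨h1, h2, h3, h4⟩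
    · rfl
    · rw [lv_pin_mid (by omega) h3, lv_pin_mid (by omega) h4]; rfl
  · rcases hx with rfl | ⟨h1, h2, h3, h4⟩
    · rfl
    · rw [lv_int_mid h1 h3, lv_int_mid h2 h4]

theorem lv_A {l : Line} (h : l.isA) :
    lv a b cin cout th ic x l = lv a b' cin' cout' th' ic' x l := by
  rcases l with _ | _ | t | ⟨(k | k | c), s⟩ | ⟨(k | k | c), s⟩ | i <;> first
    | rfl
    | exact h.elim

theorem lv_B {l : Line} (h : l.isB) :
    lv a b cin cout th ic x l = lv a' b cin' cout' th ic' x l := by
  rcases l with _ | _ | t | ⟨(k | k | c), s⟩ | ⟨(k | k | c), s⟩ | i <;> first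
    | rfl
    | exact h.elim

theorem lv_0 {l : Line} (hA : ¬ l.isA) (hB : ¬ l.isB) (hC : ¬ l.isC) :
    lv a b cin cout th ic x l = blank := by
  rcases l with _ | _ | t | ⟨(k | k | c), s⟩ | ⟨(k | k | c), s⟩ | i <;> first
    | rfl
    | exact absurd trivial hA
    | exact absurd trivial hB
    | exact absurd trivial hC

/-- change of position on a column crossing a colour row -/
theorem lv_tau' (hr : r8 b = r8 b') (hx : 8 * (2 * ell) + 3 < x) (hxN : x < NN) (l : Line) :
    lv a b cin cout th ic x (tau' a a' b b' l) = lv a' b' cin cout th ic x l := by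
  have h2 : 2 ≤ x := by omega
  rcases l with _ | _ | t | ⟨(k | k | c), s⟩ | ⟨(k | k | c), s⟩ | i
  · rfl
  · rfl
  · simp only [tau']
    rw [lv_sel_mid h2 hxN, lv_sel_mid h2 hxN, chv_of_gt hx, chv_of_gt hx, hr]
    have : (Equiv.swap (b / 8) (b' / 8) t = b / 8) ↔ (t = b' / 8) := by
      rw [Equiv.swap_apply_eq_iff, Equiv.swap_apply_left]
    simp only [this]
  · simp only [tau']
    rw [lv_pout_mid h2, lv_pout_mid h2]
    simp only [enc, xor_aux]
  · simp only [tau']
    rw [lv_pout_mid h2, lv_pout_mid h2]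
    simp only [enc, xor_aux]
  · rfl
  · simp only [tau']
    rw [lv_pin_mid (by omega) hxN, lv_pin_mid (by omega) hxN]
    simp only [enc, xor_aux]
  · simp only [tau']
    rw [lv_pin_mid (by omega) hxN, lv_pin_mid (by omega) hxN]
    simp only [enc, xor_aux]
  · rfl
  · rfl

theorem rg_P {y : ℕ} (h : ¬ (line y).isC) :
    rg (enc a b cin) y = rg (enc a b cin') y ∧ rg (enc a b cin) (y + 1) = rg (enc a b cin') (y + 1) := by
  constructor
  · unfold rg
    rcases hl : line y with _ | _ | t | ⟨(k | k | c), s⟩ | ⟨(k | k | c), s⟩ | i <;> first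
      | rfl
      | (rw [hl] at h; exact absurd trivial h)
  · unfold rg
    rcases hl : line (y + 1) with _ | _ | t | ⟨(k | k | c), s⟩ | ⟨(k | k | c), s⟩ | i <;> first
      | rfl
      | (rw [pin_succ] at hl; rw [hl] at h; exact absurd trivial h)

theorem rg_C {y : ℕ} (h : (line y).isC) :
    rg (enc a b cin) y = rg (enc a' b' cin) y ∧
      rg (enc a b cin) (y + 1) = rg (enc a' b' cin) (y + 1) := by
  constructor
  · unfold rg
    rcases hl : line y with _ | _ | t | ⟨(k | k | c), s⟩ | ⟨(k | k | c), s⟩ | i <;> first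
      | rfl
      | (rw [hl] at h; exact h.elim)
  · unfold rg
    rcases hl : line (y + 1) with _ | _ | t | ⟨(k | k | c), s⟩ | ⟨(k | k | c), s⟩ | i <;> first
      | rfl
      | (rw [pin_succ] at hl; rw [hl] at h; exact h.elim)

/-- ring signals under a change of colour -/
theorem rg_tau {si so : Sd} {w w' : Bt → Bool}
    (hin : ∀ x, w (Sum.inl (si, x)) = dec (cin = x)) (hin' : ∀ x, w' (Sum.inl (si, x)) = dec (cin' = x))
    (hso : so = si) (y : ℕ) :
    rg (enc a b cin) (perm (tau so si (fun β => w β ^^ w' β)) y) = rg (enc a b cin') y ∧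
    rg (enc a b cin) (perm (tau so si (fun β => w β ^^ w' β)) y + 1) = rg (enc a b cin') (y + 1) := by
  subst hso
  have hg := tau_good so so (fun β => w β ^^ w' β)
  constructor
  · unfold rg
    rw [line_perm hg]
    rcases hl : line y with _ | _ | t | ⟨(k | k | c), s⟩ | ⟨(k | k | c), s⟩ | i <;>
      simp only [tau, enc]
    rw [← hin, ← hin', xor_aux]
  · have h1 : ∀ q s, line (perm (tau so so (fun β => w β ^^ w' β)) y + 1) = .pin q s ↔
        tau so so (fun β => w β ^^ w' β) (line y) = .pout q s := by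
      intro q s; rw [pin_succ, line_perm hg]
    by_cases hp : ∃ q s, line y = .pout q s
    · obtain ⟨q, s, hq⟩ := hp
      rw [rg_pin (pin_succ.2 hq)]
      rcases q with k | k | c
      · rw [rg_pin ((h1 (.prim k) s).2 (by rw [hq]; rfl))]; rfl
      · rw [rg_pin ((h1 (.sec k) s).2 (by rw [hq]; rfl))]; rfl
      · rw [rg_pin ((h1 (.val c) _).2 (by rw [hq]; rfl))]
        simp only [enc]
        rw [← hin, ← hin', xor_aux]
    · push Not at hp
      rw [rg_blank (fun q s h => hp q s (pin_succ.1 h)), rg_blank]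
      intro q s h
      rw [h1] at h
      rcases hl : line y with _ | _ | t | ⟨q', s'⟩ | ⟨(k | k | c), s'⟩ | i
      · rw [hl] at h; cases h
      · rw [hl] at h; cases h
      · rw [hl] at h; cases h
      · exact hp _ _ hl
      · rw [hl] at h; cases h
      · rw [hl] at h; cases h
      · rw [hl] at h; cases h
      · rw [hl] at h; cases h

end dep

end Pool.Agent.MPa03d92.C
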