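import Mathlib
import Pool.Agent.Work.MP_a03d92_mp.Bal3

/-!
# MP_a03d92_mp : Part C, balance: the pointwise facts
-/

set_option autoImplicit false
open scoped Classical

namespace Pool.Agent.MPa03d92.C

/-! ### F4 -/

theorem SameC.w {u u' : Tile} (h : SameC u u') : u.w = u'.w := by
  obtain ⟨h1, h2⟩ := h
  simp only [Tile.col, Prod.mk.injEq] at h2
  unfold Tile.w
  rw [h1, h2.1, h2.2.1, h2.2.2.1, h2.2.2.2]

theorem cell_eq_of {u u' : Tile} {x y : ℕ}
    (h1 : hf u x y = hf u' x y) (h2 : hf u (x + 1) y = hf u' (x + 1) y)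
    (h3 : vf u x y = vf u' x y) (h4 : vf u x (y + 1) = vf u' x (y + 1)) :
    cell u x y = cell u' x y := by
  unfold cell; rw [h1, h2, h3, h4]

theorem hf_P {u u' : Tile} {x y : ℕ} (hy : 1 ≤ y) (h : ¬ (line y).isC) (hs : SameP u u') :
    hf u x y = hf u' x y := by
  rw [hf_pos u x hy, hf_pos u' x hy, ← hs.1, ← hs.2]
  exact lv_P h

theorem vf_P {u u' : Tile} {x y : ℕ} (hx : 1 ≤ x) (h : ¬ (line x).isC) (hs : SameP u u') :
    vf u x y = vf u' x y := by
  rw [vf_pos u y hx, vf_pos u' y hx, ← hs.1, ← hs.2]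
  exact lv_P h

theorem hf_C {u u' : Tile} {x x' y : ℕ} (hy : 1 ≤ y) (h : (line y).isC) (hs : SameC u u')
    (hx : x = x' ∨ (2 ≤ x ∧ 2 ≤ x' ∧ x < NN ∧ x' < NN)) :
    hf u x y = hf u' x' y := by
  rw [hf_pos u x hy, hf_pos u' x' hy, ← hs.w]
  have h2 := hs.2
  simp only [Tile.col, Prod.mk.injEq] at h2
  rw [← h2.1, ← h2.2.1]
  exact lv_C h hx

theorem vf_C {u u' : Tile} {x y y' : ℕ} (hx : 1 ≤ x) (h : (line x).isC) (hs : SameC u u')
    (hy : y = y' ∨ (2 ≤ y ∧ 2 ≤ y' ∧ y < NN ∧ y' < NN)) :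
    vf u x y = vf u' x y' := by
  rw [vf_pos u y hx, vf_pos u' y' hx, ← hs.w]
  have h2 := hs.2
  simp only [Tile.col, Prod.mk.injEq] at h2
  rw [← h2.2.2.1, ← h2.2.2.2]
  exact lv_C h hy

theorem hf_A {u u' : Tile} {x y : ℕ} (hy : 1 ≤ y) (h : (line y).isA) (hs : u.i = u'.i) :
    hf u x y = hf u' x y := by
  rw [hf_pos u x hy, hf_pos u' x hy, ← hs]
  exact lv_A h

theorem vf_A {u u' : Tile} {x y : ℕ} (hx : 1 ≤ x) (h : (line x).isA) (hs : u.j = u'.j) :
    vf u x y = vf u' x y := by
  rw [vf_pos u y hx, vf_pos u' y hx, ← hs]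
  exact lv_A h

theorem hf_B {u u' : Tile} {x y : ℕ} (hy : 1 ≤ y) (h : (line y).isB) (hs : u.j = u'.j)
    (hc : SameC u u') : hf u x y = hf u' x y := by
  rw [hf_pos u x hy, hf_pos u' x hy, ← hc.1, ← hs]
  exact lv_B h

theorem vf_B {u u' : Tile} {x y : ℕ} (hx : 1 ≤ x) (h : (line x).isB) (hs : u.i = u'.i)
    (hc : SameC u u') : vf u x y = vf u' x y := by
  rw [vf_pos u y hx, vf_pos u' y hx, ← hc.1, ← hs]
  exact lv_B h

theorem hf_0 {u u' : Tile} {x y : ℕ} (hy : 1 ≤ y) (hA : ¬ (line y).isA) (hB : ¬ (line y).isB)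
    (hC : ¬ (line y).isC) : hf u x y = hf u' x y := by
  rw [hf_pos u x hy, hf_pos u' x hy, lv_0 hA hB hC, lv_0 hA hB hC]

theorem vf_0 {u u' : Tile} {x y : ℕ} (hx : 1 ≤ x) (hA : ¬ (line x).isA) (hB : ¬ (line x).isB)
    (hC : ¬ (line x).isC) : vf u x y = vf u' x y := by
  rw [vf_pos u y hx, vf_pos u' y hx, lv_0 hA hB hC, lv_0 hA hB hC]

/-- cells of the ring column -/
theorem dep_x0 (y : ℕ) : (¬ (line y).isC → Dep1 0 y) ∧ ((line y).isC → Dep4 0 y) := by
  constructor
  · intro h u u' hs
    have hr := rg_P (a := u.i) (b := u.j) (cin := u.W) (cin' := u'.W) h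
    rcases Nat.eq_zero_or_pos y with h0 | h0
    · subst h0
      apply cell_eq_of
      · rw [hf_zero, hf_zero, rg_zero, rg_zero]
      · rw [hf_zero, hf_zero, rg_one, rg_one]
      · rw [vf_zero, vf_zero, ← hs.1, ← hs.2]; exact hr.1
      · rw [vf_zero, vf_zero, ← hs.1, ← hs.2]; exact hr.2
    · apply cell_eq_of
      · exact hf_P h0 h hs
      · exact hf_P h0 h hs
      · rw [vf_zero, vf_zero, ← hs.1, ← hs.2]; exact hr.1
      · rw [vf_zero, vf_zero, ← hs.1, ← hs.2]; exact hr.2
  · intro h u u' hs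
    have h0 := (isC_pos' h).2.2.1
    have h2 := hs.2
    simp only [Tile.col, Prod.mk.injEq] at h2
    have hr := rg_C (a := u.i) (b := u.j) (a' := u'.i) (b' := u'.j) (cin := u.W) h
    apply cell_eq_of
    · exact hf_C h0 h hs (Or.inl rfl)
    · exact hf_C h0 h hs (Or.inl rfl)
    · rw [vf_zero, vf_zero, ← h2.1]; exact hr.1
    · rw [vf_zero, vf_zero, ← h2.1]; exact hr.2

/-- cells of the ring row -/
theorem dep_y0 {x : ℕ} (hx : 1 ≤ x) :
    (¬ (line x).isC → Dep1 x 0) ∧ ((line x).isC → Dep4 x 0) := by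
  constructor
  · intro h u u' hs
    have hr := rg_P (a := u.j) (b := u.i) (cin := u.S) (cin' := u'.S) h
    apply cell_eq_of
    · rw [hf_zero, hf_zero, ← hs.1, ← hs.2]; exact hr.1
    · rw [hf_zero, hf_zero, ← hs.1, ← hs.2]; exact hr.2
    · exact vf_P hx h hs
    · exact vf_P hx h hs
  · intro h u u' hs
    have h2 := hs.2
    simp only [Tile.col, Prod.mk.injEq] at h2
    have hr := rg_C (a := u.j) (b := u.i) (a' := u'.j) (b' := u'.i) (cin := u.S) h
    apply cell_eq_of
    · rw [hf_zero, hf_zero, ← h2.2.2.1]; exact hr.1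
    · rw [hf_zero, hf_zero, ← h2.2.2.1]; exact hr.2
    · exact vf_C hx h hs (Or.inl rfl)
    · exact vf_C hx h hs (Or.inl rfl)

/-- cells of the last row -/
theorem dep_last {x : ℕ} (hx : 1 ≤ x) :
    (¬ (line x).isC → Dep1 x (NN - 1)) ∧ ((line x).isC → Dep4 x (NN - 1)) := by
  have hN := NN_ge
  have hA : ¬ (line (NN - 1)).isA := by rw [line_last]; exact id
  have hB : ¬ (line (NN - 1)).isB := by rw [line_last]; exact id
  have hC : ¬ (line (NN - 1)).isC := by rw [line_last]; exact id
  constructor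
  · intro h u u' hs
    apply cell_eq_of
    · exact hf_0 (by omega) hA hB hC
    · exact hf_0 (by omega) hA hB hC
    · exact vf_P hx h hs
    · exact vf_P hx h hs
  · intro h u u' hs
    apply cell_eq_of
    · exact hf_0 (by omega) hA hB hC
    · exact hf_0 (by omega) hA hB hC
    · exact vf_C hx h hs (Or.inl rfl)
    · exact vf_C hx h hs (Or.inl rfl)

theorem dep42 {x y : ℕ} (h : Dep4 x y) : Dep2 x y := fun u u' _ hs => h u u' hs

theorem f4 (x y : ℕ) : Dep1 x y ∨ Dep2 x y ∨ Dep3 x y := by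
  rcases Nat.eq_zero_or_pos x with h0 | hx
  · subst h0
    by_cases h : (line y).isC
    · exact Or.inr (Or.inl (dep42 ((dep_x0 y).2 h)))
    · exact Or.inl ((dep_x0 y).1 h)
  rcases Nat.eq_zero_or_pos y with h0 | hy
  · subst h0
    by_cases h : (line x).isC
    · exact Or.inr (Or.inl (dep42 ((dep_y0 hx).2 h)))
    · exact Or.inl ((dep_y0 hx).1 h)
  by_cases hr : (line y).isC
  · by_cases hc : (line x).isC
    · -- C x C
      right; left
      intro u u' _ hs
      exact cell_eq_of (hf_C hy hr hs (Or.inl rfl)) (hf_C hy hr hs (Or.inl rfl))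
        (vf_C hx hc hs (Or.inl rfl)) (vf_C hx hc hs (Or.inl rfl))
    · by_cases hA : (line x).isA
      · right; left
        intro u u' hj hs
        exact cell_eq_of (hf_C hy hr hs (Or.inl rfl)) (hf_C hy hr hs (Or.inl rfl))
          (vf_A hx hA hj) (vf_A hx hA hj)
      · by_cases hB : (line x).isB
        · right; right
          intro u u' hi hs
          exact cell_eq_of (hf_C hy hr hs (Or.inl rfl)) (hf_C hy hr hs (Or.inl rfl))
            (vf_B hx hB hi hs) (vf_B hx hB hi hs)
        · right; left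
          intro u u' hj hs
          exact cell_eq_of (hf_C hy hr hs (Or.inl rfl)) (hf_C hy hr hs (Or.inl rfl))
            (vf_0 hx hA hB hc) (vf_0 hx hA hB hc)
  · by_cases hc : (line x).isC
    · by_cases hA : (line y).isA
      · right; right
        intro u u' hi hs
        exact cell_eq_of (hf_A hy hA hi) (hf_A hy hA hi)
          (vf_C hx hc hs (Or.inl rfl)) (vf_C hx hc hs (Or.inl rfl))
      · by_cases hB : (line y).isB
        · right; left
          intro u u' hj hs
          exact cell_eq_of (hf_B hy hB hj hs) (hf_B hy hB hj hs)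
            (vf_C hx hc hs (Or.inl rfl)) (vf_C hx hc hs (Or.inl rfl))
        · right; left
          intro u u' hj hs
          exact cell_eq_of (hf_0 hy hA hB hr) (hf_0 hy hA hB hr)
            (vf_C hx hc hs (Or.inl rfl)) (vf_C hx hc hs (Or.inl rfl))
    · left
      intro u u' hs
      exact cell_eq_of (hf_P hy hr hs) (hf_P hy hr hs) (vf_P hx hc hs) (vf_P hx hc hs)

/-! ### change of colours -/

/-- the difference of the bit vectors -/
noncomputable def gam (u u' : Tile) : Bt → Bool := fun β => u.w β ^^ u'.w β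

theorem gam_inr {u u' : Tile} (hs : SameP u u') (k : Fin bb) : gam u u' (Sum.inr k) = false := by
  have : u.w (Sum.inr k) = u'.w (Sum.inr k) := by
    show code (role u.i u.j) k = code (role u'.i u'.j) k
    rw [hs.1, hs.2]
  unfold gam
  rw [this, Bool.xor_self]

/-- rows -/
theorem hf_tau {u u' : Tile} (hs : SameP u u') {x x' y : ℕ} (hx : 1 ≤ x) (hx' : 1 ≤ x') (hy : 1 ≤ y)
    (hsim : Sim x x') : hf u' x y = hf u x' (perm (tau Sd.E Sd.W (gam u u')) y) := by
  have hg := tau_good Sd.E Sd.W (gam u u')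
  rw [hf_pos u' x hy, hf_pos u x' (perm_pos hg hy), line_perm hg, ← hs.1, ← hs.2]
  exact (lv_tau (fun _ => rfl) (fun _ => rfl) (fun _ => rfl) (fun _ => rfl)
    (fun i => rowInt_tau _ _ i) hx hx' hsim _).symm

/-- columns -/
theorem vf_tau {u u' : Tile} (hs : SameP u u') {x y y' : ℕ} (hy : 1 ≤ y) (hy' : 1 ≤ y') (hx : 1 ≤ x)
    (hsim : Sim y y') : vf u' x y = vf u (perm (tau Sd.N Sd.S (gam u u')) x) y' := by
  have hg := tau_good Sd.N Sd.S (gam u u')
  rw [vf_pos u' y hx, vf_pos u y' (perm_pos hg hx), line_perm hg, ← hs.1, ← hs.2]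
  exact (lv_tau (fun _ => rfl) (fun _ => rfl) (fun _ => rfl) (fun _ => rfl)
    (fun i => colInt_tau _ _ i) hy hy' hsim _).symm

theorem twoR_tau (γ : Bt → Bool) (i : II) : twoR (tauII γ i) = twoR i := by cases i <;> rfl

/-- **colour change, inner region** -/
theorem match_inner {u u' : Tile} (hs : SameP u u') {x y : ℕ} (hx : 1 ≤ x)
    (hy : 1 ≤ y) (hyN : y + 2 ≤ NN) :
    role (perm (tau Sd.N Sd.S (gam u u')) x) (perm (tau Sd.E Sd.W (gam u u')) y) = role x y ∧
    cell u' x y =
      cell u (perm (tau Sd.N Sd.S (gam u u')) x) (perm (tau Sd.E Sd.W (gam u u')) y) := by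
  have hgC := tau_good Sd.N Sd.S (gam u u')
  have hgR := tau_good Sd.E Sd.W (gam u u')
  obtain ⟨sx1, sx2⟩ := sim_perm (so := Sd.N) (si := Sd.S) (γ := gam u u') x
  obtain ⟨sy1, sy2⟩ := sim_perm (so := Sd.E) (si := Sd.W) (γ := gam u u') y
  constructor
  · by_cases h22 : x % 8 = 2 ∧ y % 8 = 2
    · have hlx : line x = .sel (x / 8) := line_sel_iff.2 (by omega)
      have hly : line y = .sel (y / 8) := line_sel_iff.2 (by omega)
      rw [perm_of_fix (by rw [hlx]; rfl), perm_of_fix (by rw [hly]; rfl)]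
    · apply role_eq_of_kind (perm_mod hgC x) (perm_mod hgR y) h22
      have e1 := (perm_zero hgC (x := x)).not.2 (by omega)
      have e2 := (perm_zero hgR (x := y)).not.2 (by omega)
      unfold kind
      rw [if_neg e1, if_neg e2, if_neg (by omega), if_neg (by omega)]
      unfold rtOf ctOf
      rw [line_perm hgC, line_perm hgR, linkOf_tau (gam_inr hs),
        trOf_tau _ _ _ _ _ (twoR_tau _) (perm_one hgC).symm (perm_last hgC).symm (Or.inl fun _ => rfl),
        trOf_tau _ _ _ _ _ (fun _ => rfl) (perm_one hgR).symm (perm_last hgR).symm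
          (Or.inr (by omega))]
  · unfold cell
    rw [hf_tau hs hx (perm_pos hgC hx) hy sx1, hf_tau hs (by omega) (by omega) hy sx2,
      vf_tau hs hy (perm_pos hgR hy) hx sy1, vf_tau hs (by omega) (by omega) hx sy2]

/-! ### rows and columns, change of colours -/

/-- rows that carry no colour line, `1 ≤ y ≤ NN - 2` -/
theorem row_matchP {y : ℕ} (hy : 1 ≤ y) (hyN : y + 2 ≤ NN) (h : ¬ (line y).isC) {u u' : Tile}
    (hs : SameP u u') : RowMatch y u u' := by
  have hgC := tau_good Sd.N Sd.S (gam u u')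
  refine ⟨perm (tau Sd.N Sd.S (gam u u')), fun x hx => perm_lt hgC hx, fun x => perm_perm hgC x, ?_⟩
  intro x hx
  rcases Nat.eq_zero_or_pos x with h0 | h0
  · subst h0
    rw [(perm_zero hgC).2 rfl]
    exact ⟨rfl, ((dep_x0 y).1 h u u' hs).symm⟩
  · have := match_inner hs h0 hy hyN
    rw [perm_of_fix (tau_fix h) (τ := tau Sd.E Sd.W (gam u u'))] at this
    exact this

theorem col_matchP {x : ℕ} (hx : 1 ≤ x) (hxN : x < NN) (h : ¬ (line x).isC) {u u' : Tile}
    (hs : SameP u u') : ColMatch x u u' := by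
  have hgR := tau_good Sd.E Sd.W (gam u u')
  refine ⟨perm (tau Sd.E Sd.W (gam u u')), fun y hy => perm_lt hgR hy, fun y => perm_perm hgR y, ?_⟩
  intro y hy
  rcases Nat.eq_zero_or_pos y with h0 | h0
  · subst h0
    rw [(perm_zero hgR).2 rfl]
    exact ⟨rfl, ((dep_y0 hx).1 h u u' hs).symm⟩
  by_cases hyl : y = NN - 1
  · subst hyl
    rw [(perm_last hgR).2 rfl]
    exact ⟨rfl, ((dep_last hx).1 h u u' hs).symm⟩
  · have := match_inner hs hx h0 (y := y) (by omega)
    rw [perm_of_fix (tau_fix h) (τ := tau Sd.N Sd.S (gam u u'))] at this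
    exact this

/-! ### rows and columns, change of position -/

theorem row_matchC {y : ℕ} (h : (line y).isC) {u u' : Tile} (hs : SameC u u') :
    RowMatch y u u' := by
  have hN := NN_ge
  obtain ⟨hy1, hy2, hy3, hy4⟩ := isC_pos' h
  have hg : GoodInv (tau' u.j u'.j u.i u'.i) := tau'_good u.hi u'.hi
  have hr8 := r8_of_role hs.1
  have hcol := hs.2
  simp only [Tile.col, Prod.mk.injEq] at hcol
  refine ⟨perm (tau' u.j u'.j u.i u'.i), fun x hx => perm_lt hg hx, fun x => perm_perm hg x, ?_⟩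
  intro x hx
  rcases Nat.eq_zero_or_pos x with h0 | h0
  · subst h0
    rw [(perm_zero hg).2 rfl]
    exact ⟨rfl, ((dep_x0 y).2 h u u' hs).symm⟩
  have hp0 := perm_pos hg h0
  constructor
  · apply role_eq_of_kind (perm_mod hg x) rfl (fun h => hy4 h.2)
    unfold kind
    rw [if_neg (by omega), if_neg (by omega), if_neg (by omega), if_neg (by omega)]
    unfold rtOf ctOf
    have e3 : ∀ (two chk : II → Bool) (l : Line),
        trOf two chk l (perm (tau' u.j u'.j u.i u'.i) x) = trOf two chk l x := by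
      intro two chk l
      have e1 := perm_one hg (x := x)
      have e2 := perm_last hg (x := x)
      unfold trOf
      simp only [e1, e2]
    rw [line_perm hg, linkOf_tau'_right h, e3, trOf_tau' _ _ _ _ _ _ Iff.rfl Iff.rfl]
  · have hne : ∀ z, (z = x ∨ z = x + 1) →
        hf u' z y = hf u (if z = x then perm (tau' u.j u'.j u.i u'.i) x
          else perm (tau' u.j u'.j u.i u'.i) x + 1) y := by
      intro z hz
      have hsym : SameC u' u := ⟨hs.1.symm, hs.2.symm⟩
      by_cases hln : line x = .none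
      · rw [perm_of_none hln]
        rcases hz with rfl | rfl
        · rw [if_pos rfl]; exact hf_C hy3 h hsym (Or.inl rfl)
        · rw [if_neg (by omega)]; exact hf_C hy3 h hsym (Or.inl rfl)
      · have hb := perm_bound hg hx hln
        have hb' := line_bounds hx hln
        rcases hz with rfl | rfl
        · rw [if_pos rfl]; exact hf_C hy3 h hsym (Or.inr ⟨by omega, by omega, by omega, by omega⟩)
        · rw [if_neg (by omega)]
          exact hf_C hy3 h hsym (Or.inr ⟨by omega, by omega, by omega, by omega⟩)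
    have h1 := hne x (Or.inl rfl)
    have h2 := hne (x + 1) (Or.inr rfl)
    rw [if_pos rfl] at h1
    rw [if_neg (by omega)] at h2
    have hv : ∀ z, 8 * (2 * ell) + 3 < z → z < NN →
        vf u' x z = vf u (perm (tau' u.j u'.j u.i u'.i) x) z := by
      intro z hz hzN
      rw [vf_pos u' z h0, vf_pos u z hp0, line_perm hg, ← hs.w, ← hs.1, ← hcol.2.2.1, ← hcol.2.2.2]
      exact (lv_tau' hr8.1 hz hzN _).symm
    unfold cell
    rw [h1, h2, hv y hy1 (by omega), hv (y + 1) (by omega) (by omega)]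

theorem col_matchC {x : ℕ} (h : (line x).isC) {u u' : Tile} (hs : SameC u u') :
    ColMatch x u u' := by
  have hN := NN_ge
  obtain ⟨hx1, hx2, hx3, hx4⟩ := isC_pos' h
  have hg : GoodInv (tau' u.i u'.i u.j u'.j) := tau'_good u.hj u'.hj
  have hr8 := r8_of_role hs.1
  have hcol := hs.2
  simp only [Tile.col, Prod.mk.injEq] at hcol
  refine ⟨perm (tau' u.i u'.i u.j u'.j), fun y hy => perm_lt hg hy, fun y => perm_perm hg y, ?_⟩
  intro y hy
  rcases Nat.eq_zero_or_pos y with h0 | h0
  · subst h0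
    rw [(perm_zero hg).2 rfl]
    exact ⟨rfl, ((dep_y0 hx3).2 h u u' hs).symm⟩
  have hp0 := perm_pos hg h0
  constructor
  · apply role_eq_of_kind rfl (perm_mod hg y) (fun h => hx4 h.1)
    unfold kind
    rw [if_neg (by omega), if_neg (by omega), if_neg (by omega), if_neg (by omega)]
    unfold rtOf ctOf
    have e3 : ∀ (two chk : II → Bool) (l : Line),
        trOf two chk l (perm (tau' u.i u'.i u.j u'.j) y) = trOf two chk l y := by
      intro two chk l
      have e1 := perm_one hg (x := y)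
      have e2 := perm_last hg (x := y)
      unfold trOf
      simp only [e1, e2]
    rw [line_perm hg, linkOf_tau'_left h, e3, trOf_tau' _ _ _ _ _ _ Iff.rfl Iff.rfl]
  · have hne : ∀ z, (z = y ∨ z = y + 1) →
        vf u' x z = vf u x (if z = y then perm (tau' u.i u'.i u.j u'.j) y
          else perm (tau' u.i u'.i u.j u'.j) y + 1) := by
      intro z hz
      have hsym : SameC u' u := ⟨hs.1.symm, hs.2.symm⟩
      by_cases hln : line y = .none
      · rw [perm_of_none hln]
        rcases hz with rfl | rfl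
        · rw [if_pos rfl]; exact vf_C hx3 h hsym (Or.inl rfl)
        · rw [if_neg (by omega)]; exact vf_C hx3 h hsym (Or.inl rfl)
      · have hb := perm_bound hg hy hln
        have hb' := line_bounds hy hln
        rcases hz with rfl | rfl
        · rw [if_pos rfl]; exact vf_C hx3 h hsym (Or.inr ⟨by omega, by omega, by omega, by omega⟩)
        · rw [if_neg (by omega)]
          exact vf_C hx3 h hsym (Or.inr ⟨by omega, by omega, by omega, by omega⟩)
    have h1 := hne y (Or.inl rfl)
    have h2 := hne (y + 1) (Or.inr rfl)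
    rw [if_pos rfl] at h1
    rw [if_neg (by omega)] at h2
    have hv : ∀ z, 8 * (2 * ell) + 3 < z → z < NN →
        hf u' z y = hf u z (perm (tau' u.i u'.i u.j u'.j) y) := by
      intro z hz hzN
      rw [hf_pos u' z h0, hf_pos u z hp0, line_perm hg, ← hs.w, ← hs.1, ← hcol.1, ← hcol.2.1]
      exact (lv_tau' hr8.2 hz hzN _).symm
    unfold cell
    rw [h1, h2, hv x hx1 (by omega), hv (x + 1) (by omega) (by omega)]

theorem fr (y : ℕ) (hyN : y < NN) : (∀ x, x < NN → Dep1 x y ∨ Dep4 x y) ∨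
    (∀ u u' : Tile, SameP u u' → RowMatch y u u') ∨
    (∀ u u' : Tile, SameC u u' → RowMatch y u u') := by
  have hd0 : ∀ y, Dep1 0 y ∨ Dep4 0 y := by
    intro y
    by_cases h : (line y).isC
    · exact Or.inr ((dep_x0 y).2 h)
    · exact Or.inl ((dep_x0 y).1 h)
  rcases Nat.eq_zero_or_pos y with h0 | h0
  · left
    intro x hx
    subst h0
    rcases Nat.eq_zero_or_pos x with h1 | h1
    · subst h1; exact hd0 0
    · by_cases h : (line x).isC
      · exact Or.inr ((dep_y0 h1).2 h)
      · exact Or.inl ((dep_y0 h1).1 h)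
  by_cases hl : y = NN - 1
  · left
    intro x hx
    subst hl
    rcases Nat.eq_zero_or_pos x with h1 | h1
    · subst h1; exact hd0 _
    · by_cases h : (line x).isC
      · exact Or.inr ((dep_last h1).2 h)
      · exact Or.inl ((dep_last h1).1 h)
  right
  by_cases h : (line y).isC
  · exact Or.inr fun u u' hs => row_matchC h hs
  · exact Or.inl fun u u' hs => row_matchP h0 (by omega) h hs

theorem fc (x : ℕ) (hxN : x < NN) : (∀ y, y < NN → Dep1 x y ∨ Dep4 x y) ∨
    (∀ u u' : Tile, SameP u u' → ColMatch x u u') ∨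
    (∀ u u' : Tile, SameC u u' → ColMatch x u u') := by
  rcases Nat.eq_zero_or_pos x with h0 | h0
  · left
    intro y hy
    subst h0
    by_cases h : (line y).isC
    · exact Or.inr ((dep_x0 y).2 h)
    · exact Or.inl ((dep_x0 y).1 h)
  right
  by_cases h : (line x).isC
  · exact Or.inr fun u u' hs => col_matchC h hs
  · exact Or.inl fun u u' hs => col_matchP h0 hxN h hs

end Pool.Agent.MPa03d92.C
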