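import Mathlib
import Pool.Agent.Work.MP_a03d92_mp.Bal4

/-!
# MP_a03d92_mp : Part C, balance: global matching, `balFacts`
-/

set_option autoImplicit false
open scoped Classical

namespace Pool.Agent.MPa03d92.C

/-! ### ring column and ring row -/

theorem match_x0 {u u' : Tile} (hs : SameP u u') (y : ℕ) :
    role 0 (perm (tau Sd.W Sd.W (gam u u')) y) = role 0 y ∧
    cell u' 0 y = cell u 0 (perm (tau Sd.W Sd.W (gam u u')) y) := by
  have hg := tau_good Sd.W Sd.W (gam u u')
  constructor
  · apply role_eq_of_kind rfl (perm_mod hg y) (by omega)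
    unfold kind
    rw [if_pos rfl, if_pos rfl, line_perm hg]
    rcases line y with _ | _ | t | ⟨(k | k | x), s⟩ | ⟨(k | k | x), s⟩ | i <;> rfl
  · rcases Nat.eq_zero_or_pos y with h0 | h0
    · subst h0
      rw [(perm_zero hg).2 rfl]
      exact ((dep_x0 0).1 (by rw [line_zero]; exact id) u u' hs).symm
    · have hr := rg_tau (si := Sd.W) (so := Sd.W) (w := u.w) (w' := u'.w) (cin := u.W) (cin' := u'.W)
        (a := u.i) (b := u.j) (fun _ => rfl) (fun _ => rfl) rfl y
      have hp := perm_pos hg h0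
      unfold cell
      rw [hf_pos u' 0 h0, hf_pos u' (0 + 1) h0, hf_pos u 0 hp, hf_pos u (0 + 1) hp, vf_zero, vf_zero,
        vf_zero, vf_zero, line_perm hg, ← hs.1, ← hs.2]
      have e0 := lv_tau_ring (si := Sd.W) (w := u.w) (w' := u'.w) (a := u.i) (b := u.j)
        (cin := u.W) (cin' := u'.W) (cout := u.E) (cout' := u'.E) (th := role u.i u.j)
        (ic := rowInt u.w) (ic' := rowInt u'.w) (fun _ => rfl) (fun _ => rfl) (x := 0) (by omega)
        (line y)
      have e1 := lv_tau_ring (si := Sd.W) (w := u.w) (w' := u'.w) (a := u.i) (b := u.j)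
        (cin := u.W) (cin' := u'.W) (cout := u.E) (cout' := u'.E) (th := role u.i u.j)
        (ic := rowInt u.w) (ic' := rowInt u'.w) (fun _ => rfl) (fun _ => rfl) (x := 1) le_rfl
        (line y)
      unfold gam
      rw [e0, e1, hr.1, hr.2]

theorem match_y0 {u u' : Tile} (hs : SameP u u') {x : ℕ} (h0 : 1 ≤ x) :
    role (perm (tau Sd.S Sd.S (gam u u')) x) 0 = role x 0 ∧
    cell u' x 0 = cell u (perm (tau Sd.S Sd.S (gam u u')) x) 0 := by
  have hg := tau_good Sd.S Sd.S (gam u u')
  have hp := perm_pos hg h0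
  constructor
  · apply role_eq_of_kind (perm_mod hg x) rfl (by omega)
    unfold kind
    rw [if_neg (by omega), if_pos rfl, if_neg (by omega), if_pos rfl, line_perm hg]
    rcases line x with _ | _ | t | ⟨(k | k | x), s⟩ | ⟨(k | k | x), s⟩ | i <;> rfl
  · have hr := rg_tau (si := Sd.S) (so := Sd.S) (w := u.w) (w' := u'.w) (cin := u.S) (cin' := u'.S)
      (a := u.j) (b := u.i) (fun _ => rfl) (fun _ => rfl) rfl x
    unfold cell
    rw [vf_pos u' 0 h0, vf_pos u' (0 + 1) h0, vf_pos u 0 hp, vf_pos u (0 + 1) hp, hf_zero, hf_zero,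
      hf_zero, hf_zero, line_perm hg, ← hs.1, ← hs.2]
    have e0 := lv_tau_ring (si := Sd.S) (w := u.w) (w' := u'.w) (a := u.j) (b := u.i)
      (cin := u.S) (cin' := u'.S) (cout := u.N) (cout' := u'.N) (th := role u.i u.j)
      (ic := colInt u.w) (ic' := colInt u'.w) (fun _ => rfl) (fun _ => rfl) (x := 0) (by omega)
      (line x)
    have e1 := lv_tau_ring (si := Sd.S) (w := u.w) (w' := u'.w) (a := u.j) (b := u.i)
      (cin := u.S) (cin' := u'.S) (cout := u.N) (cout' := u'.N) (th := role u.i u.j)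
      (ic := colInt u.w) (ic' := colInt u'.w) (fun _ => rfl) (fun _ => rfl) (x := 1) le_rfl
      (line x)
    unfold gam
    rw [e0, e1, hr.1, hr.2]

/-! ### the last row -/

/-- involution for the last row: the last gates are only permuted by the swap of the masks `¬w`, `¬w'` -/
noncomputable def tauE (w w' : Bt → Bool) : Line → Line
  | .int (.gate m k) => if k.val + 1 = KK then
      .int (.gate (Equiv.swap (fun β => !w β) (fun β => !w' β) m) k)
    else .int (tauII (fun β => w β ^^ w' β) (.gate m k))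
  | l => tau Sd.N Sd.S (fun β => w β ^^ w' β) l

theorem tauE_other (w w' : Bt → Bool) (l : Line)
    (h : ∀ m k, k.val + 1 = KK → l ≠ .int (.gate m k)) :
    tauE w w' l = tau Sd.N Sd.S (fun β => w β ^^ w' β) l := by
  rcases l with _ | _ | t | ⟨(k | k | x), s⟩ | ⟨(k | k | x), s⟩ | ⟨β, s⟩ | ⟨m, k⟩ <;> try rfl
  have hk : ¬ (k.val + 1 = KK) := fun hk => h m k hk rfl
  simp only [tauE, if_neg hk]
  rfl

theorem tauE_gate (w w' m : Bt → Bool) (k : Fin KK) (hk : k.val + 1 = KK) :
    tauE w w' (.int (.gate m k)) = .int (.gate (Equiv.swap (fun β => !w β) (fun β => !w' β) m) k) := by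
  simp only [tauE, if_pos hk]

theorem tauE_good (w w' : Bt → Bool) : GoodInv (tauE w w') := by
  have hg := tau_good Sd.N Sd.S (fun β => w β ^^ w' β)
  have hcase : ∀ l : Line, (∃ (m : Bt → Bool) (k : Fin KK), k.val + 1 = KK ∧ l = .int (.gate m k)) ∨
      (∀ (m : Bt → Bool) (k : Fin KK), k.val + 1 = KK → l ≠ .int (.gate m k)) := by
    intro l
    by_cases h : ∃ (m : Bt → Bool) (k : Fin KK), k.val + 1 = KK ∧ l = .int (.gate m k)
    · exact Or.inl h
    · right
      intro m k hk hl
      exact h ⟨m, k, hk, hl⟩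
  refine ⟨?_, rfl, ?_, ?_⟩
  · intro l
    rcases hcase l with ⟨m, k, hk, rfl⟩ | h
    · rw [tauE_gate _ _ _ _ hk, tauE_gate _ _ _ _ hk, Equiv.swap_apply_self]
    · rw [tauE_other _ _ _ h, tauE_other, hg.inv]
      intro m k hk hl
      rcases l with _ | _ | t | ⟨(k | k | x), s⟩ | ⟨(k | k | x), s⟩ | ⟨β, s⟩ | ⟨m', k'⟩ <;>
        simp only [tau, tauII, reduceCtorEq, Line.int.injEq, II.gate.injEq] at hl
      exact h m' k' (hl.2 ▸ hk) rfl
  · intro l h1 h2 t ht
    rcases hcase l with ⟨m, k, hk, rfl⟩ | h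
    · rw [tauE_gate _ _ _ _ hk] at ht; cases ht
    · rw [tauE_other _ _ _ h] at ht; exact hg.rng l h1 h2 t ht
  · intro l
    rcases hcase l with ⟨m, k, hk, rfl⟩ | h
    · rw [tauE_gate _ _ _ _ hk]; simp only [posL]; omega
    · rw [tauE_other _ _ _ h]; exact hg.res l

theorem swap_not_good {w w' m : Bt → Bool} (hw : good w) (hw' : good w') :
    good (fun β => !(Equiv.swap (fun β => !w β) (fun β => !w' β) m) β) ↔ good (fun β => !m β) := by
  by_cases h1 : m = fun β => !w β
  · subst h1
    rw [Equiv.swap_apply_left]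
    simp only [Bool.not_not]
    exact iff_of_true hw' hw
  · by_cases h2 : m = fun β => !w' β
    · subst h2
      rw [Equiv.swap_apply_right]
      simp only [Bool.not_not]
      exact iff_of_true hw hw'
    · rw [Equiv.swap_apply_of_ne_of_ne h1 h2]

theorem not_eq_comm' {w m : Bt → Bool} : (w = fun β => !m β) ↔ (m = fun β => !w β) := by
  constructor <;> (intro h; rw [h]; simp)

theorem colInt_tauE (w w' : Bt → Bool) (m : Bt → Bool) (k : Fin KK) (hk : k.val + 1 = KK) :
    colInt w (.gate (Equiv.swap (fun β => !w β) (fun β => !w' β) m) k) = colInt w' (.gate m k) := by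
  simp only [colInt]
  congr 1
  rw [hk, Bool.eq_iff_iff, Apre_last, Apre_last]
  have h1 : (w = fun β => !(Equiv.swap (fun β => !w β) (fun β => !w' β) m) β) ↔
      Equiv.swap (fun β => !w β) (fun β => !w' β) m = fun β => !w β := not_eq_comm'
  have h2 : (w' = fun β => !m β) ↔ m = fun β => !w' β := not_eq_comm'
  rw [h1, h2, Equiv.swap_apply_eq_iff, Equiv.swap_apply_left]

theorem chkC_swap {w w' m : Bt → Bool} (hw : good w) (hw' : good w') (k : Fin KK) :
    chkC (.gate (Equiv.swap (fun β => !w β) (fun β => !w' β) m) k) = chkC (.gate m k) := by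
  simp only [chkC]
  exact dec_congr (and_congr Iff.rfl (not_congr (swap_not_good hw hw')))

theorem chkC_tau {γ : Bt → Bool} {i : II} (h : ∀ m k, k.val + 1 = KK → i ≠ .gate m k) :
    chkC (tauII γ i) = chkC i := by
  cases i with
  | lit β a => rfl
  | gate m k =>
    have hk : ¬ (k.val + 1 = KK) := fun hk => h m k hk rfl
    have e1 : ∀ (p : Prop), dec (k.val + 1 = KK ∧ p) = false := by
      intro p; rw [dec_false_iff]; intro h; exact hk h.1
    simp only [tauII, chkC]
    rw [e1, e1]

theorem match_last {u u' : Tile} (hs : SameP u u') {x : ℕ} (h0 : 1 ≤ x) :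
    role (perm (tauE u.w u'.w) x) (NN - 1) = role x (NN - 1) ∧
    cell u' x (NN - 1) = cell u (perm (tauE u.w u'.w) x) (NN - 1) := by
  have hN := NN_ge
  have hN' := NN_eq'
  have hg := tauE_good u.w u'.w
  have hp := perm_pos hg h0
  have hcase : (∃ (m : Bt → Bool) (k : Fin KK), k.val + 1 = KK ∧ line x = .int (.gate m k)) ∨
      (∀ (m : Bt → Bool) (k : Fin KK), k.val + 1 = KK → line x ≠ .int (.gate m k)) := by
    by_cases h : ∃ (m : Bt → Bool) (k : Fin KK), k.val + 1 = KK ∧ line x = .int (.gate m k)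
    · exact Or.inl h
    · right
      intro m k hk hl
      exact h ⟨m, k, hk, hl⟩
  constructor
  · apply role_eq_of_kind (perm_mod hg x) rfl (by omega)
    unfold kind
    rw [if_neg (by omega), if_neg (by omega), if_neg (by omega), if_neg (by omega)]
    unfold rtOf ctOf
    rw [line_last, linkOf_none_left, linkOf_none_left, line_perm hg]
    simp only [LT.isR, LT.isC, Bool.false_eq_true, if_false]
    congr 1
    congr 1
    rcases hcase with ⟨m, k, hk, hl⟩ | h
    · rw [hl, tauE_gate _ _ _ _ hk]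
      simp only [trOf, chkC_swap u.good_w u'.good_w]
    · rw [tauE_other _ _ _ h]
      rcases hl : line x with _ | _ | t | ⟨(k | k | c), s⟩ | ⟨(k | k | c), s⟩ | i <;>
        simp only [tau, trOf]
      rw [chkC_tau (fun m k hk hi => h m k hk (by rw [hl, hi]))]
  · have e0 : ∀ z, hf u' z (NN - 1) = blank := by
      intro z
      rw [hf_pos _ _ (by omega), line_last]; rfl
    have e0' : ∀ z, hf u z (NN - 1) = blank := by
      intro z
      rw [hf_pos _ _ (by omega), line_last]; rfl
    have key : ∀ z, 2 ≤ z → z ≤ NN → vf u' x z = vf u (perm (tauE u.w u'.w) x) z := by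
      intro z hz hzN
      rw [vf_pos u' z h0, vf_pos u z hp, line_perm hg, ← hs.1, ← hs.2]
      rcases hcase with ⟨m, k, hk, hl⟩ | h
      · rw [hl, tauE_gate _ _ _ _ hk]
        simp only [lv]
        rw [colInt_tauE _ _ _ _ hk]
      · rw [tauE_other _ _ _ h]
        exact (lv_tau (fun _ => rfl) (fun _ => rfl) (fun _ => rfl) (fun _ => rfl)
          (fun i => colInt_tau _ _ i) (by omega) (by omega) (Or.inl rfl) _).symm
    unfold cell
    rw [e0, e0, e0', e0', key _ (by omega) (by omega), key _ (by omega) (by omega)]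

/-! ### global matching -/

noncomputable def PhiM (u u' : Tile) (z : ℕ × ℕ) : ℕ × ℕ :=
  if z.1 = 0 then (0, perm (tau Sd.W Sd.W (gam u u')) z.2)
  else if z.2 = 0 then (perm (tau Sd.S Sd.S (gam u u')) z.1, 0)
  else if z.2 = NN - 1 then (perm (tauE u.w u'.w) z.1, NN - 1)
  else (perm (tau Sd.N Sd.S (gam u u')) z.1, perm (tau Sd.E Sd.W (gam u u')) z.2)

theorem f1 {u u' : Tile} (hs : SameP u u') : AllMatch u u' := by
  have hN := NN_ge
  have gW := tau_good Sd.W Sd.W (gam u u')
  have gS := tau_good Sd.S Sd.S (gam u u')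
  have gC := tau_good Sd.N Sd.S (gam u u')
  have gR := tau_good Sd.E Sd.W (gam u u')
  have gE := tauE_good u.w u'.w
  refine ⟨PhiM u u', ?_, ?_, ?_⟩
  · rintro ⟨x, y⟩ hx hy
    simp only at hx hy
    unfold PhiM
    simp only
    split_ifs with h1 h2 h3
    · exact ⟨by omega, perm_lt gW hy⟩
    · exact ⟨perm_lt gS hx, by omega⟩
    · exact ⟨perm_lt gE hx, by omega⟩
    · exact ⟨perm_lt gC hx, perm_lt gR hy⟩
  · rintro ⟨x, y⟩
    by_cases h1 : x = 0
    · subst h1
      simp only [PhiM, if_true, perm_perm gW]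
    · by_cases h2 : y = 0
      · subst h2
        have e := (perm_zero gS (x := x)).not.2 h1
        simp only [PhiM, if_neg h1, if_true, if_neg e, perm_perm gS]
      · by_cases h3 : y = NN - 1
        · subst h3
          have e := (perm_zero gE (x := x)).not.2 h1
          simp only [PhiM, if_neg h1, if_neg h2, if_true, if_neg e, perm_perm gE]
        · have e := (perm_zero gC (x := x)).not.2 h1
          have e2 := (perm_zero gR (x := y)).not.2 h2
          have e3 := (perm_last gR (x := y)).not.2 h3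
          simp only [PhiM, if_neg h1, if_neg h2, if_neg h3, if_neg e, if_neg e2, if_neg e3,
            perm_perm gC, perm_perm gR]
  · rintro ⟨x, y⟩ hx hy
    simp only at hx hy
    unfold PhiM
    simp only
    split_ifs with h1 h2 h3
    · subst h1; exact match_x0 hs y
    · subst h2; exact match_y0 hs (by omega)
    · subst h3; exact match_last hs (by omega)
    · exact match_inner hs (by omega) (by omega) (by omega)

/-- the pointwise facts of the balance lemma -/
theorem balFacts : BalFacts where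
  f4 := fun x y _ _ => f4 x y
  fr := fr
  fc := fc
  f1 := fun _ _ hs => f1 hs

end Pool.Agent.MPa03d92.C
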