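import Mathlib
import Pool.Agent.Work.MP_a03d92_mp.SubDef

/-!
# MP_a03d92_mp : Part C, the balance lemma from the pointwise facts
-/

set_option autoImplicit false
open scoped Classical

namespace Pool.Agent.MPa03d92.C

/-! ### the tiles of a macro-tile -/

theorem Sub_eq {u : Tile} {a b : ℕ} (h : a < NN ∧ b < NN) :
    u.Sub a b = ⟨a, b, hf u a b, hf u (a + 1) b, vf u a b, vf u a (b + 1), h.1, h.2,
      cell_valid u h.1 h.2⟩ := by
  unfold Tile.Sub; rw [dif_pos h]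

theorem Sub_i {u : Tile} {a b : ℕ} (h : a < NN ∧ b < NN) : (u.Sub a b).i = a := by rw [Sub_eq h]
theorem Sub_j {u : Tile} {a b : ℕ} (h : a < NN ∧ b < NN) : (u.Sub a b).j = b := by rw [Sub_eq h]
theorem Sub_col {u : Tile} {a b : ℕ} (h : a < NN ∧ b < NN) : (u.Sub a b).col = cell u a b := by
  rw [Sub_eq h]; rfl

theorem Sub_congr {u u' : Tile} {a b : ℕ} (h : a < NN ∧ b < NN) (hc : cell u a b = cell u' a b) :
    u.Sub a b = u'.Sub a b := by
  unfold cell at hc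
  simp only [Prod.mk.injEq] at hc
  rw [Sub_eq h, Sub_eq h]
  ext1
  · rfl
  · rfl
  · exact hc.1
  · exact hc.2.1
  · exact hc.2.2.1
  · exact hc.2.2.2

theorem Sub_sameC {u u' : Tile} {a b a' b' : ℕ} (h : a < NN ∧ b < NN) (h' : a' < NN ∧ b' < NN)
    (hr : role a b = role a' b') (hc : cell u a b = cell u' a' b') :
    SameC (u.Sub a b) (u'.Sub a' b') := by
  refine ⟨?_, ?_⟩
  · rw [Sub_i h, Sub_j h, Sub_i h', Sub_j h', hr]
  · rw [Sub_col h, Sub_col h', hc]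

/-! ### invariant functions -/

/-- constant functions -/
def M0 : Submodule ℝ (Tile → ℝ) where
  carrier := {ψ | ∀ u u', ψ u = ψ u'}
  zero_mem' := fun _ _ => rfl
  add_mem' := fun {f g} hf hg u u' => by rw [Pi.add_apply, Pi.add_apply, hf u u', hg u u']
  smul_mem' := fun c f hf u u' => by rw [Pi.smul_apply, Pi.smul_apply, hf u u']

/-- functions of the position -/
def M1 : Submodule ℝ (Tile → ℝ) where
  carrier := {ψ | ∀ u u', SameP u u' → ψ u = ψ u'}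
  zero_mem' := fun _ _ _ => rfl
  add_mem' := fun {f g} hf hg u u' h => by rw [Pi.add_apply, Pi.add_apply, hf u u' h, hg u u' h]
  smul_mem' := fun c f hf u u' h => by rw [Pi.smul_apply, Pi.smul_apply, hf u u' h]

/-- functions of the second coordinate, role, colours -/
def M2 : Submodule ℝ (Tile → ℝ) where
  carrier := {ψ | ∀ u u' : Tile, u.j = u'.j → SameC u u' → ψ u = ψ u'}
  zero_mem' := fun _ _ _ _ => rfl
  add_mem' := fun {f g} hf hg u u' h k => by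
    rw [Pi.add_apply, Pi.add_apply, hf u u' h k, hg u u' h k]
  smul_mem' := fun c f hf u u' h k => by rw [Pi.smul_apply, Pi.smul_apply, hf u u' h k]

/-- functions of the first coordinate, role, colours -/
def M3 : Submodule ℝ (Tile → ℝ) where
  carrier := {ψ | ∀ u u' : Tile, u.i = u'.i → SameC u u' → ψ u = ψ u'}
  zero_mem' := fun _ _ _ _ => rfl
  add_mem' := fun {f g} hf hg u u' h k => by
    rw [Pi.add_apply, Pi.add_apply, hf u u' h k, hg u u' h k]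
  smul_mem' := fun c f hf u u' h k => by rw [Pi.smul_apply, Pi.smul_apply, hf u u' h k]

/-- functions of role and colours -/
def M4 : Submodule ℝ (Tile → ℝ) where
  carrier := {ψ | ∀ u u' : Tile, SameC u u' → ψ u = ψ u'}
  zero_mem' := fun _ _ _ => rfl
  add_mem' := fun {f g} hf hg u u' h => by rw [Pi.add_apply, Pi.add_apply, hf u u' h, hg u u' h]
  smul_mem' := fun c f hf u u' h => by rw [Pi.smul_apply, Pi.smul_apply, hf u u' h]

/-- the substitution operator -/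
noncomputable def Lop : (Tile → ℝ) →ₗ[ℝ] (Tile → ℝ) where
  toFun := fun ψ v => ∑ a ∈ Finset.range NN, ∑ b ∈ Finset.range NN, ψ (v.Sub a b)
  map_add' := fun f g => by
    funext v
    simp only [Pi.add_apply, Finset.sum_add_distrib]
  map_smul' := fun c f => by
    funext v
    simp only [Pi.smul_apply, smul_eq_mul, RingHom.id_apply, Finset.mul_sum]

theorem Lop_eq (ψ : Tile → ℝ) :
    Lop ψ = ∑ a ∈ Finset.range NN, ∑ b ∈ Finset.range NN,
      (fun v : Tile => ψ (v.Sub a b) : Tile → ℝ) := by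
  funext v
  rw [Finset.sum_apply]
  show ∑ a ∈ Finset.range NN, ∑ b ∈ Finset.range NN, ψ (v.Sub a b) = _
  refine Finset.sum_congr rfl fun a _ => ?_
  rw [Finset.sum_apply]

theorem Lop_eq' (ψ : Tile → ℝ) :
    Lop ψ = ∑ b ∈ Finset.range NN,
      (fun v : Tile => ∑ a ∈ Finset.range NN, ψ (v.Sub a b) : Tile → ℝ) := by
  funext v
  rw [Finset.sum_apply]
  show ∑ a ∈ Finset.range NN, ∑ b ∈ Finset.range NN, ψ (v.Sub a b) = _
  exact Finset.sum_comm

theorem Lop_eq'' (ψ : Tile → ℝ) :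
    Lop ψ = ∑ a ∈ Finset.range NN,
      (fun v : Tile => ∑ b ∈ Finset.range NN, ψ (v.Sub a b) : Tile → ℝ) := by
  funext v
  rw [Finset.sum_apply]
  rfl

theorem sum_invol {κ : ℕ → ℕ} (h1 : ∀ x, x < NN → κ x < NN) (h2 : ∀ x, κ (κ x) = x) (F : ℕ → ℝ) :
    ∑ x ∈ Finset.range NN, F (κ x) = ∑ x ∈ Finset.range NN, F x := by
  refine Finset.sum_nbij' κ κ ?_ ?_ ?_ ?_ ?_
  · intro x hx; rw [Finset.mem_range] at *; exact h1 x hx
  · intro x hx; rw [Finset.mem_range] at *; exact h1 x hx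
  · intro x _; exact h2 x
  · intro x _; exact h2 x
  · intro x _; rfl

theorem L_top (F : BalFacts) (ψ : Tile → ℝ) : Lop ψ ∈ M1 ⊔ M2 ⊔ M3 := by
  rw [Lop_eq]
  refine Submodule.sum_mem _ fun a ha => Submodule.sum_mem _ fun b hb => ?_
  rw [Finset.mem_range] at ha hb
  rcases F.f4 a b ha hb with h | h | h
  · refine Submodule.mem_sup_left (Submodule.mem_sup_left ?_)
    intro u u' hs
    show ψ (u.Sub a b) = ψ (u'.Sub a b)
    rw [Sub_congr ⟨ha, hb⟩ (h u u' hs)]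
  · refine Submodule.mem_sup_left (Submodule.mem_sup_right ?_)
    intro u u' hj hs
    show ψ (u.Sub a b) = ψ (u'.Sub a b)
    rw [Sub_congr ⟨ha, hb⟩ (h u u' hj hs)]
  · refine Submodule.mem_sup_right ?_
    intro u u' hi hs
    show ψ (u.Sub a b) = ψ (u'.Sub a b)
    rw [Sub_congr ⟨ha, hb⟩ (h u u' hi hs)]

theorem L_M1 {ψ : Tile → ℝ} (h : ψ ∈ M1) : Lop ψ ∈ M0 := by
  intro u u'
  show ∑ a ∈ Finset.range NN, ∑ b ∈ Finset.range NN, ψ (u.Sub a b) =
    ∑ a ∈ Finset.range NN, ∑ b ∈ Finset.range NN, ψ (u'.Sub a b)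
  refine Finset.sum_congr rfl fun a ha => Finset.sum_congr rfl fun b hb => ?_
  rw [Finset.mem_range] at ha hb
  apply h
  exact ⟨by rw [Sub_i ⟨ha, hb⟩, Sub_i ⟨ha, hb⟩], by rw [Sub_j ⟨ha, hb⟩, Sub_j ⟨ha, hb⟩]⟩

theorem L_M2 (F : BalFacts) {ψ : Tile → ℝ} (h : ψ ∈ M2) : Lop ψ ∈ M1 ⊔ M4 := by
  rw [Lop_eq']
  refine Submodule.sum_mem _ fun b hb => ?_
  rw [Finset.mem_range] at hb
  have key : ∀ u u' : Tile, RowMatch b u u' →
      ∑ a ∈ Finset.range NN, ψ (u.Sub a b) = ∑ a ∈ Finset.range NN, ψ (u'.Sub a b) := by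
    rintro u u' ⟨κ, hκ1, hκ2, hκ⟩
    rw [← sum_invol hκ1 hκ2]
    refine Finset.sum_congr rfl fun a ha => ?_
    rw [Finset.mem_range] at ha
    obtain ⟨hr, hc⟩ := hκ a ha
    apply h
    · rw [Sub_j ⟨hκ1 a ha, hb⟩, Sub_j ⟨ha, hb⟩]
    · exact Sub_sameC ⟨hκ1 a ha, hb⟩ ⟨ha, hb⟩ hr hc.symm
  rcases F.fr b hb with h1 | h1 | h1
  · have : (fun v : Tile => ∑ a ∈ Finset.range NN, ψ (v.Sub a b)) =
        ∑ a ∈ Finset.range NN, (fun v : Tile => ψ (v.Sub a b) : Tile → ℝ) := by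
      funext v; rw [Finset.sum_apply]
    rw [this]
    refine Submodule.sum_mem _ fun a ha => ?_
    rw [Finset.mem_range] at ha
    rcases h1 a ha with h2 | h2
    · refine Submodule.mem_sup_left ?_
      intro u u' hs
      show ψ (u.Sub a b) = ψ (u'.Sub a b)
      rw [Sub_congr ⟨ha, hb⟩ (h2 u u' hs)]
    · refine Submodule.mem_sup_right ?_
      intro u u' hs
      show ψ (u.Sub a b) = ψ (u'.Sub a b)
      rw [Sub_congr ⟨ha, hb⟩ (h2 u u' hs)]
  · exact Submodule.mem_sup_left fun u u' hs => key u u' (h1 u u' hs)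
  · exact Submodule.mem_sup_right fun u u' hs => key u u' (h1 u u' hs)

theorem L_M3 (F : BalFacts) {ψ : Tile → ℝ} (h : ψ ∈ M3) : Lop ψ ∈ M1 ⊔ M4 := by
  rw [Lop_eq'']
  refine Submodule.sum_mem _ fun a ha => ?_
  rw [Finset.mem_range] at ha
  have key : ∀ u u' : Tile, ColMatch a u u' →
      ∑ b ∈ Finset.range NN, ψ (u.Sub a b) = ∑ b ∈ Finset.range NN, ψ (u'.Sub a b) := by
    rintro u u' ⟨κ, hκ1, hκ2, hκ⟩
    rw [← sum_invol hκ1 hκ2]
    refine Finset.sum_congr rfl fun b hb => ?_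
    rw [Finset.mem_range] at hb
    obtain ⟨hr, hc⟩ := hκ b hb
    apply h
    · rw [Sub_i ⟨ha, hκ1 b hb⟩, Sub_i ⟨ha, hb⟩]
    · exact Sub_sameC ⟨ha, hκ1 b hb⟩ ⟨ha, hb⟩ hr hc.symm
  rcases F.fc a ha with h1 | h1 | h1
  · have : (fun v : Tile => ∑ b ∈ Finset.range NN, ψ (v.Sub a b)) =
        ∑ b ∈ Finset.range NN, (fun v : Tile => ψ (v.Sub a b) : Tile → ℝ) := by
      funext v; rw [Finset.sum_apply]
    rw [this]
    refine Submodule.sum_mem _ fun b hb => ?_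
    rw [Finset.mem_range] at hb
    rcases h1 b hb with h2 | h2
    · refine Submodule.mem_sup_left ?_
      intro u u' hs
      show ψ (u.Sub a b) = ψ (u'.Sub a b)
      rw [Sub_congr ⟨ha, hb⟩ (h2 u u' hs)]
    · refine Submodule.mem_sup_right ?_
      intro u u' hs
      show ψ (u.Sub a b) = ψ (u'.Sub a b)
      rw [Sub_congr ⟨ha, hb⟩ (h2 u u' hs)]
  · exact Submodule.mem_sup_left fun u u' hs => key u u' (h1 u u' hs)
  · exact Submodule.mem_sup_right fun u u' hs => key u u' (h1 u u' hs)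

theorem L_M4 (F : BalFacts) {ψ : Tile → ℝ} (h : ψ ∈ M4) : Lop ψ ∈ M1 := by
  intro u u' hs
  obtain ⟨Φ, hΦ1, hΦ2, hΦ⟩ := F.f1 u u' hs
  show ∑ a ∈ Finset.range NN, ∑ b ∈ Finset.range NN, ψ (u.Sub a b) =
    ∑ a ∈ Finset.range NN, ∑ b ∈ Finset.range NN, ψ (u'.Sub a b)
  rw [← Finset.sum_product', ← Finset.sum_product']
  refine Finset.sum_nbij' Φ Φ ?_ ?_ ?_ ?_ ?_
  · intro z hz
    rw [Finset.mem_product, Finset.mem_range, Finset.mem_range] at *
    exact hΦ1 z hz.1 hz.2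
  · intro z hz
    rw [Finset.mem_product, Finset.mem_range, Finset.mem_range] at *
    exact hΦ1 z hz.1 hz.2
  · intro z _; exact hΦ2 z
  · intro z _; exact hΦ2 z
  · intro z hz
    rw [Finset.mem_product, Finset.mem_range, Finset.mem_range] at hz
    have h1 := hΦ1 z hz.1 hz.2
    have h2 := hΦ (Φ z) h1.1 h1.2
    rw [hΦ2] at h2
    apply h
    exact Sub_sameC hz h1 h2.1 h2.2.symm

/-- **Balance lemma** -/
theorem bal_of_facts (F : BalFacts) : ∃ k : ℕ, ∀ φ : Tile → ℝ, ∃ c : ℝ, ∀ u : Tile,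
    ((fun (ψ : Tile → ℝ) (v : Tile) =>
      ∑ a ∈ Finset.range NN, ∑ b ∈ Finset.range NN, ψ (v.Sub a b))^[k] φ) u = c := by
  refine ⟨4, fun φ => ?_⟩
  have h1 : Lop φ ∈ M1 ⊔ M2 ⊔ M3 := L_top F φ
  have hM0 : M0 ≤ M1 := fun ψ h u u' _ => h u u'
  have h2 : Lop (Lop φ) ∈ M1 ⊔ M4 := by
    obtain ⟨y, hy, z3, hz3, e⟩ := Submodule.mem_sup.1 h1
    obtain ⟨z1, hz1, z2, hz2, e'⟩ := Submodule.mem_sup.1 hy
    rw [← e, ← e', map_add, map_add]
    exact Submodule.add_mem _ (Submodule.add_mem _ (Submodule.mem_sup_left (hM0 (L_M1 hz1)))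
      (L_M2 F hz2)) (L_M3 F hz3)
  have h3 : Lop (Lop (Lop φ)) ∈ M1 := by
    obtain ⟨z1, hz1, z4, hz4, e⟩ := Submodule.mem_sup.1 h2
    rw [← e, map_add]
    exact Submodule.add_mem _ (hM0 (L_M1 hz1)) (L_M4 F hz4)
  have h4 : Lop (Lop (Lop (Lop φ))) ∈ M0 := L_M1 h3
  by_cases hne : Nonempty Tile
  · obtain ⟨u0⟩ := hne
    exact ⟨Lop (Lop (Lop (Lop φ))) u0, fun u => h4 u u0⟩
  · exact ⟨0, fun u => absurd ⟨u⟩ hne⟩

end Pool.Agent.MPa03d92.C
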