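import Mathlib
import Pool.Agent.Work.MP_a03d92_mp.Interface
import Pool.Agent.Work.MP_a03d92_mp.BalAbs
import Pool.Agent.Work.MP_a03d92_mp.Bal5

/-!
# MP_a03d92_mp : Part C, the substitution system
-/

set_option autoImplicit false
open scoped Classical

namespace Pool.Agent.MPa03d92.C

def Tile.toProd (u : Tile) : Fin NN × Fin NN × V × V × V × V :=
  (⟨u.i, u.hi⟩, ⟨u.j, u.hj⟩, u.W, u.E, u.S, u.N)

theorem Tile.toProd_inj : Function.Injective Tile.toProd := by
  intro u u' h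
  simp only [Tile.toProd, Prod.mk.injEq, Fin.mk.injEq] at h
  ext1
  · exact h.1
  · exact h.2.1
  · exact h.2.2.1
  · exact h.2.2.2.1
  · exact h.2.2.2.2.1
  · exact h.2.2.2.2.2

noncomputable instance : Fintype Tile := Fintype.ofInjective _ Tile.toProd_inj

theorem valid_zero : valid (role 0 0) blank blank blank blank := by
  rw [valid_role_of_not (by omega)]
  unfold kind
  rw [if_pos rfl, line_zero]
  exact ⟨⟨rfl, rfl⟩, ⟨rfl, rfl⟩, trivial⟩

instance : Nonempty Tile :=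
  ⟨⟨0, 0, blank, blank, blank, blank, by have := NN_ge; omega, by have := NN_ge; omega, valid_zero⟩⟩

def Hrel (u u' : Tile) : Prop := u'.i = (u.i + 1) % NN ∧ u'.j = u.j ∧ u.E = u'.W
def Vrel (u u' : Tile) : Prop := u'.j = (u.j + 1) % NN ∧ u'.i = u.i ∧ u.N = u'.S

/-- a face determines the data it carries -/
theorem enc_inj {a b a' b' : ℕ} {c c' : V} (ha : a < NN) (hb : b < NN) (ha' : a' < NN) (hb' : b' < NN)
    (h : ∀ q, enc a b c q = enc a' b' c' q) : a = a' ∧ b = b' ∧ c = c' := by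
  refine ⟨eq_of_bits ha ha' fun k => h (.prim k), eq_of_bits hb hb' fun k => h (.sec k), ?_⟩
  have h1 := h (.val c)
  simp only [enc] at h1
  have h2 : dec (c' = c) = true := by rw [← h1, dec_iff]; trivial
  exact (dec_iff.1 h2).symm

theorem bit_inj {x y : Bool} (h : bit x = bit y) : x = y := by
  have := congrArg V.b1 h; exact this

/-- value on the west face -/
theorem hf_face0 (u : Tile) (q : PB) : hf u 0 (8 * plP q false + 4) = bit (enc u.i u.j u.W q) := by
  rw [hf_pos _ _ (by omega), line_pout_iff.2 rfl]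
  simp [lv]

theorem hf_faceN (u : Tile) (q : PB) :
    hf u NN (8 * plP q false + 4) = bit (enc ((u.i + 1) % NN) u.j u.E q) := by
  have := NN_ge
  rw [hf_pos _ _ (by omega), line_pout_iff.2 rfl, lv_pout_mid (by omega), Bool.xor_false]

theorem vf_face0 (u : Tile) (q : PB) : vf u (8 * plP q false + 4) 0 = bit (enc u.j u.i u.S q) := by
  rw [vf_pos _ _ (by omega), line_pout_iff.2 rfl]
  simp [lv]

theorem vf_faceN (u : Tile) (q : PB) :
    vf u (8 * plP q false + 4) NN = bit (enc ((u.j + 1) % NN) u.i u.N q) := by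
  have := NN_ge
  rw [vf_pos _ _ (by omega), line_pout_iff.2 rfl, lv_pout_mid (by omega), Bool.xor_false]

/-- east face of `u` = west face of `u'` iff `u'` may be the right neighbour of `u` -/
theorem hface_iff (u u' : Tile) : Hrel u u' ↔ ∀ b, b < NN → hf u NN b = hf u' 0 b := by
  have hN := NN_ge
  have hN' := NN_eq'
  constructor
  · rintro ⟨h1, h2, h3⟩ b hb
    rcases Nat.eq_zero_or_pos b with h0 | h0
    · subst h0
      rw [hf_zero, hf_zero, rg_zero, rg_blank (by rw [line_NN]; simp)]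
    · rw [hf_pos _ _ h0, hf_pos _ _ h0]
      rcases hl : line b with _ | _ | t | ⟨q, s⟩ | ⟨q, s⟩ | i
      · rfl
      · rfl
      · simp [lv]
      · rw [lv_pout_mid (by omega)]
        simp only [lv, if_true]
        rw [h1, h2, h3]
      · simp [lv]
      · simp [lv]
  · intro h
    have key : ∀ q, enc ((u.i + 1) % NN) u.j u.E q = enc u'.i u'.j u'.W q := by
      intro q
      have hp := plP_lt q false
      have h1 := h (8 * plP q false + 4) (by omega)
      rw [hf_faceN, hf_face0] at h1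
      exact bit_inj h1
    obtain ⟨h1, h2, h3⟩ := enc_inj (Nat.mod_lt _ (by omega)) u.hj u'.hi u'.hj key
    exact ⟨h1.symm, h2.symm, h3⟩

theorem vface_iff (u u' : Tile) : Vrel u u' ↔ ∀ a, a < NN → vf u a NN = vf u' a 0 := by
  have hN := NN_ge
  have hN' := NN_eq'
  constructor
  · rintro ⟨h1, h2, h3⟩ a ha
    rcases Nat.eq_zero_or_pos a with h0 | h0
    · subst h0
      rw [vf_zero, vf_zero, rg_zero, rg_blank (by rw [line_NN]; simp)]
    · rw [vf_pos _ _ h0, vf_pos _ _ h0]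
      rcases hl : line a with _ | _ | t | ⟨q, s⟩ | ⟨q, s⟩ | i
      · rfl
      · rfl
      · simp [lv]
      · rw [lv_pout_mid (by omega)]
        simp only [lv, if_true]
        rw [h1, h2, h3]
      · simp [lv]
      · simp [lv]
  · intro h
    have key : ∀ q, enc ((u.j + 1) % NN) u.i u.N q = enc u'.j u'.i u'.S q := by
      intro q
      have hp := plP_lt q false
      have h1 := h (8 * plP q false + 4) (by omega)
      rw [vf_faceN, vf_face0] at h1
      exact bit_inj h1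
    obtain ⟨h1, h2, h3⟩ := enc_inj (Nat.mod_lt _ (by omega)) u.hi u'.hj u'.hi key
    exact ⟨h1.symm, h2.symm, h3⟩

/-- the west column depends only on position and west colour -/
theorem cell_x0 {u u' : Tile} (h1 : u.i = u'.i) (h2 : u.j = u'.j) (h3 : u.W = u'.W) (b : ℕ) :
    cell u 0 b = cell u' 0 b := by
  unfold cell
  rw [vf_zero, vf_zero, vf_zero, vf_zero, h1, h2, h3]
  rcases Nat.eq_zero_or_pos b with h0 | h0
  · subst h0
    simp only [hf_zero, rg_zero, rg_one, Nat.zero_add]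
  · rw [hf_pos _ _ h0, hf_pos _ _ h0, hf_pos _ _ h0, hf_pos _ _ h0, h1, h2, h3]
    rcases hl : line b with _ | _ | t | ⟨q, s⟩ | ⟨q, s⟩ | i <;> simp [lv]

theorem cell_y0 {u u' : Tile} (h1 : u.i = u'.i) (h2 : u.j = u'.j) (h3 : u.S = u'.S) (a : ℕ) :
    cell u a 0 = cell u' a 0 := by
  unfold cell
  rw [hf_zero, hf_zero, hf_zero, hf_zero, h1, h2, h3]
  rcases Nat.eq_zero_or_pos a with h0 | h0
  · subst h0
    simp only [vf_zero, rg_zero, rg_one, Nat.zero_add]
  · rw [vf_pos _ _ h0, vf_pos _ _ h0, vf_pos _ _ h0, vf_pos _ _ h0, h1, h2, h3]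
    rcases hl : line a with _ | _ | t | ⟨q, s⟩ | ⟨q, s⟩ | i <;> simp [lv]

theorem cell_00 (u u' : Tile) : cell u 0 0 = cell u' 0 0 := by
  unfold cell
  rw [hf_zero, hf_zero, hf_zero, hf_zero, vf_zero, vf_zero, vf_zero, vf_zero, rg_zero, rg_zero,
    rg_zero, rg_zero]
  show (_, rg _ 1, _, rg _ 1) = (_, rg _ 1, _, rg _ 1)
  rw [rg_one, rg_one, rg_one, rg_one]

theorem Sub_W {u : Tile} {a b : ℕ} (h : a < NN ∧ b < NN) : (u.Sub a b).W = hf u a b := by
  rw [Sub_eq h]
theorem Sub_E {u : Tile} {a b : ℕ} (h : a < NN ∧ b < NN) : (u.Sub a b).E = hf u (a + 1) b := by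
  rw [Sub_eq h]
theorem Sub_S {u : Tile} {a b : ℕ} (h : a < NN ∧ b < NN) : (u.Sub a b).S = vf u a b := by
  rw [Sub_eq h]
theorem Sub_N {u : Tile} {a b : ℕ} (h : a < NN ∧ b < NN) : (u.Sub a b).N = vf u a (b + 1) := by
  rw [Sub_eq h]

theorem H_face' (u u' : Tile) :
    Hrel u u' ↔ ∀ b, b < NN → Hrel (u.Sub (NN - 1) b) (u'.Sub 0 b) := by
  have hN := NN_ge
  rw [hface_iff]
  refine forall_congr' fun b => ?_
  refine imp_congr_right fun hb => ?_
  have h1 : NN - 1 < NN ∧ b < NN := ⟨by omega, hb⟩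
  have h2 : 0 < NN ∧ b < NN := ⟨by omega, hb⟩
  unfold Hrel
  rw [Sub_i h1, Sub_i h2, Sub_j h1, Sub_j h2, Sub_E h1, Sub_W h2,
    show NN - 1 + 1 = NN by omega, Nat.mod_self]
  simp

theorem V_face' (u u' : Tile) :
    Vrel u u' ↔ ∀ a, a < NN → Vrel (u.Sub a (NN - 1)) (u'.Sub a 0) := by
  have hN := NN_ge
  rw [vface_iff]
  refine forall_congr' fun a => ?_
  refine imp_congr_right fun ha => ?_
  have h1 : a < NN ∧ NN - 1 < NN := ⟨ha, by omega⟩
  have h2 : a < NN ∧ 0 < NN := ⟨ha, by omega⟩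
  unfold Vrel
  rw [Sub_i h1, Sub_i h2, Sub_j h1, Sub_j h2, Sub_N h1, Sub_S h2,
    show NN - 1 + 1 = NN by omega, Nat.mod_self]
  simp

theorem S_inj' (u u' : Tile) (h : ∀ a b, a < NN → b < NN → u.Sub a b = u'.Sub a b) : u = u' := by
  have hN := NN_ge
  have hN' := NN_eq'
  have hp : ∀ q, 8 * plP q false + 4 < NN := fun q => by have := plP_lt q false; omega
  have k1 : ∀ q, enc u.i u.j u.W q = enc u'.i u'.j u'.W q := by
    intro q
    have h1 := congrArg Tile.W (h 0 (8 * plP q false + 4) (by omega) (hp q))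
    rw [Sub_W ⟨by omega, hp q⟩, Sub_W ⟨by omega, hp q⟩, hf_face0, hf_face0] at h1
    exact bit_inj h1
  have k2 : ∀ q, enc ((u.i + 1) % NN) u.j u.E q = enc ((u'.i + 1) % NN) u'.j u'.E q := by
    intro q
    have h1 := congrArg Tile.E (h (NN - 1) (8 * plP q false + 4) (by omega) (hp q))
    rw [Sub_E ⟨by omega, hp q⟩, Sub_E ⟨by omega, hp q⟩, show NN - 1 + 1 = NN by omega,
      hf_faceN, hf_faceN] at h1
    exact bit_inj h1
  have k3 : ∀ q, enc u.j u.i u.S q = enc u'.j u'.i u'.S q := by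
    intro q
    have h1 := congrArg Tile.S (h (8 * plP q false + 4) 0 (hp q) (by omega))
    rw [Sub_S ⟨hp q, by omega⟩, Sub_S ⟨hp q, by omega⟩, vf_face0, vf_face0] at h1
    exact bit_inj h1
  have k4 : ∀ q, enc ((u.j + 1) % NN) u.i u.N q = enc ((u'.j + 1) % NN) u'.i u'.N q := by
    intro q
    have h1 := congrArg Tile.N (h (8 * plP q false + 4) (NN - 1) (hp q) (by omega))
    rw [Sub_N ⟨hp q, by omega⟩, Sub_N ⟨hp q, by omega⟩, show NN - 1 + 1 = NN by omega,
      vf_faceN, vf_faceN] at h1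
    exact bit_inj h1
  obtain ⟨e1, e2, e3⟩ := enc_inj u.hi u.hj u'.hi u'.hj k1
  obtain ⟨-, -, e4⟩ := enc_inj (Nat.mod_lt _ (by omega)) u.hj (Nat.mod_lt _ (by omega)) u'.hj k2
  obtain ⟨-, -, e5⟩ := enc_inj u.hj u.hi u'.hj u'.hi k3
  obtain ⟨-, -, e6⟩ := enc_inj (Nat.mod_lt _ (by omega)) u.hi (Nat.mod_lt _ (by omega)) u'.hi k4
  ext1 <;> assumption

theorem force' (w : ℕ → ℕ → Tile)
    (hpos : ∀ a b, a < NN → b < NN → (w a b).i = a ∧ (w a b).j = b)
    (hH : ∀ a b, a + 1 < NN → b < NN → Hrel (w a b) (w (a + 1) b))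
    (hV : ∀ a b, a < NN → b + 1 < NN → Vrel (w a b) (w a (b + 1))) :
    ∃ u : Tile, ∀ a b, a < NN → b < NN → w a b = u.Sub a b := by
  have hN := NN_ge
  let h : ℕ → ℕ → V := fun x y => if x < NN then (w x y).W else (w (NN - 1) y).E
  let v : ℕ → ℕ → V := fun x y => if y < NN then (w x y).S else (w x (NN - 1)).N
  have hE : ∀ x y, x < NN → y < NN → h (x + 1) y = (w x y).E := by
    intro x y hx hy
    simp only [h]
    split_ifs with h1
    · exact (hH x y h1 hy).2.2.symm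
    · have : x = NN - 1 := by omega
      rw [this]
  have hN2 : ∀ x y, x < NN → y < NN → v x (y + 1) = (w x y).N := by
    intro x y hx hy
    simp only [v]
    split_ifs with h1
    · exact (hV x y hx h1).2.2.symm
    · have : y = NN - 1 := by omega
      rw [this]
  have hW : ∀ x y, x < NN → h x y = (w x y).W := fun x y hx => by simp only [h]; rw [if_pos hx]
  have hS : ∀ x y, y < NN → v x y = (w x y).S := fun x y hy => by simp only [v]; rw [if_pos hy]
  have A : AllValid h v := by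
    intro x y hx hy
    rw [hE x y hx hy, hN2 x y hx hy, hW x y hx, hS x y hy]
    have := (w x y).ok
    rwa [(hpos x y hx hy).1, (hpos x y hx hy).2] at this
  obtain ⟨u, hu1, hu2⟩ := force A
  refine ⟨u, fun a b ha hb => ?_⟩
  rw [Sub_eq ⟨ha, hb⟩]
  ext1
  · exact (hpos a b ha hb).1
  · exact (hpos a b ha hb).2
  · show (w a b).W = hf u a b
    rw [← hW a b ha, hu1 a b ha.le hb]
  · show (w a b).E = hf u (a + 1) b
    rw [← hE a b ha hb, hu1 (a + 1) b ha hb]
  · show (w a b).S = vf u a b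
    rw [← hS a b hb, hu2 a b ha hb.le]
  · show (w a b).N = vf u a (b + 1)
    rw [← hN2 a b ha hb, hu2 a (b + 1) ha hb]

/-- **the substitution system** -/
noncomputable def system : SubstSystem where
  T := Tile
  N := NN
  hN := by have := NN_ge; omega
  px := Tile.i
  py := Tile.j
  px_lt := fun t => t.hi
  py_lt := fun t => t.hj
  H := Hrel
  V := Vrel
  H_pos := fun _ _ h => ⟨h.1, h.2.1⟩
  V_pos := fun _ _ h => ⟨h.1, h.2.1⟩
  S := Tile.Sub
  S_px := fun _ _ _ ha hb => Sub_i ⟨ha, hb⟩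
  S_py := fun _ _ _ ha hb => Sub_j ⟨ha, hb⟩
  S_H := fun u a b ha hb => by
    have h1 : a < NN ∧ b < NN := ⟨by omega, hb⟩
    have h2 : a + 1 < NN ∧ b < NN := ⟨ha, hb⟩
    refine ⟨?_, ?_, ?_⟩
    · rw [Sub_i h1, Sub_i h2, Nat.mod_eq_of_lt ha]
    · rw [Sub_j h1, Sub_j h2]
    · rw [Sub_E h1, Sub_W h2]
  S_V := fun u a b ha hb => by
    have h1 : a < NN ∧ b < NN := ⟨ha, by omega⟩
    have h2 : a < NN ∧ b + 1 < NN := ⟨ha, hb⟩
    refine ⟨?_, ?_, ?_⟩
    · rw [Sub_j h1, Sub_j h2, Nat.mod_eq_of_lt hb]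
    · rw [Sub_i h1, Sub_i h2]
    · rw [Sub_N h1, Sub_S h2]
  H_face := H_face'
  V_face := V_face'
  S_inj := S_inj'
  force := force'
  det_H := fun u u' u'' h h' b hb => by
    have hN := NN_ge
    apply Sub_congr ⟨by omega, hb⟩
    exact cell_x0 (h.1.trans h'.1.symm) (h.2.1.trans h'.2.1.symm) (h.2.2.symm.trans h'.2.2) b
  det_V := fun u u' u'' h h' a ha => by
    have hN := NN_ge
    apply Sub_congr ⟨ha, by omega⟩
    exact cell_y0 (h.2.1.trans h'.2.1.symm) (h.1.trans h'.1.symm) (h.2.2.symm.trans h'.2.2) a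
  corner := fun u u' => by
    have hN := NN_ge
    exact Sub_congr ⟨by omega, by omega⟩ (cell_00 u u')
  bal := bal_of_facts balFacts

end Pool.Agent.MPa03d92.C
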